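import Pool.Agent.Y879.AP.Pair2

set_option autoImplicit false

/-!
# The mean of the Poisson laws over residue classes
-/

namespace Pool.Agent.Y879.AP

open Finset Filter
open Pool.Agent.W123.RP Pool.Agent.H373R2.T7 Pool.Agent.W123.RU Pool.Agent.TH464.PO Pool.Agent.TH464.PW

lemma Vz_asym (r : ℕ) (hr : 2 ≤ r) : Tendsto (fun q : ℕ => Vz ⌊(q : ℝ) ^ (1 / (r : ℝ))⌋₊ * Real.log q)
    atTop (nhds (r * Real.exp (-Real.eulerMascheroniConstant))) := by
  have hrr : (2 : ℝ) ≤ r := by exact_mod_cast hr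
  have hpowr : Tendsto (fun q : ℕ => (q : ℝ) ^ (1 / (r : ℝ))) atTop atTop :=
    (tendsto_rpow_atTop (by positivity)).comp tendsto_natCast_atTop_atTop
  have hfl : Tendsto (fun q : ℕ => ⌊(q : ℝ) ^ (1 / (r : ℝ))⌋₊) atTop atTop :=
    tendsto_nat_floor_atTop.comp hpowr
  have hm := Pool.Agent.H305R2.mertens_three.comp hfl
  have hlogs : Tendsto (fun q : ℕ => Real.log q / Real.log ⌊(q : ℝ) ^ (1 / (r : ℝ))⌋₊) atTop
      (nhds (r : ℝ)) := by
    have hlog : Tendsto (fun q : ℕ => Real.log (q : ℝ)) atTop atTop :=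
      Real.tendsto_log_atTop.comp tendsto_natCast_atTop_atTop
    have h1 : Tendsto (fun q : ℕ => Real.log ⌊(q : ℝ) ^ (1 / (r : ℝ))⌋₊ / Real.log q) atTop
        (nhds (1 / (r : ℝ))) := by
      have hlow : Tendsto (fun q : ℕ => 1 / (r : ℝ) - Real.log 2 / Real.log q) atTop
          (nhds (1 / (r : ℝ))) := by
        have := (tendsto_const_nhds (x := Real.log 2)).div_atTop hlog
        simpa using this.const_sub (1 / (r : ℝ))
      refine tendsto_of_tendsto_of_tendsto_of_le_of_le' hlow tendsto_const_nhds ?_ ?_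
      · filter_upwards [Pool.Agent.Y879.GL.level_ok r hr, eventually_ge_atTop 1] with q h1 h3
        obtain ⟨g1, g2, g3, g4, g5⟩ := h1
        have hq0 : (0 : ℝ) < q := by exact_mod_cast (by omega : 0 < q)
        have hlq : 0 < Real.log q := by linarith
        rw [le_div_iff₀ hlq, sub_mul, div_mul_cancel₀ _ hlq.ne']
        have h4 : Real.log ((q : ℝ) ^ (1 / (r : ℝ)) / 2) ≤ Real.log ⌊(q : ℝ) ^ (1 / (r : ℝ))⌋₊ := by
          apply Real.log_le_log (by positivity)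
          have h5 := Nat.lt_floor_add_one ((q : ℝ) ^ (1 / (r : ℝ)))
          have h6 : (3 : ℝ) ≤ ⌊(q : ℝ) ^ (1 / (r : ℝ))⌋₊ := by exact_mod_cast g1
          linarith
        rw [Real.log_div (by positivity) (by norm_num), Real.log_rpow hq0] at h4
        exact h4
      · filter_upwards [Pool.Agent.Y879.GL.level_ok r hr, eventually_ge_atTop 1] with q h1 h3
        obtain ⟨g1, g2, g3, g4, g5⟩ := h1
        have hq0 : (0 : ℝ) < q := by exact_mod_cast (by omega : 0 < q)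
        have hlq : 0 < Real.log q := by linarith
        rw [div_le_iff₀ hlq, ← Real.log_rpow hq0]
        apply Real.log_le_log (by exact_mod_cast (by omega : 0 < ⌊(q : ℝ) ^ (1 / (r : ℝ))⌋₊))
        exact Nat.floor_le (by positivity)
    have h2 := h1.inv₀ (by positivity)
    simp only [inv_div, one_div, inv_inv] at h2
    simpa using h2
  have h3 := (hm.inv₀ (Real.exp_ne_zero _)).mul hlogs
  rw [Real.exp_neg, mul_comm (r : ℝ)]
  refine h3.congr' ?_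
  filter_upwards [Pool.Agent.Y879.GL.level_ok r hr] with q h1
  obtain ⟨g1, g2, g3, g4, g5⟩ := h1
  simp only [Function.comp]
  have e1 : ∏ p ∈ (Finset.Icc 1 ⌊(q : ℝ) ^ (1 / (r : ℝ))⌋₊).filter Nat.Prime, (1 - (p : ℝ)⁻¹)⁻¹ =
      (Vz ⌊(q : ℝ) ^ (1 / (r : ℝ))⌋₊)⁻¹ := by
    unfold Vz pz
    rw [Finset.prod_inv_distrib]
    congr 1
    apply Finset.prod_congr rfl
    intro p _
    rw [one_div]
  rw [e1, inv_div, div_inv_eq_mul]
  have : Real.log ⌊(q : ℝ) ^ (1 / (r : ℝ))⌋₊ ≠ 0 := by linarith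
  field_simp

/-- the truncated singular series of dimension `k` -/
noncomputable def SS (Q : ℕ → ℕ → Prop) (k y : ℕ) : ℝ :=
  ∏ p ∈ pz y, (1 - (nuB Q p : ℝ) / p) / (1 - 1 / (p : ℝ)) ^ k

lemma SS_eq (Q : ℕ → ℕ → Prop) (k y : ℕ) : Vq Q y = SS Q k y * Vz y ^ k := by
  unfold SS Vq Vz
  rw [Finset.prod_div_distrib, Finset.prod_pow, div_mul_cancel₀]
  apply pow_ne_zero
  apply Finset.prod_ne_zero_iff.2
  intro p hp
  have h1 : (2 : ℝ) ≤ p := by exact_mod_cast (mem_pz.1 hp).2.two_le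
  have h2 : 1 / (p : ℝ) ≤ 1 / 2 := by gcongr
  linarith

lemma SS_pos (Q : ℕ → ℕ → Prop) (hadm : ∀ p : ℕ, p.Prime → nuB Q p < p) (k y : ℕ) : 0 < SS Q k y := by
  unfold SS
  apply Finset.prod_pos
  intro p hp
  have hpp := (mem_pz.1 hp).2
  have h0 : (0 : ℝ) < p := by exact_mod_cast hpp.pos
  have h1 : (2 : ℝ) ≤ p := by exact_mod_cast hpp.two_le
  have h2 : 1 / (p : ℝ) ≤ 1 / 2 := by gcongr
  apply div_pos
  · rw [sub_pos, div_lt_one h0]
    exact_mod_cast hadm p hpp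
  · apply pow_pos
    linarith

/-- the mean in terms of the singular series -/
theorem mean_gen (c k : ℕ) (A : ℝ) (hA : 0 < A) (r : ℕ) (hr : 2 ≤ r) (ε : ℝ) (hε : 0 < ε) :
    ∀ᶠ X : ℕ in atTop, ∀ (Q : ℕ → ℕ → Prop) (q : ℕ), PerB Q c → (∀ p : ℕ, p.Prime → nuB Q p < p) →
      1 ≤ q → (q : ℝ) ≤ (X : ℝ) ^ A →
      |Vq (Qn Q q) ⌊(X : ℝ) ^ (1 / (r : ℝ))⌋₊ * RD Q q * Real.log X ^ k -
        (r * Real.exp (-Real.eulerMascheroniConstant)) ^ k * SS Q k ⌊(X : ℝ) ^ (1 / (r : ℝ))⌋₊| ≤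
        ε * SS Q k ⌊(X : ℝ) ^ (1 / (r : ℝ))⌋₊ := by
  have h4 := (Vz_asym r hr).pow k
  obtain ⟨M, hM⟩ : ∃ M, M = (r * Real.exp (-Real.eulerMascheroniConstant)) ^ k := ⟨_, rfl⟩
  have hM0 : 0 ≤ M := by
    rw [hM]
    have := Real.exp_pos (-Real.eulerMascheroniConstant)
    positivity
  rw [← hM] at h4 ⊢
  have h5 := (Metric.tendsto_nhds.1 h4) (min (ε / 2) 1) (by positivity)
  filter_upwards [h5, large_Q c A hA r hr (ε / (2 * (M + 1))) (by positivity)] with X a1 a2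
  intro Q q hQ hadm hq hqX
  obtain ⟨a3, a4⟩ := a2 Q q hQ hadm hq hqX
  rw [Real.dist_eq] at a1
  obtain ⟨y, hy⟩ : ∃ y, y = ⌊(X : ℝ) ^ (1 / (r : ℝ))⌋₊ := ⟨_, rfl⟩
  rw [← hy] at a1 a3 a4 ⊢
  rw [RD_eq Q q y (by omega)]
  obtain ⟨E, hE⟩ : ∃ E, E = ∏ p ∈ q.primeFactors.filter (fun p => y < p), (1 - (nuB Q p : ℝ) / p) :=
    ⟨_, rfl⟩
  rw [← hE] at a3 a4 ⊢
  obtain ⟨s, hs⟩ : ∃ s, s = SS Q k y := ⟨_, rfl⟩
  have hs0 : 0 < s := by rw [hs]; exact SS_pos Q hadm k y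
  have e2 : Vq (Qn Q q) y * (Vq (Qd Q q) y * E) * Real.log X ^ k =
      s * ((Vz y * Real.log X) ^ k * E) := by
    rw [mul_pow, hs]
    calc Vq (Qn Q q) y * (Vq (Qd Q q) y * E) * Real.log X ^ k =
        (Vq (Qd Q q) y * Vq (Qn Q q) y) * (E * Real.log X ^ k) := by ring
      _ = (SS Q k y * Vz y ^ k) * (E * Real.log X ^ k) := by rw [Vd_mul_Vn, SS_eq Q k y]
      _ = _ := by ring
  rw [e2, ← hs]
  obtain ⟨v, hv⟩ : ∃ v, v = (Vz y * Real.log X) ^ k := ⟨_, rfl⟩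
  rw [← hv] at a1 ⊢
  have b1 := (abs_lt.1 a1).1
  have b2 := (abs_lt.1 a1).2
  have b3 : min (ε / 2) 1 ≤ ε / 2 := min_le_left _ _
  have b4 : min (ε / 2) 1 ≤ 1 := min_le_right _ _
  have b5 : |v * E - v| ≤ ε / 2 := by
    have c1 : 0 ≤ 1 - E := by linarith
    have c2 : 1 - E ≤ ε / (2 * (M + 1)) := by linarith
    have c3 : |v| ≤ M + 1 := by
      rw [abs_le]
      constructor <;> linarith
    rw [show v * E - v = -(v * (1 - E)) by ring, abs_neg, abs_mul, abs_of_nonneg c1]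
    calc |v| * (1 - E) ≤ (M + 1) * (ε / (2 * (M + 1))) := mul_le_mul c3 c2 c1 (by linarith)
      _ = ε / 2 := by field_simp
  have b6 := abs_sub_le (v * E) v M
  have b7 : |v - M| ≤ ε / 2 := (a1.le).trans b3
  rw [show s * (v * E) - M * s = s * (v * E - M) by ring, abs_mul, abs_of_pos hs0, mul_comm ε]
  exact mul_le_mul_of_nonneg_left (by linarith) hs0.le

end Pool.Agent.Y879.AP
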