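import Pool.Agent.TH464.PO.Gen
import Pool.Agent.Y879.GL.Assoc

set_option autoImplicit false

/-!
# Sifted integers in the progressions modulo `q`: local densities and binomial moments
-/

namespace Pool.Agent.Y879.AP

open Finset Filter
open Pool.Agent.W123.RP Pool.Agent.H373R2.T7 Pool.Agent.W123.RU Pool.Agent.TH464.PO

/-- the condition for the primes dividing the modulus -/
def Qd (Q : ℕ → ℕ → Prop) (q p m : ℕ) : Prop := p ∣ q ∧ Q p m

/-- the condition for the other primes -/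
def Qn (Q : ℕ → ℕ → Prop) (q p m : ℕ) : Prop := ¬ p ∣ q ∧ Q p m

/-- the condition on the multipliers of the modulus -/
def Q0 (Q : ℕ → ℕ → Prop) (q p m : ℕ) : Prop := ¬ p ∣ q ∧ Q p (q * m)

/-- the condition at the points `m + q h` -/
def QJ (Q : ℕ → ℕ → Prop) (q : ℕ) (H : Finset ℕ) (p m : ℕ) : Prop :=
  Qd Q q p m ∨ ∃ h ∈ H, Qn Q q p (m + q * h)

open Classical in
/-- the number of `1 ≤ h ≤ T` such that `b + q h` is sifted by the primes not dividing `q` -/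
noncomputable def W (Q : ℕ → ℕ → Prop) (q y T b : ℕ) : ℕ :=
  ((Icc 1 T).filter (fun h => Sf (Qn Q q) y (b + q * h))).card

lemma sf_QJ (Q : ℕ → ℕ → Prop) (q : ℕ) (H : Finset ℕ) (y b : ℕ) :
    Sf (QJ Q q H) y b ↔ Sf (Qd Q q) y b ∧ ∀ h ∈ H, Sf (Qn Q q) y (b + q * h) := by
  unfold Sf QJ
  constructor
  · intro h1
    exact ⟨fun p hp hq => h1 p hp (Or.inl hq), fun h hh p hp hq => h1 p hp (Or.inr ⟨h, hh, hq⟩)⟩
  · rintro ⟨h1, h2⟩ p hp (hq | ⟨h, hh, hq⟩)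
    · exact h1 p hp hq
    · exact h2 h hh p hp hq

lemma mod_mul_mod' (q n p : ℕ) : (q * n) % p = (q * (n % p)) % p := by
  rw [Nat.mul_mod, Nat.mul_mod q (n % p), Nat.mod_mod]

/-- multiplication by `q` permutes the classes -/
lemma card_mul (P : ℕ → Prop) [DecidablePred P] (p q : ℕ) (hp : p.Prime) (hpq : ¬ p ∣ q)
    (hP : ∀ n, P n ↔ P (n % p)) [DecidablePred (fun r => P (q * r))] :
    ((range p).filter (fun r => P (q * r))).card = ((range p).filter (fun r => P r)).card := by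
  have hcop : Nat.Coprime q p := ((Nat.Prime.coprime_iff_not_dvd hp).2 hpq).symm
  obtain ⟨m, hm⟩ : ∃ m, q * m % p = 1 := by
    obtain ⟨m, hm⟩ := Nat.exists_mul_mod_eq_one_of_coprime hcop hp.one_lt
    exact ⟨m, hm.2⟩
  apply Finset.card_bij (fun r _ => (q * r) % p)
  · intro r hr
    rw [mem_filter] at hr ⊢
    exact ⟨mem_range.2 (Nat.mod_lt _ hp.pos), (hP _).1 hr.2⟩
  · intro a ha b hb hab
    rw [mem_filter, mem_range] at ha hb
    have h1 : q * a ≡ q * b [MOD p] := hab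
    have h2 := Nat.ModEq.cancel_left_of_coprime hcop.symm h1
    have h3 : a % p = b % p := h2
    rwa [Nat.mod_eq_of_lt ha.1, Nat.mod_eq_of_lt hb.1] at h3
  · intro s hs
    rw [mem_filter, mem_range] at hs
    have e : q * ((m * s) % p) % p = s := by
      rw [← mod_mul_mod', ← mul_assoc, Nat.mul_mod, hm, one_mul, Nat.mod_mod, Nat.mod_eq_of_lt hs.1]
    refine ⟨(m * s) % p, ?_, e⟩
    rw [mem_filter]
    refine ⟨mem_range.2 (Nat.mod_lt _ hp.pos), ?_⟩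
    rw [hP, e]
    exact hs.2

lemma card_iff {s : Finset ℕ} {P P' : ℕ → Prop} (i1 : DecidablePred P) (i2 : DecidablePred P')
    (h : ∀ r ∈ s, (P r ↔ P' r)) : (@Finset.filter _ P i1 s).card = (@Finset.filter _ P' i2 s).card := by
  congr 1
  ext r
  rw [mem_filter, mem_filter]
  exact and_congr_right (h r)

lemma card_none {s : Finset ℕ} {P : ℕ → Prop} (i1 : DecidablePred P) (h : ∀ r ∈ s, ¬ P r) :
    (@Finset.filter _ P i1 s).card = 0 := by
  rw [Finset.card_eq_zero]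
  ext r
  rw [mem_filter]
  constructor
  · rintro ⟨h1, h2⟩
    exact absurd h2 (h r h1)
  · intro h1
    simp at h1

lemma nuB_Qd_dvd (Q : ℕ → ℕ → Prop) (q p : ℕ) (h : p ∣ q) : nuB (Qd Q q) p = nuB Q p := by
  unfold nuB
  apply card_iff
  intro r _
  exact ⟨fun h1 => h1.2, fun h1 => ⟨h, h1⟩⟩

lemma nuB_Qd_not (Q : ℕ → ℕ → Prop) (q p : ℕ) (h : ¬ p ∣ q) : nuB (Qd Q q) p = 0 := by
  unfold nuB
  apply card_none
  intro r _ h1
  exact h h1.1

lemma nuB_Qn_dvd (Q : ℕ → ℕ → Prop) (q p : ℕ) (h : p ∣ q) : nuB (Qn Q q) p = 0 := by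
  unfold nuB
  apply card_none
  intro r _ h1
  exact h1.1 h

lemma nuB_Qn_not (Q : ℕ → ℕ → Prop) (q p : ℕ) (h : ¬ p ∣ q) : nuB (Qn Q q) p = nuB Q p := by
  unfold nuB
  apply card_iff
  intro r _
  exact ⟨fun h1 => h1.2, fun h1 => ⟨h, h1⟩⟩

lemma nuB_Q0_dvd (Q : ℕ → ℕ → Prop) (q p : ℕ) (h : p ∣ q) : nuB (Q0 Q q) p = 0 := by
  unfold nuB
  apply card_none
  intro r _ h1
  exact h1.1 h

lemma nuB_Q0_not (Q : ℕ → ℕ → Prop) (hQ : ∀ p n, Q p n ↔ Q p (n % p)) (q p : ℕ) (hp : p.Prime)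
    (h : ¬ p ∣ q) : nuB (Q0 Q q) p = nuB Q p := by
  classical
  rw [show nuB Q p = ((range p).filter (fun r => Q p r)).card from by unfold nuB; congr,
    ← card_mul (Q p) p q hp h (hQ p)]
  unfold nuB
  apply card_iff
  intro r _
  exact ⟨fun h1 => h1.2, fun h1 => ⟨h, h1⟩⟩

lemma nuB_Q0_Qn (Q : ℕ → ℕ → Prop) (hQ : ∀ p n, Q p n ↔ Q p (n % p)) (q p : ℕ) (hp : p.Prime) :
    nuB (Q0 Q q) p = nuB (Qn Q q) p := by
  by_cases h : p ∣ q
  · rw [nuB_Q0_dvd Q q p h, nuB_Qn_dvd Q q p h]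
  · rw [nuB_Q0_not Q hQ q p hp h, nuB_Qn_not Q q p h]

lemma Vq_Q0 (Q : ℕ → ℕ → Prop) (hQ : ∀ p n, Q p n ↔ Q p (n % p)) (q y : ℕ) :
    Vq (Q0 Q q) y = Vq (Qn Q q) y := by
  unfold Vq
  exact Finset.prod_congr rfl fun p hp => by rw [nuB_Q0_Qn Q hQ q p (mem_pz.1 hp).2]

lemma perB_Qd (Q : ℕ → ℕ → Prop) (c : ℕ) (hQ : PerB Q c) (q : ℕ) : PerB (Qd Q q) c := by
  refine ⟨fun p n => ?_, fun p hp => ?_⟩
  · unfold Qd
    rw [hQ.per p n]
  · by_cases h : p ∣ q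
    · rw [nuB_Qd_dvd Q q p h]
      exact hQ.few p hp
    · rw [nuB_Qd_not Q q p h]
      exact Nat.zero_le _

lemma perB_Qn (Q : ℕ → ℕ → Prop) (c : ℕ) (hQ : PerB Q c) (q : ℕ) : PerB (Qn Q q) c := by
  refine ⟨fun p n => ?_, fun p hp => ?_⟩
  · unfold Qn
    rw [hQ.per p n]
  · by_cases h : p ∣ q
    · rw [nuB_Qn_dvd Q q p h]
      exact Nat.zero_le _
    · rw [nuB_Qn_not Q q p h]
      exact hQ.few p hp

lemma perB_Q0 (Q : ℕ → ℕ → Prop) (c : ℕ) (hQ : PerB Q c) (q : ℕ) : PerB (Q0 Q q) c := by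
  refine ⟨fun p n => ?_, fun p hp => ?_⟩
  · unfold Q0
    rw [hQ.per p (q * n), hQ.per p (q * (n % p)), ← mod_mul_mod']
  · rw [nuB_Q0_Qn Q hQ.per q p hp]
    exact (perB_Qn Q c hQ q).few p hp

lemma adm_Qd (Q : ℕ → ℕ → Prop) (hadm : ∀ p : ℕ, p.Prime → nuB Q p < p) (q : ℕ) :
    ∀ p : ℕ, p.Prime → nuB (Qd Q q) p < p := by
  intro p hp
  by_cases h : p ∣ q
  · rw [nuB_Qd_dvd Q q p h]
    exact hadm p hp
  · rw [nuB_Qd_not Q q p h]
    exact hp.pos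

lemma adm_Qn (Q : ℕ → ℕ → Prop) (hadm : ∀ p : ℕ, p.Prime → nuB Q p < p) (q : ℕ) :
    ∀ p : ℕ, p.Prime → nuB (Qn Q q) p < p := by
  intro p hp
  by_cases h : p ∣ q
  · rw [nuB_Qn_dvd Q q p h]
    exact hp.pos
  · rw [nuB_Qn_not Q q p h]
    exact hadm p hp

/-- the local densities -/
lemma nuB_QJ (Q : ℕ → ℕ → Prop) (hQ : ∀ p n, Q p n ↔ Q p (n % p)) (q : ℕ) (H : Finset ℕ) (p : ℕ)
    (hp : p.Prime) :
    (p ∣ q ∧ nuB (QJ Q q H) p = nuB (Qd Q q) p ∧ nuB (QH (Q0 Q q) H) p = 0) ∨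
      (¬ p ∣ q ∧ nuB (QJ Q q H) p = nuB (QH (Q0 Q q) H) p ∧ nuB (Qd Q q) p = 0) := by
  classical
  by_cases h : p ∣ q
  · left
    refine ⟨h, ?_, ?_⟩
    · unfold nuB
      apply card_iff
      intro r _
      unfold QJ
      constructor
      · rintro (h1 | ⟨s, _, h1⟩)
        · exact h1
        · exact absurd h h1.1
      · intro h1
        exact Or.inl h1
    · unfold nuB
      apply card_none
      rintro r _ ⟨s, _, h1⟩
      exact h1.1 h
  · right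
    refine ⟨h, ?_, nuB_Qd_not Q q p h⟩
    have e1 : nuB (QJ Q q H) p = ((range p).filter (fun r => ∃ s ∈ H, Q p (r + q * s))).card := by
      unfold nuB
      apply card_iff
      intro r _
      unfold QJ
      constructor
      · rintro (h1 | ⟨s, hs, h1⟩)
        · exact absurd h1.1 h
        · exact ⟨s, hs, h1.2⟩
      · rintro ⟨s, hs, h1⟩
        exact Or.inr ⟨s, hs, h, h1⟩
    have e2 : nuB (QH (Q0 Q q) H) p =
        ((range p).filter (fun r => ∃ s ∈ H, Q p (q * r + q * s))).card := by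
      unfold nuB
      apply card_iff
      intro r _
      unfold QH Q0
      constructor
      · rintro ⟨s, hs, _, h1⟩
        rw [mul_add] at h1
        exact ⟨s, hs, h1⟩
      · rintro ⟨s, hs, h1⟩
        rw [← mul_add] at h1
        exact ⟨s, hs, h, h1⟩
    rw [e1, e2]
    symm
    apply card_mul (fun m => ∃ s ∈ H, Q p (m + q * s)) p q hp h
    intro n
    apply exists_congr
    intro s
    apply and_congr_right
    intro _
    rw [hQ p (n + q * s), hQ p (n % p + q * s), Nat.mod_add_mod]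

lemma Vq_QJ (Q : ℕ → ℕ → Prop) (hQ : ∀ p n, Q p n ↔ Q p (n % p)) (q : ℕ) (H : Finset ℕ) (y : ℕ) :
    Vq (QJ Q q H) y = Vq (Qd Q q) y * Vq (QH (Q0 Q q) H) y := by
  unfold Vq
  rw [← Finset.prod_mul_distrib]
  apply Finset.prod_congr rfl
  intro p hp
  rcases nuB_QJ Q hQ q H p (mem_pz.1 hp).2 with ⟨_, h1, h2⟩ | ⟨_, h1, h2⟩
  · rw [h1, h2]
    simp
  · rw [h1, h2]
    simp

lemma perB_QJ (Q : ℕ → ℕ → Prop) (c : ℕ) (hQ : PerB Q c) (q : ℕ) (H : Finset ℕ) :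
    PerB (QJ Q q H) ((H.card + 1) * c) := by
  constructor
  · intro p n
    unfold QJ
    apply or_congr
    · exact (perB_Qd Q c hQ q).per p n
    · apply exists_congr
      intro h
      apply and_congr_right
      intro _
      exact per_add (Qn Q q) c (perB_Qn Q c hQ q) p n (n % p) (q * h) (q * h) (Nat.mod_mod n p).symm rfl
  · intro p hp
    rcases nuB_QJ Q hQ.per q H p hp with ⟨_, h1, _⟩ | ⟨_, h1, _⟩
    · rw [h1]
      refine ((perB_Qd Q c hQ q).few p hp).trans ?_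
      calc c = 1 * c := (one_mul c).symm
        _ ≤ _ := Nat.mul_le_mul_right _ (by omega)
    · rw [h1]
      refine ((perB_QH _ c (perB_Q0 Q c hQ q) H).few p hp).trans ?_
      exact Nat.mul_le_mul_right _ (by omega)

open Classical in
/-- binomial moments as sums over sets of multipliers -/
lemma moment_eq (Q : ℕ → ℕ → Prop) (q y k T Y : ℕ) :
    ∑ n ∈ (Icc 1 Y).filter (fun n => Sf (Qd Q q) y n), ((W Q q y T n).choose k : ℝ) =
      ∑ H ∈ powersetCard k (Icc 1 T), (((Icc 1 Y).filter (fun n => Sf (QJ Q q H) y n)).card : ℝ) := by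
  have h1 : ∀ H ∈ powersetCard k (Icc 1 T), (((Icc 1 Y).filter (fun n => Sf (QJ Q q H) y n)).card : ℝ) =
      ∑ n ∈ (Icc 1 Y).filter (fun n => Sf (Qd Q q) y n),
        if (∀ h ∈ H, Sf (Qn Q q) y (n + q * h)) then (1 : ℝ) else 0 := by
    intro H _
    rw [Finset.sum_ite, Finset.sum_const_zero, add_zero, Finset.sum_const, nsmul_eq_mul, mul_one,
      Finset.filter_filter]
    congr 2
    apply Finset.filter_congr
    intro m _
    exact sf_QJ Q q H y m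
  rw [Finset.sum_congr rfl h1, Finset.sum_comm]
  apply Finset.sum_congr rfl
  intro m _
  rw [Finset.sum_ite, Finset.sum_const_zero, add_zero, Finset.sum_const, nsmul_eq_mul, mul_one]
  unfold W
  rw [← Finset.card_powersetCard]
  congr 2
  ext H
  rw [mem_filter, mem_powersetCard, mem_powersetCard]
  constructor
  · rintro ⟨a1, a2⟩
    exact ⟨⟨fun h hh => (mem_filter.1 (a1 hh)).1, a2⟩, fun h hh => (mem_filter.1 (a1 hh)).2⟩
  · rintro ⟨⟨a1, a2⟩, a3⟩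
    exact ⟨fun h hh => mem_filter.2 ⟨a1 hh, a3 h hh⟩, a2⟩

open Classical in
/-- **Binomial moments.** -/
theorem moment (c k : ℕ) (hc : 1 ≤ c) (η : ℝ) (hη : 0 < η) (hη1 : η ≤ 1) :
    ∃ (K0 y0 T0 : ℕ) (η' : ℝ), 0 < η' ∧ ∀ Y y T : ℕ, y0 ≤ y → y ^ K0 ≤ Y → T0 ≤ T →
      ∀ (Q : ℕ → ℕ → Prop) (q : ℕ), PerB Q c → (∀ p : ℕ, p.Prime → nuB Q p < p) →
      (∀ t ∈ Icc 1 T, ((((pz y).filter
        (fun p : ℕ => T < p ∧ ¬ p ∣ q ∧ CoG Q p (q * t))).card : ℕ) : ℝ) ≤ η' * T) →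
      |∑ n ∈ (Icc 1 Y).filter (fun n => Sf (Qd Q q) y n), ((W Q q y T n).choose (k + 1) : ℝ) -
        Y * Vq (Qd Q q) y * ((T * Vq (Qn Q q) y) ^ (k + 1) / (k + 1).factorial)| ≤
        η * (Y * Vq (Qd Q q) y) * ((T * Vq (Qn Q q) y) ^ (k + 1) / (k + 1).factorial) +
          T ^ (k + 1) * √(Y : ℝ) := by
  obtain ⟨K0, x0, hK0, hfund⟩ := sys_fund ((k + 2) * c) (Nat.mul_pos (by omega) hc) (η / 4)
    (by positivity)
  obtain ⟨w, η', T0, hη', hsing⟩ := sing_avg c k (η / 4) (by positivity) (by linarith)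
  refine ⟨K0, max x0 w, T0, η', hη', ?_⟩
  intro Y y T hy hyY hT Q q hQ hadm hlarge
  have hper0 := perB_Q0 Q c hQ q
  have hadm0 : ∀ p : ℕ, p.Prime → nuB (Q0 Q q) p < p := by
    intro p hp
    rw [nuB_Q0_Qn Q hQ.per q p hp]
    exact adm_Qn Q hadm q p hp
  obtain ⟨s1, s2⟩ := hsing T hT (Q0 Q q) hper0 hadm0 y ((le_max_right _ _).trans hy) (by
    intro t ht
    refine le_trans ?_ (hlarge t ht)
    have : ((pz y).filter (fun p : ℕ => T < p ∧ CoG (Q0 Q q) p t)).card ≤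
        ((pz y).filter (fun p : ℕ => T < p ∧ ¬ p ∣ q ∧ CoG Q p (q * t))).card := by
      apply card_le_card
      intro p hp
      rw [mem_filter] at hp ⊢
      obtain ⟨h1, h2, m, h3, h4⟩ := hp
      refine ⟨h1, h2, h3.1, q * m, h3.2, ?_⟩
      have := h4.2
      rwa [mul_add] at this
    exact_mod_cast this)
  rw [Vq_Q0 Q hQ.per] at s1 s2
  rw [moment_eq]
  obtain ⟨S, hS⟩ : ∃ S, S = ∑ H ∈ powersetCard (k + 1) (Icc 1 T), Vq (QH (Q0 Q q) H) y := ⟨_, rfl⟩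
  obtain ⟨Z, hZ⟩ : ∃ Z : ℝ, Z = (T * Vq (Qn Q q) y) ^ (k + 1) / (k + 1).factorial := ⟨_, rfl⟩
  obtain ⟨Y1, hY1⟩ : ∃ Y1 : ℝ, Y1 = Y * Vq (Qd Q q) y := ⟨_, rfl⟩
  rw [← hS, ← hZ] at s1 s2
  rw [← hZ, ← hY1]
  have hV0 := Vq_nonneg (Qn Q q) y
  have hZ0 : 0 ≤ Z := by rw [hZ]; positivity
  have hY0 : (0 : ℝ) ≤ Y1 := by
    rw [hY1]
    exact mul_nonneg (Nat.cast_nonneg Y) (Vq_nonneg (Qd Q q) y)
  have h1 : |∑ H ∈ powersetCard (k + 1) (Icc 1 T),
      (((Icc 1 Y).filter (fun n => Sf (QJ Q q H) y n)).card : ℝ) - Y1 * S| ≤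
      η / 4 * (Y1 * S) + T ^ (k + 1) * √(Y : ℝ) := by
    have e : Y1 * S = ∑ H ∈ powersetCard (k + 1) (Icc 1 T), Y1 * Vq (QH (Q0 Q q) H) y := by
      rw [hS, Finset.mul_sum]
    rw [e, ← Finset.sum_sub_distrib]
    refine (Finset.abs_sum_le_sum_abs _ _).trans ?_
    have h2 : ∀ H ∈ powersetCard (k + 1) (Icc 1 T),
        |(((Icc 1 Y).filter (fun n => Sf (QJ Q q H) y n)).card : ℝ) - Y1 * Vq (QH (Q0 Q q) H) y| ≤
        η / 4 * (Y1 * Vq (QH (Q0 Q q) H) y) + √(Y : ℝ) := by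
      intro H hH
      rw [mem_powersetCard] at hH
      have hper := perB_QJ Q c hQ q H
      rw [hH.2, show k + 1 + 1 = k + 2 by ring] at hper
      have h3 := hfund Y y ((le_max_left _ _).trans hy) hyY (QJ Q q H) hper Y
      have e1 : ∏ p ∈ pz y, (1 - (nuB (QJ Q q H) p : ℝ) / p) = Vq (QJ Q q H) y := rfl
      rw [e1, Vq_QJ Q hQ.per, ← mul_assoc, ← hY1] at h3
      unfold Sf
      convert h3
    refine (Finset.sum_le_sum h2).trans ?_
    rw [Finset.sum_add_distrib, ← Finset.mul_sum, Finset.sum_const, nsmul_eq_mul]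
    have h3 : ((powersetCard (k + 1) (Icc 1 T)).card : ℝ) ≤ (T : ℝ) ^ (k + 1) := by
      rw [card_powersetCard, Nat.card_Icc, Nat.add_sub_cancel]
      exact_mod_cast Nat.choose_le_pow T (k + 1)
    have h4 := mul_le_mul_of_nonneg_right h3 (Real.sqrt_nonneg (Y : ℝ))
    linarith
  have h5 : |Y1 * S - Y1 * Z| ≤ η / 4 * (Y1 * Z) := by
    rw [← mul_sub, abs_mul, abs_of_nonneg hY0]
    have : |S - Z| ≤ η / 4 * Z := by
      rw [abs_le]
      constructor <;> linarith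
    calc Y1 * |S - Z| ≤ Y1 * (η / 4 * Z) := mul_le_mul_of_nonneg_left this hY0
      _ = _ := by ring
  have h6 : Y1 * S ≤ 2 * (Y1 * Z) := by
    have h7 := (abs_le.1 h5).2
    have h8 : 0 ≤ Y1 * Z := mul_nonneg hY0 hZ0
    nlinarith
  have h8 : 0 ≤ Y1 * Z := mul_nonneg hY0 hZ0
  have h9 := abs_sub_le (∑ H ∈ powersetCard (k + 1) (Icc 1 T),
      (((Icc 1 Y).filter (fun n => Sf (QJ Q q H) y n)).card : ℝ)) (Y1 * S) (Y1 * Z)
  have h10 : η / 4 * (Y1 * S) ≤ η / 4 * (2 * (Y1 * Z)) :=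
    mul_le_mul_of_nonneg_left h6 (by positivity)
  have h11 : 0 ≤ η * (Y1 * Z) := by positivity
  calc _ ≤ _ := h9
    _ ≤ η / 4 * (2 * (Y1 * Z)) + T ^ (k + 1) * √(Y : ℝ) + η / 4 * (Y1 * Z) := by linarith
    _ ≤ _ := by linarith

end Pool.Agent.Y879.AP
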