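import Pool.Agent.Y879.AP.Mean2
import Pool.Agent.Y879.GL.HerAbs

set_option autoImplicit false

/-!
# Regular points of sets of sieved integers in residue classes, for every modulus
-/

namespace Pool.Agent.Y879.AP

open Finset Filter
open Pool.Agent.W123.RP Pool.Agent.H373R2.T7 Pool.Agent.W123.RU Pool.Agent.TH464.PO Pool.Agent.TH464.PW
open Pool.Agent.Y879.GL (Irr hered_abs)
open Pool.Agent.TH977.PW (N)

lemma Vd_ge (q w : ℕ) : Vz w ≤ Vq (Qd Ql q) w := by
  rw [Vd_eq]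
  unfold Vz
  have hsub : (pz w).filter (fun p => p ∣ q) ⊆ pz w := filter_subset _ _
  rw [← Finset.prod_sdiff hsub]
  have hpos : ∀ p ∈ pz w, (0 : ℝ) ≤ 1 - 1 / (p : ℝ) := by
    intro p hp
    have : (1 : ℝ) ≤ p := by exact_mod_cast (mem_pz.1 hp).2.one_lt.le
    rw [sub_nonneg, div_le_one (by linarith)]
    exact this
  have b1 : ∏ p ∈ pz w \ (pz w).filter (fun p => p ∣ q), (1 - 1 / (p : ℝ)) ≤ 1 := by
    apply Finset.prod_le_one
    · intro p hp
      exact hpos p (Finset.mem_sdiff.1 hp).1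
    · intro p hp
      have : 0 ≤ 1 / (p : ℝ) := by positivity
      linarith
  have b2 : 0 ≤ ∏ p ∈ (pz w).filter (fun p => p ∣ q), (1 - 1 / (p : ℝ)) :=
    Finset.prod_nonneg fun p hp => hpos p (mem_filter.1 hp).1
  calc _ ≤ 1 * ∏ p ∈ (pz w).filter (fun p => p ∣ q), (1 - 1 / (p : ℝ)) :=
        mul_le_mul_of_nonneg_right b1 b2
    _ = _ := one_mul _

lemma phi_low (K : ℕ) (B0 : ℝ) : ∀ᶠ Y : ℕ in atTop, ∀ q : ℕ, 1 ≤ q → q ≤ Y ^ K →
    B0 ≤ (q.totient : ℝ) / q * Real.log Y := by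
  obtain ⟨c, C, hc, hC, hV⟩ := Vz_bounds
  have hlog : Tendsto (fun Y : ℕ => Real.log (Y : ℝ)) atTop atTop :=
    Real.tendsto_log_atTop.comp tendsto_natCast_atTop_atTop
  have hsq : Tendsto (fun Y : ℕ => √(Real.log (Y : ℝ))) atTop atTop :=
    Real.tendsto_sqrt_atTop.comp hlog
  filter_upwards [hlog.eventually_ge_atTop 1,
    hsq.eventually_ge_atTop (max 1 (4 * √((K : ℝ) + 9) * |B0| / c)), eventually_ge_atTop 1] with Y h1 h2 h3
  intro q hq hqY
  obtain ⟨w, hw⟩ : ∃ w : ℕ, w = ⌈K * Real.log Y⌉₊ + 8 := ⟨_, rfl⟩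
  have hK0 : (0 : ℝ) ≤ K := Nat.cast_nonneg _
  have hY1 : (1 : ℝ) ≤ Y := by exact_mod_cast h3
  have hw1 : K * Real.log Y ≤ w := by
    rw [hw]
    push_cast
    have := Nat.le_ceil (K * Real.log Y)
    linarith
  have hw2 : (w : ℝ) ≤ (K + 9) * Real.log Y := by
    rw [hw]
    push_cast
    have := (Nat.ceil_lt_add_one (by positivity : 0 ≤ K * Real.log Y)).le
    nlinarith
  have hw8 : 8 ≤ w := by omega
  have hw8r : (8 : ℝ) ≤ w := by exact_mod_cast hw8
  have hw0 : (0 : ℝ) < w := by linarith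
  have hlogw : 2 ≤ Real.log w := by
    have h4 : Real.exp 2 ≤ 8 := by
      have h5 := Real.exp_one_lt_d9
      have h6 : Real.exp 2 = Real.exp 1 * Real.exp 1 := by rw [← Real.exp_add]; norm_num
      rw [h6]
      have h7 := Real.exp_pos 1
      nlinarith
    rw [← Real.log_exp 2]
    exact Real.log_le_log (Real.exp_pos _) (h4.trans hw8r)
  have hlogq : Real.log q ≤ w := by
    refine le_trans ?_ hw1
    rw [← Real.log_pow]
    exact Real.log_le_log (by exact_mod_cast hq) (by exact_mod_cast hqY)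
  rw [phi_eq q w (by omega)]
  have e1 := Vd_ge q w
  have e2 := prod_large q w hq (by omega) (q.primeFactors.filter (fun p => w < p)) (by
    intro p hp
    rw [mem_filter] at hp
    exact ⟨Nat.prime_of_mem_primeFactors hp.1, hp.2, Nat.dvd_of_mem_primeFactors hp.1⟩)
  have e3 : Real.log q / (w * Real.log w) ≤ 1 / 2 := by
    rw [div_le_div_iff₀ (by positivity) (by norm_num)]
    nlinarith
  have e4 := (hV w (by omega)).1
  have e5 : 0 < c / Real.log w := by positivity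
  have e6 : c / (2 * Real.log w) ≤ Vq (Qd Ql q) w *
      ∏ p ∈ q.primeFactors.filter (fun p => w < p), (1 - 1 / (p : ℝ)) := by
    calc c / (2 * Real.log w) = c / Real.log w * (1 / 2) := by
          rw [div_mul_div_comm, mul_one, mul_comm (Real.log w)]
      _ ≤ _ := mul_le_mul (e4.trans e1) (by linarith) (by norm_num) (by linarith)
  have e7 : Real.log w ≤ 2 * √((K : ℝ) + 9) * √(Real.log Y) := by
    have b1 : Real.log w ≤ 2 * √(w : ℝ) := by
      have := Real.log_le_sub_one_of_pos (Real.sqrt_pos.2 hw0)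
      rw [Real.log_sqrt hw0.le] at this
      linarith
    have b2 : √(w : ℝ) ≤ √((K : ℝ) + 9) * √(Real.log Y) := by
      rw [← Real.sqrt_mul (by linarith)]
      exact Real.sqrt_le_sqrt hw2
    linarith
  have hs1 : 0 < √(Real.log Y) := lt_of_lt_of_le (by norm_num) ((le_max_left _ _).trans h2)
  have hs9 : 0 < √((K : ℝ) + 9) := Real.sqrt_pos.2 (by linarith)
  have hsY : √(Real.log Y) * √(Real.log Y) = Real.log Y := Real.mul_self_sqrt (by linarith)
  calc B0 ≤ |B0| := le_abs_self _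
    _ ≤ c / (4 * √((K : ℝ) + 9)) * √(Real.log Y) := by
      have h4 := (le_max_right _ _).trans h2
      rw [div_le_iff₀ hc] at h4
      rw [div_mul_eq_mul_div, le_div_iff₀ (by positivity)]
      linarith
    _ = c / (2 * (2 * √((K : ℝ) + 9) * √(Real.log Y))) * Real.log Y := by
      have key : ∀ s t L : ℝ, 0 < s → 0 < t → s * s = L → c / (4 * t) * s = c / (2 * (2 * t * s)) * L := by
        intro s t L hs ht hL
        rw [← hL]
        field_simp
        norm_num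
      exact key _ _ _ hs1 hs9 hsY
    _ ≤ c / (2 * Real.log w) * Real.log Y := by
      apply mul_le_mul_of_nonneg_right _ (by linarith)
      apply div_le_div_of_nonneg_left hc.le (by positivity)
      linarith
    _ ≤ _ := mul_le_mul_of_nonneg_right e6 (by linarith)

/-- `p` divides `a + q m` -/
def Qa (a q p m : ℕ) : Prop := p ∣ a + q * m

lemma Qa_iff (a q p m : ℕ) (hp : p.Prime) (h : a.Coprime q) : Qa a q p m ↔ Q0 (Qt Ql a) q p m := by
  unfold Qa Q0 Qt Ql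
  rw [add_comm a]
  constructor
  · intro h1
    refine ⟨fun hpq => ?_, h1⟩
    have h2 : p ∣ a := (Nat.dvd_add_right (Dvd.dvd.mul_right hpq m)).1 h1
    have h3 := Nat.dvd_gcd h2 hpq
    rw [h] at h3
    exact hp.one_lt.ne' (Nat.dvd_one.1 h3)
  · exact fun h1 => h1.2

lemma Qa_per (a q p n : ℕ) : Qa a q p n ↔ Qa a q p (n % p) := by
  unfold Qa
  rw [Nat.dvd_iff_mod_eq_zero, Nat.dvd_iff_mod_eq_zero, Nat.add_mod, Nat.mul_mod, Nat.add_mod a,
    Nat.mul_mod q, Nat.mod_mod]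

lemma nuB_Qa (a q p : ℕ) (hp : p.Prime) (h : a.Coprime q) : nuB (Qa a q) p = nuB (Qn Ql q) p := by
  classical
  have h1 : nuB (Qa a q) p = nuB (Q0 (Qt Ql a) q) p := by
    unfold nuB
    exact card_iff _ _ (fun r _ => Qa_iff a q p r hp h)
  have hper : PerB (Qt Ql a) 1 := perB_Qt _ _ perB_Ql a
  rw [h1]
  by_cases h2 : p ∣ q
  · rw [nuB_Q0_dvd _ _ _ h2, nuB_Qn_dvd _ _ _ h2]
  · rw [nuB_Q0_not _ hper.per _ _ hp h2, nuB_Qn_not _ _ _ h2, nuB_Qt _ 1 perB_Ql]

lemma Vq_Qa (a q y : ℕ) (h : a.Coprime q) : Vq (Qa a q) y = Vq (Qn Ql q) y := by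
  unfold Vq
  apply Finset.prod_congr rfl
  intro p hp
  rw [nuB_Qa a q p (mem_pz.1 hp).2 h]

lemma perB_Qa (a q : ℕ) (h : a.Coprime q) : PerB (Qa a q) 1 :=
  ⟨Qa_per a q, fun p hp => by
    rw [nuB_Qa a q p hp h]
    exact (perB_Qn Ql 1 perB_Ql q).few p hp⟩

lemma coll_Qa (a q p t : ℕ) (hp : p.Prime) (h : a.Coprime q) (ht : 1 ≤ t) (htp : t < p) :
    ¬ CoG (Qa a q) p t := by
  rintro ⟨m, h1, h2⟩
  unfold Qa at h1 h2
  have h3 : p ∣ q * t := by
    have h4 : a + q * (m + t) = (a + q * m) + q * t := by ring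
    rw [h4] at h2
    exact (Nat.dvd_add_right h1).1 h2
  rcases hp.dvd_mul.1 h3 with h4 | h4
  · have h5 : p ∣ a := by
      rw [add_comm] at h1
      exact (Nat.dvd_add_right (Dvd.dvd.mul_right h4 m)).1 h1
    have h6 := Nat.dvd_gcd h5 h4
    rw [h] at h6
    exact hp.one_lt.ne' (Nat.dvd_one.1 h6)
  · have := Nat.le_of_dvd (by omega) h4
    omega

open Classical in
/-- **Regular points of sets of sieved integers in residue classes, for every modulus.** -/
theorem class_her : ∃ r : ℕ, 2 ≤ r ∧ ∀ (K : ℕ) (ε : ℝ), 0 < ε → ∃ cc : ℝ, 0 < cc ∧ ∀ δ : ℝ, 0 < δ →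
    ∃ B : ℕ, ∀ᶠ Y : ℕ in atTop, ∀ q : ℕ, 1 ≤ q → q ≤ Y ^ K → ∀ a : ℕ, a.Coprime q → ∀ Z : ℕ, Y ≤ Z →
      ∀ A : Set ℕ, (∀ m ∈ A, ∀ p : ℕ, p.Prime → p ≤ ⌊(Y : ℝ) ^ (1 / (r : ℝ))⌋₊ → ¬ p ∣ a + q * m) →
        (N (Irr A ((q.totient : ℝ) / q * Real.log Y) cc δ B Y) Z (Z + Y) : ℝ) ≤
          ε * Y / ((q.totient : ℝ) / q * Real.log Y) := by
  obtain ⟨c, C, hc, hC, hV⟩ := Vz_bounds
  obtain ⟨K0, hK0, hab⟩ := hered_abs 1 0 1 le_rfl
  refine ⟨K0, hK0, ?_⟩
  intro K ε hε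
  have hr2 : 2 ≤ K0 := hK0
  have hrr : (2 : ℝ) ≤ K0 := by exact_mod_cast hr2
  obtain ⟨cc, hcc, h⟩ := hab K0 le_rfl (C * (2 * K0)) (by positivity) ε hε
  refine ⟨cc, hcc, ?_⟩
  intro δ hδ
  obtain ⟨B, L0, hev⟩ := h δ hδ
  refine ⟨B, ?_⟩
  filter_upwards [hev, phi_low K (max L0 1), Pool.Agent.Y879.GL.level_ok K0 hr2,
    logpow_rpow 8 1 1 (by norm_num) one_pos, eventually_ge_atTop 1] with Y h1 h2 h3 h4 h5
  intro q hq hqY a ha Z hYZ A hA
  obtain ⟨g1, g2, g3, g4, g5⟩ := h3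
  obtain ⟨L, hL⟩ : ∃ L, L = (q.totient : ℝ) / q * Real.log Y := ⟨_, rfl⟩
  have hLL := h2 q hq hqY
  rw [← hL] at hLL ⊢
  have hL0 : L0 ≤ L := (le_max_left _ _).trans hLL
  have hL1 : 1 ≤ L := (le_max_right _ _).trans hLL
  have hlY : 0 < Real.log Y := by linarith
  have hq0 : (0 : ℝ) < q := by exact_mod_cast hq
  have hLlog : L ≤ Real.log Y := by
    rw [hL]
    have h6 : (q.totient : ℝ) / q ≤ 1 := by
      rw [div_le_one hq0]
      exact_mod_cast Nat.totient_le q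
    calc (q.totient : ℝ) / q * Real.log Y ≤ 1 * Real.log Y := mul_le_mul_of_nonneg_right h6 hlY.le
      _ = _ := one_mul _
  have hL8 : L ^ 8 ≤ Y := by
    rw [Real.rpow_one, one_mul] at h4
    exact (pow_le_pow_left₀ (by linarith) hLlog 8).trans h4
  have hadm : ∀ p : ℕ, p.Prime → nuB (Qa a q) p < p := by
    intro p hp
    exact lt_of_le_of_lt ((perB_Qa a q ha).few p hp) hp.one_lt
  refine h1 (Qa a q) L ∅ Z (perB_Qa a q ha) hadm hL0 hL8 hYZ ?_ (by simp) ?_ A ?_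
  · rw [Vq_Qa a q _ ha]
    obtain ⟨y, hy⟩ : ∃ y, y = ⌊(Y : ℝ) ^ (1 / (K0 : ℝ))⌋₊ := ⟨_, rfl⟩
    rw [← hy] at g1 g2 g3 g4 ⊢
    have e1 : (q.totient : ℝ) / q ≤ Vq (Qd Ql q) y := by
      rw [phi_eq q y (by omega)]
      have hVd : 0 ≤ Vq (Qd Ql q) y := Vq_nonneg _ _
      have hle : ∏ p ∈ q.primeFactors.filter (fun p => y < p), (1 - 1 / (p : ℝ)) ≤ 1 := by
        apply Finset.prod_le_one
        · intro p hp
          have : (1 : ℝ) ≤ p := by
            exact_mod_cast (Nat.prime_of_mem_primeFactors (mem_filter.1 hp).1).one_lt.le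
          rw [sub_nonneg, div_le_one (by linarith)]
          exact this
        · intro p _
          have : 0 ≤ 1 / (p : ℝ) := by positivity
          linarith
      calc _ ≤ Vq (Qd Ql q) y * 1 := mul_le_mul_of_nonneg_left hle hVd
        _ = _ := mul_one _
    have e2 := Vd_mul_Vn Ql q y
    rw [Vq_Ql] at e2
    have e3 := (hV y (by omega)).2
    have hVn : 0 ≤ Vq (Qn Ql q) y := Vq_nonneg _ _
    have hly : 0 < Real.log y := by linarith
    have e4 : (q.totient : ℝ) / q * Vq (Qn Ql q) y ≤ C / Real.log y :=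
      calc (q.totient : ℝ) / q * Vq (Qn Ql q) y ≤ Vq (Qd Ql q) y * Vq (Qn Ql q) y :=
            mul_le_mul_of_nonneg_right e1 hVn
        _ = Vz y := e2
        _ ≤ _ := e3
    rw [le_div_iff₀ (by linarith), hL]
    have e5 : C / Real.log y * Real.log Y ≤ C * (2 * K0) := by
      rw [div_mul_eq_mul_div, div_le_iff₀ hly]
      rw [div_le_iff₀ (by positivity)] at g2
      nlinarith
    calc Vq (Qn Ql q) y * ((q.totient : ℝ) / q * Real.log Y) =
        ((q.totient : ℝ) / q * Vq (Qn Ql q) y) * Real.log Y := by ring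
      _ ≤ C / Real.log y * Real.log Y := mul_le_mul_of_nonneg_right e4 hlY.le
      _ ≤ _ := e5
  · intro t ht _
    rw [mem_Icc] at ht
    rw [Finset.filter_eq_empty_iff.2, card_empty]
    · exact Nat.zero_le _
    · rintro p hp ⟨h6, h7⟩
      exact coll_Qa a q p t (mem_pz.1 hp).2 ha ht.1 (by omega) h7
  · intro m hm p hp hd
    obtain ⟨hp1, hp2⟩ := mem_pz.1 hp
    exact hA m hm p hp2 hp1 hd

end Pool.Agent.Y879.AP
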