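import Pool.Agent.Y879.AP.Basic

set_option autoImplicit false

/-!
# The Poisson law over the residue classes modulo `q`
-/

namespace Pool.Agent.Y879.AP

open Finset Filter
open Pool.Agent.W123.RP Pool.Agent.H373R2.T7 Pool.Agent.W123.RU Pool.Agent.TH464.PO

/-- the weights of the Poisson distribution -/
lemma pois_le_one (x : ℝ) (hx : 0 ≤ x) (A : Finset ℕ) :
    ∑ j ∈ A, Real.exp (-x) * x ^ j / j.factorial ≤ 1 := by
  obtain ⟨n, hn⟩ : ∃ n, A ⊆ range n := ⟨A.sup id + 1, fun a ha => by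
    rw [mem_range]
    have : id a ≤ A.sup id := Finset.le_sup ha
    simp only [id] at this
    omega⟩
  have h1 : ∑ j ∈ A, Real.exp (-x) * x ^ j / j.factorial ≤
      ∑ j ∈ range n, Real.exp (-x) * x ^ j / j.factorial := by
    apply Finset.sum_le_sum_of_subset_of_nonneg hn
    intro j _ _
    have := Real.exp_pos (-x)
    positivity
  refine h1.trans ?_
  have h2 := Real.sum_le_exp_of_nonneg hx n
  have h3 : ∑ j ∈ range n, Real.exp (-x) * x ^ j / j.factorial =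
      Real.exp (-x) * ∑ j ∈ range n, x ^ j / j.factorial := by
    rw [Finset.mul_sum]
    exact Finset.sum_congr rfl fun j _ => by ring
  rw [h3]
  calc Real.exp (-x) * ∑ j ∈ range n, x ^ j / j.factorial ≤ Real.exp (-x) * Real.exp x :=
        mul_le_mul_of_nonneg_left h2 (Real.exp_pos _).le
    _ = 1 := by rw [← Real.exp_add]; simp

lemma pois_nonneg (x : ℝ) (hx : 0 ≤ x) (A : Finset ℕ) :
    0 ≤ ∑ j ∈ A, Real.exp (-x) * x ^ j / (j.factorial : ℝ) := by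
  apply Finset.sum_nonneg
  intro j _
  have := Real.exp_pos (-x)
  positivity

/-- powers of the logarithm against powers -/
lemma log_small (c : ℕ) (A : ℝ) (hA : 0 < A) : ∃ y0 : ℕ, 2 ≤ y0 ∧ ∀ Y y : ℕ, y0 ≤ y → y ≤ Y →
    A * Real.log y ^ c ≤ (Y : ℝ) ^ (1 / 8 : ℝ) := by
  have h := ((isLittleO_log_rpow_rpow_atTop (c : ℝ) (show (0 : ℝ) < 1 / 8 by norm_num)).comp_tendsto
    tendsto_natCast_atTop_atTop)
  have h1 := h.def (show (0 : ℝ) < 1 / A by positivity)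
  obtain ⟨N, hN⟩ := eventually_atTop.1 (h1.and (eventually_ge_atTop 2))
  refine ⟨max N 2, le_max_right _ _, ?_⟩
  intro Y y hy hyY
  have hy2 : 2 ≤ y := (le_max_right _ _).trans hy
  obtain ⟨h2, h3⟩ := hN Y (((le_max_left _ _).trans hy).trans hyY)
  simp only [Function.comp, Real.norm_eq_abs] at h2
  have hlY : 0 ≤ Real.log (Y : ℝ) := Real.log_nonneg (by exact_mod_cast (by omega : 1 ≤ Y))
  have hly : 0 ≤ Real.log (y : ℝ) := Real.log_nonneg (by exact_mod_cast (by omega : 1 ≤ y))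
  have hll : Real.log (y : ℝ) ≤ Real.log (Y : ℝ) :=
    Real.log_le_log (by exact_mod_cast (by omega : 0 < y)) (by exact_mod_cast hyY)
  rw [abs_of_nonneg (by positivity), abs_of_nonneg (by positivity), Real.rpow_natCast] at h2
  have h4 : Real.log (y : ℝ) ^ c ≤ Real.log (Y : ℝ) ^ c := pow_le_pow_left₀ hly hll c
  calc A * Real.log y ^ c ≤ A * (1 / A * (Y : ℝ) ^ (1 / 8 : ℝ)) := by
        apply mul_le_mul_of_nonneg_left (h4.trans h2) hA.le
    _ = (Y : ℝ) ^ (1 / 8 : ℝ) := by field_simp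

open Classical in
/-- **The Poisson law over residue classes**, first form. -/
theorem law (c : ℕ) (hc : 1 ≤ c) (x0 ε : ℝ) (hx0 : 0 ≤ x0) (hε : 0 < ε) :
    ∃ (K0 y0 T0 R0 : ℕ) (η' : ℝ), 0 < η' ∧ ∀ Y y T : ℕ, y0 ≤ y → y ^ K0 ≤ Y → T0 ≤ T → T ^ R0 ≤ Y →
      ∀ (Q : ℕ → ℕ → Prop) (q : ℕ), PerB Q c → (∀ p : ℕ, p.Prime → nuB Q p < p) →
      T * Vq (Qn Q q) y ≤ x0 →
      (∀ t ∈ Icc 1 T, ((((pz y).filter
        (fun p : ℕ => T < p ∧ ¬ p ∣ q ∧ CoG Q p (q * t))).card : ℕ) : ℝ) ≤ η' * T) →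
      |(((Icc 1 Y).filter (fun n => Sf (Qd Q q) y n)).card : ℝ) - Y * Vq (Qd Q q) y| ≤
        ε * (Y * Vq (Qd Q q) y) ∧
      ∀ A : Finset ℕ, |(((Icc 1 Y).filter (fun n => Sf (Qd Q q) y n ∧ W Q q y T n ∈ A)).card : ℝ) -
        Y * Vq (Qd Q q) y * ∑ j ∈ A, Real.exp (-(T * Vq (Qn Q q) y)) *
          (T * Vq (Qn Q q) y) ^ j / j.factorial| ≤ ε * (Y * Vq (Qd Q q) y) := by
  obtain ⟨ε1, hε1⟩ : ∃ ε1 : ℝ, ε1 = min ε 1 / 4 := ⟨_, rfl⟩
  have hε10 : 0 < ε1 := by rw [hε1]; positivity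
  have hε11 : 4 * ε1 ≤ 1 := by rw [hε1]; have := min_le_right ε 1; linarith
  have hε12 : 4 * ε1 ≤ ε := by rw [hε1]; have := min_le_left ε 1; linarith
  obtain ⟨R, η, hη, htv⟩ := law_tv x0 ε1 hx0 hε10
  obtain ⟨X1, hX1⟩ : ∃ X1 : ℝ, X1 = (1 + x0) ^ (R + 1) := ⟨_, rfl⟩
  have hX1pos : 1 ≤ X1 := by rw [hX1]; exact one_le_pow₀ (by linarith)
  obtain ⟨η1, hη1⟩ : ∃ η1 : ℝ, η1 = min (min 1 (η / (8 * X1))) ε1 := ⟨_, rfl⟩
  have hη10 : 0 < η1 := by rw [hη1]; positivity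
  have hη11 : η1 ≤ 1 := by rw [hη1]; exact (min_le_left _ _).trans (min_le_left _ _)
  have hη13 : η1 ≤ ε1 := by rw [hη1]; exact min_le_right _ _
  have hη12 : η1 * X1 ≤ η / 8 := by
    have : η1 ≤ η / (8 * X1) := by rw [hη1]; exact (min_le_left _ _).trans (min_le_right _ _)
    rw [le_div_iff₀ (by positivity)] at this
    linarith
  choose K0 y0 T0 η' hη' hmom using fun k => moment c k hc η1 hη10 hη11
  obtain ⟨Kf, xf, hKf, hfund⟩ := sys_fund c hc (η1 / 2) (by positivity)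
  obtain ⟨v, hv, hVlow⟩ := V_lower_unif c
  obtain ⟨yl, hyl2, hyl⟩ := log_small c (8 * (1 + 1 / η + 1 / η1) / v) (by positivity)
  obtain ⟨η0, hη00, hη0⟩ := exists_lower η' hη' R
  refine ⟨(∑ k ∈ range R, K0 k) + Kf + 1, (∑ k ∈ range R, y0 k) + xf + yl + 1,
    (∑ k ∈ range R, T0 k) + 1, 8 * (R + 1), η0, hη00, ?_⟩
  intro Y y T hy hyY hT hTR Q q hQ hadm hx hlarge
  obtain ⟨x, hxdef⟩ : ∃ x, x = T * Vq (Qn Q q) y := ⟨_, rfl⟩
  obtain ⟨Y1, hY1⟩ : ∃ Y1 : ℝ, Y1 = Y * Vq (Qd Q q) y := ⟨_, rfl⟩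
  rw [← hxdef] at hx
  rw [← hxdef, ← hY1]
  have hx00 : 0 ≤ x := by
    rw [hxdef]
    exact mul_nonneg (Nat.cast_nonneg _) (Vq_nonneg _ y)
  have hy1' : 1 ≤ y := by omega
  have hT1 : 1 ≤ T := by omega
  have hyY' : y ≤ Y := by
    calc y = y ^ 1 := (pow_one y).symm
      _ ≤ y ^ ((∑ k ∈ range R, K0 k) + Kf + 1) := Nat.pow_le_pow_right hy1' (by omega)
      _ ≤ Y := hyY
  have hYpos : (0 : ℝ) < Y := by exact_mod_cast (by omega : 0 < Y)
  have hlogy : 0 < Real.log y := Real.log_pos (by exact_mod_cast (by omega : 1 < y))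
  -- the lower bound for `Y1`
  have hlow := hVlow (Qd Q q) (perB_Qd Q c hQ q) (adm_Qd Q hadm q) y (by omega)
  have hl8 := hyl Y y (by omega) hyY'
  have hV1 : 8 * (1 + 1 / η + 1 / η1) * (Y : ℝ) ^ (-(1 / 8) : ℝ) ≤ Vq (Qd Q q) y := by
    refine le_trans ?_ hlow
    rw [le_div_iff₀ (by positivity)]
    have h1 : 8 * (1 + 1 / η + 1 / η1) * Real.log y ^ c ≤ v * (Y : ℝ) ^ (1 / 8 : ℝ) := by
      rw [div_mul_eq_mul_div, div_le_iff₀ hv] at hl8
      linarith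
    calc 8 * (1 + 1 / η + 1 / η1) * (Y : ℝ) ^ (-(1 / 8) : ℝ) * Real.log y ^ c =
          (8 * (1 + 1 / η + 1 / η1) * Real.log y ^ c) * (Y : ℝ) ^ (-(1 / 8) : ℝ) := by ring
      _ ≤ (v * (Y : ℝ) ^ (1 / 8 : ℝ)) * (Y : ℝ) ^ (-(1 / 8) : ℝ) :=
          mul_le_mul_of_nonneg_right h1 (by positivity)
      _ = v := by rw [mul_assoc, ← Real.rpow_add hYpos]; norm_num
  have hY1low : 8 * (1 + 1 / η + 1 / η1) * (Y : ℝ) ^ (7 / 8 : ℝ) ≤ Y1 := by
    rw [hY1]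
    calc 8 * (1 + 1 / η + 1 / η1) * (Y : ℝ) ^ (7 / 8 : ℝ) =
          Y * (8 * (1 + 1 / η + 1 / η1) * (Y : ℝ) ^ (-(1 / 8) : ℝ)) := by
          rw [show (7 / 8 : ℝ) = 1 + -(1 / 8) by norm_num, Real.rpow_add hYpos, Real.rpow_one]
          ring
      _ ≤ _ := mul_le_mul_of_nonneg_left hV1 hYpos.le
  have hY78 : 0 < (Y : ℝ) ^ (7 / 8 : ℝ) := by positivity
  have hY1pos : 0 < Y1 := lt_of_lt_of_le (by positivity) hY1low
  have hY1a : (Y : ℝ) ^ (7 / 8 : ℝ) ≤ η / 8 * Y1 := by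
    have h1 : 8 * (1 / η) * (Y : ℝ) ^ (7 / 8 : ℝ) ≤ Y1 := by
      refine le_trans ?_ hY1low
      apply mul_le_mul_of_nonneg_right _ hY78.le
      have : 0 < 1 / η1 := by positivity
      linarith
    calc (Y : ℝ) ^ (7 / 8 : ℝ) = η / 8 * (8 * (1 / η) * (Y : ℝ) ^ (7 / 8 : ℝ)) := by field_simp
      _ ≤ _ := mul_le_mul_of_nonneg_left h1 (by positivity)
  have hY1b : (Y : ℝ) ^ (7 / 8 : ℝ) ≤ η1 / 8 * Y1 := by
    have h1 : 8 * (1 / η1) * (Y : ℝ) ^ (7 / 8 : ℝ) ≤ Y1 := by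
      refine le_trans ?_ hY1low
      apply mul_le_mul_of_nonneg_right _ hY78.le
      have : 0 < 1 / η := by positivity
      linarith
    calc (Y : ℝ) ^ (7 / 8 : ℝ) = η1 / 8 * (8 * (1 / η1) * (Y : ℝ) ^ (7 / 8 : ℝ)) := by field_simp
      _ ≤ _ := mul_le_mul_of_nonneg_left h1 (by positivity)
  have hY1' : (1 : ℝ) ≤ Y := by exact_mod_cast (by omega : 1 ≤ Y)
  have hsq : √(Y : ℝ) ≤ (Y : ℝ) ^ (7 / 8 : ℝ) := by
    rw [Real.sqrt_eq_rpow]
    exact Real.rpow_le_rpow_of_exponent_le hY1' (by norm_num)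
  have hT8 : (T : ℝ) ^ (R + 1) ≤ (Y : ℝ) ^ (1 / 8 : ℝ) := by
    have h1 : ((T : ℝ) ^ (R + 1)) ^ (8 : ℝ) ≤ Y := by
      rw [show (8 : ℝ) = ((8 : ℕ) : ℝ) by norm_num, Real.rpow_natCast, ← pow_mul,
        show (R + 1) * 8 = 8 * (R + 1) by ring]
      exact_mod_cast hTR
    have h2 := Real.rpow_le_rpow (by positivity) h1 (show (0 : ℝ) ≤ 1 / 8 by norm_num)
    rwa [← Real.rpow_mul (by positivity), show (8 : ℝ) * (1 / 8) = 1 by norm_num,
      Real.rpow_one] at h2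
  have hTY : (T : ℝ) ^ (R + 1) * √(Y : ℝ) ≤ η / 8 * Y1 := by
    refine le_trans ?_ hY1a
    calc (T : ℝ) ^ (R + 1) * √(Y : ℝ) ≤ (Y : ℝ) ^ (1 / 8 : ℝ) * (Y : ℝ) ^ (1 / 2 : ℝ) := by
          rw [← Real.sqrt_eq_rpow]
          exact mul_le_mul_of_nonneg_right hT8 (Real.sqrt_nonneg _)
      _ = (Y : ℝ) ^ (5 / 8 : ℝ) := by
          rw [← Real.rpow_add hYpos]
          norm_num
      _ ≤ (Y : ℝ) ^ (7 / 8 : ℝ) := Real.rpow_le_rpow_of_exponent_le hY1' (by norm_num)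
  obtain ⟨Om, hOm⟩ : ∃ Om, Om = (Icc 1 Y).filter (fun n => Sf (Qd Q q) y n) := ⟨_, rfl⟩
  have hcard : |(Om.card : ℝ) - Y1| ≤ η1 * Y1 := by
    have h1 := hfund Y y (by omega) ((Nat.pow_le_pow_right hy1' (by omega)).trans hyY) (Qd Q q)
      (perB_Qd Q c hQ q) Y
    have e1 : ∏ p ∈ pz y, (1 - (nuB (Qd Q q) p : ℝ) / p) = Vq (Qd Q q) y := rfl
    rw [e1, ← hY1] at h1
    have e2 : Om.card = ((Icc 1 Y).filter (fun n => ∀ p ∈ pz y, ¬ Qd Q q p n)).card := by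
      rw [hOm]
      exact card_iff _ _ (fun _ _ => Iff.rfl)
    rw [e2]
    refine h1.trans ?_
    have := hsq.trans hY1b
    nlinarith
  have hcard2 : Y1 ≤ 2 * Om.card := by
    have h1 := (abs_le.1 hcard).1
    have : η1 * Y1 ≤ 1 / 4 * Y1 := mul_le_mul_of_nonneg_right (by linarith) hY1pos.le
    linarith
  have hcard3 : (Om.card : ℝ) ≤ 2 * Y1 := by
    have h1 := (abs_le.1 hcard).2
    have : η1 * Y1 ≤ 1 / 4 * Y1 := mul_le_mul_of_nonneg_right (by linarith) hY1pos.le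
    linarith
  have hmain := htv Om (W Q q y T) x hx00 hx (by
    intro k hk
    rcases k with _ | k
    · simp
      positivity
    · have hkR : k ∈ range R := mem_range.2 (by omega)
      have hKk : K0 k ≤ ∑ k ∈ range R, K0 k := Finset.single_le_sum (fun _ _ => Nat.zero_le _) hkR
      have hyk : y0 k ≤ ∑ k ∈ range R, y0 k := Finset.single_le_sum (fun _ _ => Nat.zero_le _) hkR
      have hTk : T0 k ≤ ∑ k ∈ range R, T0 k := Finset.single_le_sum (fun _ _ => Nat.zero_le _) hkR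
      have h1 := hmom k Y y T (by omega)
        ((Nat.pow_le_pow_right hy1' (by omega)).trans hyY) (by omega) Q q hQ hadm (fun t ht =>
          (hlarge t ht).trans (mul_le_mul_of_nonneg_right (hη0 k (by omega)) (Nat.cast_nonneg _)))
      rw [← hxdef, ← hY1, ← hOm] at h1
      have h2 : x ^ (k + 1) / ((k + 1).factorial : ℝ) ≤ X1 := by
        have hf1 : (1 : ℝ) ≤ (k + 1).factorial := by exact_mod_cast Nat.factorial_pos (k + 1)
        calc x ^ (k + 1) / ((k + 1).factorial : ℝ) ≤ x ^ (k + 1) := div_le_self (by positivity) hf1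
          _ ≤ (1 + x0) ^ (k + 1) := pow_le_pow_left₀ hx00 (by linarith) _
          _ ≤ (1 + x0) ^ (R + 1) := pow_le_pow_right₀ (by linarith) (by omega)
          _ = X1 := hX1.symm
      have h20 : 0 ≤ x ^ (k + 1) / ((k + 1).factorial : ℝ) := by positivity
      have h3 : (T : ℝ) ^ (k + 1) * √(Y : ℝ) ≤ η / 8 * Y1 := by
        refine le_trans ?_ hTY
        apply mul_le_mul_of_nonneg_right _ (Real.sqrt_nonneg _)
        apply pow_le_pow_right₀ (by exact_mod_cast hT1) (by omega)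
      have h4 : η1 * Y1 * (x ^ (k + 1) / ((k + 1).factorial : ℝ)) ≤ η / 8 * Y1 := by
        calc η1 * Y1 * (x ^ (k + 1) / ((k + 1).factorial : ℝ)) ≤ η1 * Y1 * X1 :=
              mul_le_mul_of_nonneg_left h2 (by positivity)
          _ = η1 * X1 * Y1 := by ring
          _ ≤ η / 8 * Y1 := mul_le_mul_of_nonneg_right hη12 hY1pos.le
      have h5 : |Y1 * (x ^ (k + 1) / ((k + 1).factorial : ℝ)) -
          Om.card * (x ^ (k + 1) / ((k + 1).factorial : ℝ))| ≤ η / 8 * Y1 := by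
        rw [← sub_mul, abs_mul, abs_of_nonneg h20, abs_sub_comm]
        calc |(Om.card : ℝ) - Y1| * (x ^ (k + 1) / ((k + 1).factorial : ℝ)) ≤ (η1 * Y1) * X1 := by
              apply mul_le_mul hcard h2 h20 (by positivity)
          _ = η1 * X1 * Y1 := by ring
          _ ≤ η / 8 * Y1 := mul_le_mul_of_nonneg_right hη12 hY1pos.le
      have h6 := abs_sub_le (∑ n ∈ Om, ((W Q q y T n).choose (k + 1) : ℝ))
        (Y1 * (x ^ (k + 1) / ((k + 1).factorial : ℝ))) (Om.card * (x ^ (k + 1) / ((k + 1).factorial : ℝ)))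
      have h7 : η / 8 * Y1 ≤ η / 4 * Om.card := by
        have := mul_le_mul_of_nonneg_left hcard2 (show 0 ≤ η / 8 by positivity)
        linarith
      refine h6.trans ?_
      refine (add_le_add h1 h5).trans ?_
      have : 0 ≤ η * Om.card := by positivity
      linarith)
  constructor
  · rw [← hOm]
    refine hcard.trans ?_
    exact mul_le_mul_of_nonneg_right (by linarith) hY1pos.le
  · intro A
    have h1 := hmain A
    have hP0 := pois_nonneg x hx00 A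
    have hP1 := pois_le_one x hx00 A
    obtain ⟨P, hP⟩ : ∃ P : ℝ, P = ∑ j ∈ A, Real.exp (-x) * x ^ j / j.factorial := ⟨_, rfl⟩
    rw [← hP] at h1 hP0 hP1 ⊢
    have e3 : (Icc 1 Y).filter (fun n => Sf (Qd Q q) y n ∧ W Q q y T n ∈ A) =
        Om.filter (fun n => W Q q y T n ∈ A) := by
      rw [hOm, Finset.filter_filter]
    rw [e3]
    have h2 : |Om.card * P - Y1 * P| ≤ η1 * Y1 := by
      rw [← sub_mul, abs_mul, abs_of_nonneg hP0]
      calc |(Om.card : ℝ) - Y1| * P ≤ (η1 * Y1) * 1 := mul_le_mul hcard hP1 hP0 (by positivity)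
        _ = η1 * Y1 := mul_one _
    have h3 := abs_sub_le (((Om.filter (fun n => W Q q y T n ∈ A)).card : ℝ)) (Om.card * P) (Y1 * P)
    have h4 : ε1 * Om.card ≤ ε1 * (2 * Y1) := mul_le_mul_of_nonneg_left hcard3 hε10.le
    have h5 : η1 * Y1 ≤ ε1 * Y1 := mul_le_mul_of_nonneg_right hη13 hY1pos.le
    have h6 : 4 * ε1 * Y1 ≤ ε * Y1 := mul_le_mul_of_nonneg_right hε12 hY1pos.le
    have h7 : 0 ≤ ε1 * Y1 := by positivity
    linarith

lemma count_shift (Z Y : ℕ) (P P' : ℕ → Prop) (i1 : DecidablePred P) (i2 : DecidablePred P')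
    (h : ∀ n, P' n ↔ P (n + Z)) : (@Finset.filter _ P i1 (Ioc Z (Z + Y))).card =
      (@Finset.filter _ P' i2 (Icc 1 Y)).card := by
  symm
  apply Finset.card_bij (fun n _ => n + Z)
  · intro n hn
    rw [mem_filter, mem_Icc] at hn
    rw [mem_filter, mem_Ioc]
    exact ⟨by omega, (h n).1 hn.2⟩
  · intro a _ b _ hab
    omega
  · intro n hn
    rw [mem_filter, mem_Ioc] at hn
    refine ⟨n - Z, ?_, by omega⟩
    rw [mem_filter, mem_Icc, h, show n - Z + Z = n by omega]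
    exact ⟨by omega, hn.2⟩

lemma Qd_shift (Q : ℕ → ℕ → Prop) (q Z y m : ℕ) :
    Sf (Qd (Qt Q Z) q) y m ↔ Sf (Qd Q q) y (m + Z) := Iff.rfl

open Classical in
lemma W_shift (Q : ℕ → ℕ → Prop) (q y T Z b : ℕ) : W (Qt Q Z) q y T b = W Q q y T (b + Z) := by
  unfold W
  apply card_iff
  intro h _
  have e : b + q * h + Z = b + Z + q * h := by ring
  unfold Sf Qn Qt
  rw [e]

lemma Vq_Qd_shift (Q : ℕ → ℕ → Prop) (c : ℕ) (hQ : PerB Q c) (q Z y : ℕ) :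
    Vq (Qd (Qt Q Z) q) y = Vq (Qd Q q) y := by
  have : Qd (Qt Q Z) q = Qt (Qd Q q) Z := rfl
  rw [this, Vq_Qt (Qd Q q) c (perB_Qd Q c hQ q)]

lemma Vq_Qn_shift (Q : ℕ → ℕ → Prop) (c : ℕ) (hQ : PerB Q c) (q Z y : ℕ) :
    Vq (Qn (Qt Q Z) q) y = Vq (Qn Q q) y := by
  have : Qn (Qt Q Z) q = Qt (Qn Q q) Z := rfl
  rw [this, Vq_Qt (Qn Q q) c (perB_Qn Q c hQ q)]

lemma W_mono (Q : ℕ → ℕ → Prop) (q y T T' b : ℕ) (h : T ≤ T') : W Q q y T b ≤ W Q q y T' b := by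
  classical
  unfold W
  apply card_le_card
  intro m hm
  rw [mem_filter, mem_Icc] at hm ⊢
  exact ⟨⟨hm.1.1, by omega⟩, hm.2⟩

open Classical in
/-- **The Poisson law over the residue classes modulo `q`**, in all intervals of classes. -/
theorem ap_law (c : ℕ) (hc : 1 ≤ c) (x0 ε : ℝ) (hε : 0 < ε) :
    ∃ (K0 y0 T0 R0 : ℕ) (η' κ : ℝ), 0 < η' ∧ 0 < κ ∧ κ ≤ 1 / 2 ∧
      ∀ (Q : ℕ → ℕ → Prop) (q Z Y y : ℕ), PerB Q c → (∀ p : ℕ, p.Prime → nuB Q p < p) → y0 ≤ y →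
      y ^ K0 ≤ Y → Vq (Qn Q q) y ≤ κ →
      (∀ T : ℕ, κ ≤ T * Vq (Qn Q q) y → T * Vq (Qn Q q) y ≤ max x0 1 → T0 ≤ T ∧ T ^ R0 ≤ Y ∧
        ∀ t ∈ Icc 1 T, ((((pz y).filter
          (fun p : ℕ => T < p ∧ ¬ p ∣ q ∧ CoG Q p (q * t))).card : ℕ) : ℝ) ≤ η' * T) →
      |(((Ioc Z (Z + Y)).filter (fun n => Sf (Qd Q q) y n)).card : ℝ) - Y * Vq (Qd Q q) y| ≤
        ε * (Y * Vq (Qd Q q) y) ∧
      ∀ T : ℕ, T * Vq (Qn Q q) y ≤ x0 → ∀ A : Finset ℕ,
        |(((Ioc Z (Z + Y)).filter (fun n => Sf (Qd Q q) y n ∧ W Q q y T n ∈ A)).card : ℝ) -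
          Y * Vq (Qd Q q) y * ∑ j ∈ A, Real.exp (-(T * Vq (Qn Q q) y)) *
            (T * Vq (Qn Q q) y) ^ j / j.factorial| ≤ ε * (Y * Vq (Qd Q q) y) := by
  obtain ⟨ε1, hε1⟩ : ∃ ε1 : ℝ, ε1 = min ε 1 := ⟨_, rfl⟩
  have hε10 : 0 < ε1 := by rw [hε1]; positivity
  have hε11 : ε1 ≤ 1 := by rw [hε1]; exact min_le_right _ _
  have hε12 : ε1 ≤ ε := by rw [hε1]; exact min_le_left _ _
  obtain ⟨κ, hκ⟩ : ∃ κ, κ = ε1 / 16 := ⟨_, rfl⟩
  have hκ0 : 0 < κ := by rw [hκ]; positivity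
  have hκ2 : κ ≤ 1 / 2 := by rw [hκ]; linarith
  obtain ⟨K0, y0, T0, R0, η', hη', hlaw⟩ := law c hc (max x0 1) (ε1 / 16) (by positivity) (by positivity)
  refine ⟨K0, y0, T0, R0, η', κ, hη', hκ0, hκ2, ?_⟩
  intro Q q Z Y y hQ hadm hy hyY hVκ hT
  have hV0 : 0 < Vq (Qn Q q) y := Vq_pos (Qn Q q) (adm_Qn Q hadm q) y
  obtain ⟨Y1, hY1⟩ : ∃ Y1 : ℝ, Y1 = Y * Vq (Qd Q q) y := ⟨_, rfl⟩
  have hY10 : (0 : ℝ) ≤ Y1 := by
    rw [hY1]
    exact mul_nonneg (Nat.cast_nonneg Y) (Vq_nonneg _ _)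
  rw [← hY1]
  have hmain : ∀ T : ℕ, κ ≤ T * Vq (Qn Q q) y → T * Vq (Qn Q q) y ≤ max x0 1 →
      |(((Ioc Z (Z + Y)).filter (fun n => Sf (Qd Q q) y n)).card : ℝ) - Y1| ≤ ε1 / 16 * Y1 ∧
      ∀ A : Finset ℕ,
      |(((Ioc Z (Z + Y)).filter (fun n => Sf (Qd Q q) y n ∧ W Q q y T n ∈ A)).card : ℝ) -
        Y1 * ∑ j ∈ A, Real.exp (-(T * Vq (Qn Q q) y)) * (T * Vq (Qn Q q) y) ^ j / j.factorial| ≤
        ε1 / 16 * Y1 := by
    intro T h1 h2
    obtain ⟨hT0, hTR, hlarge⟩ := hT T h1 h2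
    have h3 := hlaw Y y T hy hyY hT0 hTR (Qt Q Z) q (perB_Qt Q c hQ Z) (fun p hp => by
      rw [nuB_Qt Q c hQ]
      exact hadm p hp) (by rw [Vq_Qn_shift Q c hQ]; exact h2) (fun t ht => by
        refine le_trans ?_ (hlarge t ht)
        have : ((pz y).filter (fun p : ℕ => T < p ∧ ¬ p ∣ q ∧ CoG (Qt Q Z) p (q * t))).card ≤
            ((pz y).filter (fun p : ℕ => T < p ∧ ¬ p ∣ q ∧ CoG Q p (q * t))).card := by
          apply card_le_card
          intro p hp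
          rw [mem_filter] at hp ⊢
          obtain ⟨h1, h2, h5, m, h3, h4⟩ := hp
          refine ⟨h1, h2, h5, m + Z, h3, ?_⟩
          unfold Qt at h4
          rwa [show m + q * t + Z = m + Z + q * t by ring] at h4
        exact_mod_cast this)
    rw [Vq_Qn_shift Q c hQ, Vq_Qd_shift Q c hQ, ← hY1] at h3
    refine ⟨?_, fun A => ?_⟩
    · rw [count_shift Z Y (fun n => Sf (Qd Q q) y n) (fun n => Sf (Qd (Qt Q Z) q) y n) _
        (fun n => Classical.propDecidable _) (fun n => Iff.rfl)]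
      exact h3.1
    · have h4 := h3.2 A
      rw [count_shift Z Y (fun n => Sf (Qd Q q) y n ∧ W Q q y T n ∈ A)
        (fun n => Sf (Qd (Qt Q Z) q) y n ∧ W (Qt Q Z) q y T n ∈ A) _
        (fun n => instDecidableAnd) (fun n => by rw [W_shift]; exact Iff.rfl)]
      exact h4
  obtain ⟨T', h1, h2, h3⟩ := exists_window (Vq (Qn Q q) y) κ hV0 hVκ
  have hT'x : T' * Vq (Qn Q q) y ≤ max x0 1 :=
    h2.trans ((by linarith : 2 * κ ≤ 1).trans (le_max_right _ _))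
  obtain ⟨hOm, h4⟩ := hmain T' h1 hT'x
  refine ⟨hOm.trans ?_, ?_⟩
  · exact mul_le_mul_of_nonneg_right (by linarith) hY10
  intro T hTx A
  by_cases hκT : κ ≤ T * Vq (Qn Q q) y
  · refine ((hmain T hκT (hTx.trans (le_max_left _ _))).2 A).trans ?_
    exact mul_le_mul_of_nonneg_right (by linarith) hY10
  · rw [not_le] at hκT
    obtain ⟨Om, hOmdef⟩ : ∃ Om, Om = (Ioc Z (Z + Y)).filter (fun n => Sf (Qd Q q) y n) := ⟨_, rfl⟩
    rw [← hOmdef] at hOm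
    have hfl : ∀ (T : ℕ) (A : Finset ℕ), (Ioc Z (Z + Y)).filter (fun n => Sf (Qd Q q) y n ∧ W Q q y T n ∈ A) =
        Om.filter (fun n => W Q q y T n ∈ A) := by
      intro T A
      rw [hOmdef, Finset.filter_filter]
    have hx'0 : 0 ≤ T' * Vq (Qn Q q) y := by positivity
    have hx0' : 0 ≤ T * Vq (Qn Q q) y := by positivity
    have hc1 := abs_le.1 hOm
    have hc2 : Y1 ≤ 2 * Om.card := by nlinarith [hc1.1]
    have hc3 : (Om.card : ℝ) ≤ 2 * Y1 := by nlinarith [hc1.2]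
    have h4' := h4 {0}
    rw [hfl] at h4'
    have h6 : |((Om.filter (fun n => W Q q y T' n ∈ ({0} : Finset ℕ))).card : ℝ) -
        Om.card * ∑ j ∈ ({0} : Finset ℕ), Real.exp (-(T' * Vq (Qn Q q) y)) *
          (T' * Vq (Qn Q q) y) ^ j / j.factorial| ≤ ε1 / 4 * Om.card := by
      have hP0 := pois_nonneg _ hx'0 {0}
      have hP1 := pois_le_one _ hx'0 {0}
      obtain ⟨P, hP⟩ : ∃ P : ℝ, P = ∑ j ∈ ({0} : Finset ℕ), Real.exp (-(T' * Vq (Qn Q q) y)) *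
          (T' * Vq (Qn Q q) y) ^ j / j.factorial := ⟨_, rfl⟩
      rw [← hP] at h4' hP0 hP1 ⊢
      have h7 : |Y1 * P - Om.card * P| ≤ ε1 / 16 * Y1 := by
        rw [← sub_mul, abs_mul, abs_of_nonneg hP0, abs_sub_comm]
        calc |(Om.card : ℝ) - Y1| * P ≤ (ε1 / 16 * Y1) * 1 := mul_le_mul hOm hP1 hP0 (by positivity)
          _ = _ := mul_one _
      have h8 := abs_sub_le (((Om.filter (fun n => W Q q y T' n ∈ ({0} : Finset ℕ))).card : ℝ))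
        (Y1 * P) (Om.card * P)
      have h9 : ε1 / 16 * Y1 ≤ ε1 / 16 * (2 * Om.card) := mul_le_mul_of_nonneg_left hc2 (by positivity)
      linarith
    have h5 := extend Om (fun n => W Q q y T n) (fun n => W Q q y T' n)
      (fun n => W_mono Q q y T T' n (h3 T hκT)) (T * Vq (Qn Q q) y) (T' * Vq (Qn Q q) y) (ε1 / 4)
      (by positivity) (by linarith) h6 A
    rw [hfl]
    have hP0 := pois_nonneg _ hx0' A
    have hP1 := pois_le_one _ hx0' A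
    obtain ⟨P, hP⟩ : ∃ P : ℝ, P = ∑ j ∈ A, Real.exp (-(T * Vq (Qn Q q) y)) *
        (T * Vq (Qn Q q) y) ^ j / j.factorial := ⟨_, rfl⟩
    rw [← hP] at h5 hP0 hP1 ⊢
    have h7 : |Om.card * P - Y1 * P| ≤ ε1 / 16 * Y1 := by
      rw [← sub_mul, abs_mul, abs_of_nonneg hP0]
      calc |(Om.card : ℝ) - Y1| * P ≤ (ε1 / 16 * Y1) * 1 := mul_le_mul hOm hP1 hP0 (by positivity)
        _ = _ := mul_one _
    have h8 := abs_sub_le (((Om.filter (fun n => W Q q y T n ∈ A)).card : ℝ))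
      (Om.card * P) (Y1 * P)
    have h9 : (T' * Vq (Qn Q q) y + ε1 / 4) * Om.card ≤ (ε1 / 8 + ε1 / 4) * (2 * Y1) := by
      apply mul_le_mul _ hc3 (Nat.cast_nonneg _) (by positivity)
      linarith
    have h10 : ε1 * Y1 ≤ ε * Y1 := mul_le_mul_of_nonneg_right hε12 hY10
    have h11 : 0 ≤ ε1 * Y1 := by positivity
    linarith

end Pool.Agent.Y879.AP
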