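import Pool.Agent.Y879.AP.Law
import Pool.Agent.Y879.GL.Unif

set_option autoImplicit false

/-!
# Almost primes in the residue classes modulo `q`
-/

namespace Pool.Agent.Y879.AP

open Finset Filter
open Pool.Agent.W123.RP Pool.Agent.H373R2.T7 Pool.Agent.W123.RU Pool.Agent.TH464.PO Pool.Agent.TH464.PW

/-- divisibility -/
def Ql (p m : ℕ) : Prop := p ∣ m

lemma nuB_Ql (p : ℕ) (hp : p.Prime) : nuB Ql p = 1 := by
  classical
  have : nuB Ql p = ((range p).filter (fun r => r = 0)).card := by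
    unfold nuB
    apply card_iff
    intro r hr
    rw [mem_range] at hr
    unfold Ql
    constructor
    · intro h
      by_contra h0
      exact absurd (Nat.le_of_dvd (by omega) h) (by omega)
    · rintro rfl
      exact dvd_zero _
  rw [this, Finset.filter_eq', if_pos (mem_range.2 hp.pos), card_singleton]

lemma perB_Ql : PerB Ql 1 := by
  refine ⟨fun p n => ?_, fun p hp => (nuB_Ql p hp).le⟩
  unfold Ql
  rw [Nat.dvd_iff_mod_eq_zero, Nat.dvd_iff_mod_eq_zero, Nat.mod_mod]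

lemma adm_Ql (p : ℕ) (hp : p.Prime) : nuB Ql p < p := by
  rw [nuB_Ql p hp]
  exact hp.one_lt

lemma Vq_Ql (y : ℕ) : Vq Ql y = Vz y := by
  unfold Vq Vz
  apply Finset.prod_congr rfl
  intro p hp
  rw [nuB_Ql p (mem_pz.1 hp).2]
  simp

/-- the two parts of the density -/
lemma Vd_mul_Vn (Q : ℕ → ℕ → Prop) (q y : ℕ) : Vq (Qd Q q) y * Vq (Qn Q q) y = Vq Q y := by
  unfold Vq
  rw [← Finset.prod_mul_distrib]
  apply Finset.prod_congr rfl
  intro p _
  by_cases h : p ∣ q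
  · rw [nuB_Qd_dvd Q q p h, nuB_Qn_dvd Q q p h]
    simp
  · rw [nuB_Qd_not Q q p h, nuB_Qn_not Q q p h]
    simp

/-- the part of the density from the prime divisors of the modulus -/
lemma Vd_eq (q y : ℕ) : Vq (Qd Ql q) y = ∏ p ∈ (pz y).filter (fun p => p ∣ q), (1 - 1 / (p : ℝ)) := by
  unfold Vq
  rw [Finset.prod_filter]
  apply Finset.prod_congr rfl
  intro p hp
  split_ifs with h
  · rw [nuB_Qd_dvd Ql q p h, nuB_Ql p (mem_pz.1 hp).2]
    simp
  · rw [nuB_Qd_not Ql q p h]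
    simp

lemma Vn_eq (q y : ℕ) : Vq (Qn Ql q) y = ∏ p ∈ (pz y).filter (fun p => ¬ p ∣ q), (1 - 1 / (p : ℝ)) := by
  unfold Vq
  rw [Finset.prod_filter]
  apply Finset.prod_congr rfl
  intro p hp
  by_cases h : p ∣ q
  · rw [if_neg (not_not.2 h), nuB_Qn_dvd Ql q p h]
    simp
  · rw [if_pos h, nuB_Qn_not Ql q p h, nuB_Ql p (mem_pz.1 hp).2]
    simp

/-- products over large prime divisors -/
lemma prod_large (q w : ℕ) (hq : 1 ≤ q) (hw : 2 ≤ w) (S : Finset ℕ)
    (hS : ∀ p ∈ S, p.Prime ∧ w < p ∧ p ∣ q) :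
    1 - Real.log q / (w * Real.log w) ≤ ∏ p ∈ S, (1 - 1 / (p : ℝ)) := by
  have hw0 : (0 : ℝ) < w := by exact_mod_cast (by omega : 0 < w)
  have hlw : 0 < Real.log w := Real.log_pos (by exact_mod_cast (by omega : 1 < w))
  have h1 : 1 - ∑ p ∈ S, 1 / (p : ℝ) ≤ ∏ p ∈ S, (1 - 1 / (p : ℝ)) := by
    apply prod_one_sub_ge
    · intro p _
      positivity
    · intro p hp
      have : (1 : ℝ) ≤ p := by exact_mod_cast (hS p hp).1.one_lt.le
      rw [div_le_one (by linarith)]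
      exact this
  have h2 : ∑ p ∈ S, 1 / (p : ℝ) ≤ S.card * (1 / w) := by
    rw [← nsmul_eq_mul]
    apply Finset.sum_le_card_nsmul
    intro p hp
    apply one_div_le_one_div_of_le hw0
    exact_mod_cast (hS p hp).2.1.le
  have h3 := Pool.Agent.Y879.GL.card_primes_le S w q hw (by omega) q le_rfl hS
  have h4 : (S.card : ℝ) * (1 / w) ≤ Real.log q / (w * Real.log w) := by
    rw [mul_one_div, div_le_div_iff₀ hw0 (by positivity)]
    calc (S.card : ℝ) * (w * Real.log w) = w * (S.card * Real.log w) := by ring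
      _ ≤ w * Real.log q := mul_le_mul_of_nonneg_left h3 hw0.le
      _ = _ := by ring
  linarith

/-- the density of the sifted classes -/
lemma Vn_small (r : ℕ) (hr : 2 ≤ r) : ∃ K : ℝ, 0 < K ∧ ∀ᶠ q : ℕ in atTop,
    Vq (Qn Ql q) ⌊(q : ℝ) ^ (1 / (r : ℝ))⌋₊ ≤ K / √(Real.log q) := by
  obtain ⟨c, C, hc, hC, hV⟩ := Vz_bounds
  have hrr : (2 : ℝ) ≤ r := by exact_mod_cast hr
  refine ⟨C * (2 * r) * (8 / c), by positivity, ?_⟩
  have hlog : Tendsto (fun q : ℕ => Real.log (q : ℝ)) atTop atTop :=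
    Real.tendsto_log_atTop.comp tendsto_natCast_atTop_atTop
  filter_upwards [Pool.Agent.Y879.GL.level_ok r hr, hlog.eventually_ge_atTop (Real.exp 2)] with q h1 h2
  obtain ⟨h3, hy2, hy3, h4, h5⟩ := h1
  obtain ⟨y, hy⟩ : ∃ y, y = ⌊(q : ℝ) ^ (1 / (r : ℝ))⌋₊ := ⟨_, rfl⟩
  rw [← hy] at h3 hy2 hy3 h4 ⊢
  obtain ⟨w, hw⟩ : ∃ w : ℕ, w = ⌈Real.log q⌉₊ := ⟨_, rfl⟩
  have he2 : (2 : ℝ) < Real.exp 2 := by
    have := Real.add_one_le_exp (2 : ℝ)
    linarith
  have hwl : Real.log q ≤ w := by rw [hw]; exact Nat.le_ceil _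
  have hwu : (w : ℝ) ≤ Real.log q + 1 := by
    rw [hw]
    exact (Nat.ceil_lt_add_one (by linarith)).le
  have hw2 : 2 ≤ w := by
    have : (2 : ℝ) < w := by linarith
    have : 2 < w := by exact_mod_cast this
    omega
  have hw0 : (0 : ℝ) < w := by linarith
  have hlw2 : 2 ≤ Real.log w := by
    rw [← Real.log_exp 2]
    exact Real.log_le_log (Real.exp_pos _) (by linarith)
  have hq1 : 1 ≤ q := by
    rcases Nat.eq_zero_or_pos q with h | h
    · rw [h] at h5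
      simp at h5
      linarith
    · exact h
  -- the lower bound for the part from the divisors
  have hVd : Vz w / 2 ≤ Vq (Qd Ql q) y := by
    rw [Vd_eq, ← Finset.prod_filter_mul_prod_filter_not _ (fun p => p ≤ w)]
    have a1 : Vz w ≤ ∏ p ∈ ((pz y).filter (fun p => p ∣ q)).filter (fun p => p ≤ w), (1 - 1 / (p : ℝ)) := by
      unfold Vz
      have hsub : ((pz y).filter (fun p => p ∣ q)).filter (fun p => p ≤ w) ⊆ pz w := by
        intro p hp
        rw [mem_filter, mem_filter, mem_pz] at hp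
        exact mem_pz.2 ⟨hp.2, hp.1.1.2⟩
      rw [← Finset.prod_sdiff hsub]
      have b1 : ∏ p ∈ pz w \ ((pz y).filter (fun p => p ∣ q)).filter (fun p => p ≤ w),
          (1 - 1 / (p : ℝ)) ≤ 1 := by
        apply Finset.prod_le_one
        · intro p hp
          rw [Finset.mem_sdiff, mem_pz] at hp
          have : (1 : ℝ) ≤ p := by exact_mod_cast hp.1.2.one_lt.le
          rw [sub_nonneg, div_le_one (by linarith)]
          exact this
        · intro p hp
          have : 0 ≤ 1 / (p : ℝ) := by positivity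
          linarith
      have b2 : 0 ≤ ∏ p ∈ ((pz y).filter (fun p => p ∣ q)).filter (fun p => p ≤ w), (1 - 1 / (p : ℝ)) := by
        apply Finset.prod_nonneg
        intro p hp
        rw [mem_filter, mem_filter, mem_pz] at hp
        have : (1 : ℝ) ≤ p := by exact_mod_cast hp.1.1.2.one_lt.le
        rw [sub_nonneg, div_le_one (by linarith)]
        exact this
      calc _ ≤ 1 * ∏ p ∈ ((pz y).filter (fun p => p ∣ q)).filter (fun p => p ≤ w), (1 - 1 / (p : ℝ)) :=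
            mul_le_mul_of_nonneg_right b1 b2
        _ = _ := one_mul _
    have a2 := prod_large q w hq1 hw2 (((pz y).filter (fun p => p ∣ q)).filter (fun p => ¬ p ≤ w)) (by
      intro p hp
      rw [mem_filter, mem_filter, mem_pz] at hp
      exact ⟨hp.1.1.2, by omega, hp.1.2⟩)
    have a3 : Real.log q / (w * Real.log w) ≤ 1 / 2 := by
      rw [div_le_div_iff₀ (by positivity) (by norm_num)]
      nlinarith
    have a4 : 0 ≤ Vz w := le_trans (by positivity) (hV w hw2).1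
    calc Vz w / 2 = Vz w * (1 / 2) := by ring
      _ ≤ _ := mul_le_mul a1 (by linarith) (by norm_num) (a4.trans a1)
  have hVzw := (hV w hw2).1
  have hVzy := (hV y (by omega)).2
  have hVzw0 : 0 < Vz w := lt_of_lt_of_le (div_pos hc (by linarith)) hVzw
  have hVd0 : 0 < Vq (Qd Ql q) y := lt_of_lt_of_le (by positivity) hVd
  have hprod := Vd_mul_Vn Ql q y
  rw [Vq_Ql] at hprod
  have hVn0 : 0 ≤ Vq (Qn Ql q) y := Vq_nonneg _ _
  have hlq : 0 < Real.log q := by linarith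
  have hsq : 0 < √(Real.log q) := Real.sqrt_pos.2 hlq
  -- log w ≤ 4 √(log q)
  have hlogw : Real.log w ≤ 4 * √(Real.log q) := by
    have b1 : Real.log w ≤ 2 * √(w : ℝ) := by
      have := Real.log_le_sub_one_of_pos (Real.sqrt_pos.2 hw0)
      rw [Real.log_sqrt hw0.le] at this
      linarith
    have b2 : √(w : ℝ) ≤ 2 * √(Real.log q) := by
      rw [show (2 : ℝ) * √(Real.log q) = √(4 * Real.log q) by
        rw [Real.sqrt_mul (by norm_num), show (4 : ℝ) = 2 ^ 2 by norm_num, Real.sqrt_sq (by norm_num)]]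
      exact Real.sqrt_le_sqrt (by linarith)
    linarith
  have h6 : c / (2 * Real.log w) * Vq (Qn Ql q) y ≤ C / Real.log y := by
    calc c / (2 * Real.log w) * Vq (Qn Ql q) y ≤ Vq (Qd Ql q) y * Vq (Qn Ql q) y := by
          apply mul_le_mul_of_nonneg_right _ hVn0
          refine le_trans ?_ hVd
          rw [show c / (2 * Real.log w) = c / Real.log w / 2 by
            rw [div_div, mul_comm (2 : ℝ)]]
          linarith
      _ = Vz y := hprod
      _ ≤ _ := hVzy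
  have h7 : C / Real.log y ≤ C * (2 * r) / Real.log q := by
    rw [div_le_div_iff₀ (by linarith) hlq]
    rw [div_le_iff₀ (by positivity)] at hy2
    nlinarith
  have h8 : Vq (Qn Ql q) y ≤ C * (2 * r) / Real.log q * (2 * Real.log w / c) := by
    have h9 := h6.trans h7
    rw [div_mul_eq_mul_div, div_le_iff₀ (by linarith)] at h9
    rw [mul_div_assoc', le_div_iff₀ hc]
    linarith
  refine h8.trans ?_
  rw [le_div_iff₀ hsq]
  calc C * (2 * r) / Real.log q * (2 * Real.log w / c) * √(Real.log q) ≤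
      C * (2 * r) / Real.log q * (2 * (4 * √(Real.log q)) / c) * √(Real.log q) := by gcongr
    _ = C * (2 * r) * (8 / c) * ((√(Real.log q) * √(Real.log q)) / Real.log q) := by ring
    _ = C * (2 * r) * (8 / c) := by
      rw [Real.mul_self_sqrt hlq.le, div_self hlq.ne', mul_one]

open Classical in
/-- **The Poisson law for almost primes over the residue classes modulo `q`**, sifted form. -/
theorem lin_law (θ x0 ε : ℝ) (hθ : 0 < θ) (hε : 0 < ε) :
    ∃ r0 : ℕ, 2 ≤ r0 ∧ ∀ r : ℕ, r0 ≤ r → ∀ᶠ q : ℕ in atTop, ∀ Z Y : ℕ, (q : ℝ) ^ θ ≤ Y →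
      |(((Ioc Z (Z + Y)).filter
        (fun n => Sf (Qd Ql q) ⌊(q : ℝ) ^ (1 / (r : ℝ))⌋₊ n)).card : ℝ) -
        Y * Vq (Qd Ql q) ⌊(q : ℝ) ^ (1 / (r : ℝ))⌋₊| ≤
        ε * (Y * Vq (Qd Ql q) ⌊(q : ℝ) ^ (1 / (r : ℝ))⌋₊) ∧
      ∀ T : ℕ, T * Vq (Qn Ql q) ⌊(q : ℝ) ^ (1 / (r : ℝ))⌋₊ ≤ x0 → ∀ A : Finset ℕ,
        |(((Ioc Z (Z + Y)).filter (fun n => Sf (Qd Ql q) ⌊(q : ℝ) ^ (1 / (r : ℝ))⌋₊ n ∧
          W Ql q ⌊(q : ℝ) ^ (1 / (r : ℝ))⌋₊ T n ∈ A)).card : ℝ) -
          Y * Vq (Qd Ql q) ⌊(q : ℝ) ^ (1 / (r : ℝ))⌋₊ *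
            ∑ j ∈ A, Real.exp (-(T * Vq (Qn Ql q) ⌊(q : ℝ) ^ (1 / (r : ℝ))⌋₊)) *
            (T * Vq (Qn Ql q) ⌊(q : ℝ) ^ (1 / (r : ℝ))⌋₊) ^ j / j.factorial| ≤
          ε * (Y * Vq (Qd Ql q) ⌊(q : ℝ) ^ (1 / (r : ℝ))⌋₊) := by
  obtain ⟨K0, y0, T0, R0, η', κ, hη', hκ, hκ2, hlaw⟩ := ap_law 1 le_rfl x0 ε hε
  obtain ⟨r1, hr1⟩ : ∃ r1 : ℕ, (K0 : ℝ) / θ ≤ r1 := exists_nat_ge _
  refine ⟨max r1 2, le_max_right _ _, ?_⟩
  intro r hr
  have hr2 : 2 ≤ r := (le_max_right _ _).trans hr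
  have hrr : (2 : ℝ) ≤ r := by exact_mod_cast hr2
  have hrK : (K0 : ℝ) / r ≤ θ := by
    have h1 : (r1 : ℝ) ≤ r := by exact_mod_cast (le_max_left _ _).trans hr
    rw [div_le_iff₀ (by linarith)]
    rw [div_le_iff₀ hθ] at hr1
    nlinarith
  obtain ⟨K, hK, hVn⟩ := Vn_small r hr2
  obtain ⟨c, C, hc, hC, hV⟩ := Vz_bounds
  obtain ⟨x1, hx1⟩ : ∃ x1 : ℝ, x1 = max x0 1 := ⟨_, rfl⟩
  have hx11 : 1 ≤ x1 := by rw [hx1]; exact le_max_right _ _
  have hlog : Tendsto (fun q : ℕ => Real.log (q : ℝ)) atTop atTop :=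
    Real.tendsto_log_atTop.comp tendsto_natCast_atTop_atTop
  have hsqlog : Tendsto (fun q : ℕ => √(Real.log (q : ℝ))) atTop atTop :=
    Real.tendsto_sqrt_atTop.comp hlog
  have hpowr : Tendsto (fun q : ℕ => (q : ℝ) ^ (1 / (r : ℝ))) atTop atTop :=
    (tendsto_rpow_atTop (by positivity)).comp tendsto_natCast_atTop_atTop
  filter_upwards [hVn, Pool.Agent.Y879.GL.level_ok r hr2, hpowr.eventually_ge_atTop (y0 : ℝ),
    hsqlog.eventually_ge_atTop (K / κ), hsqlog.eventually_ge_atTop (K * T0 / κ),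
    logpow_rpow R0 ((x1 / c) ^ R0) θ (by positivity) hθ] with q h1 h2 h3 h4 h5 h6
  obtain ⟨g1, g2, g3, g4, g5⟩ := h2
  intro Z Y hqY
  obtain ⟨y, hy⟩ : ∃ y, y = ⌊(q : ℝ) ^ (1 / (r : ℝ))⌋₊ := ⟨_, rfl⟩
  rw [← hy] at h1 g1 g2 g3 g4 ⊢
  have hq0 : (0 : ℝ) < q := by
    rcases Nat.eq_zero_or_pos q with h | h
    · rw [h] at g5
      simp at g5
      linarith
    · exact_mod_cast h
  have hq1 : (1 : ℝ) ≤ q := by
    have : 0 < q := by exact_mod_cast hq0
    exact_mod_cast this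
  have hyK : y ^ K0 ≤ Y := by
    have e1 : ((y : ℝ)) ^ K0 ≤ (q : ℝ) ^ θ := by
      calc ((y : ℝ)) ^ K0 ≤ ((q : ℝ) ^ (1 / (r : ℝ))) ^ K0 := by
            apply pow_le_pow_left₀ (Nat.cast_nonneg _)
            rw [hy]
            exact Nat.floor_le (by positivity)
        _ = (q : ℝ) ^ ((K0 : ℝ) / r) := by
            rw [← Real.rpow_natCast, ← Real.rpow_mul hq0.le]
            congr 1
            ring
        _ ≤ _ := Real.rpow_le_rpow_of_exponent_le hq1 hrK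
    exact_mod_cast e1.trans hqY
  have hlq : 0 < Real.log q := by linarith
  have hsq : 0 < √(Real.log q) := Real.sqrt_pos.2 hlq
  have hV0 : 0 < Vq (Qn Ql q) y := Vq_pos (Qn Ql q) (adm_Qn Ql adm_Ql q) y
  have hVκ : Vq (Qn Ql q) y ≤ κ := by
    refine h1.trans ?_
    rw [div_le_iff₀ hsq]
    rw [div_le_iff₀ hκ] at h4
    linarith
  have hVlow : c / Real.log q ≤ Vq (Qn Ql q) y := by
    have e1 : c / Real.log q ≤ Vz y := by
      refine le_trans ?_ (hV y (by omega)).1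
      exact div_le_div_of_nonneg_left hc.le (by linarith) g3
    have e2 := Vd_mul_Vn Ql q y
    rw [Vq_Ql] at e2
    have e3 := Vq_le_one (Qd Ql q) y
    have e4 : Vq (Qd Ql q) y * Vq (Qn Ql q) y ≤ 1 * Vq (Qn Ql q) y :=
      mul_le_mul_of_nonneg_right e3 hV0.le
    linarith
  exact hlaw Ql q Z Y y perB_Ql adm_Ql (by rw [hy]; exact Nat.le_floor h3) hyK hVκ (by
    intro T hT1 hT2
    have hTr : (0 : ℝ) ≤ T := Nat.cast_nonneg _
    refine ⟨?_, ?_, ?_⟩
    · have e1 : κ ≤ T * (K / √(Real.log q)) := hT1.trans (mul_le_mul_of_nonneg_left h1 hTr)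
      rw [mul_div_assoc', le_div_iff₀ hsq] at e1
      rw [div_le_iff₀ hκ] at h5
      have e2 : K * (T0 : ℝ) ≤ K * T := by nlinarith
      have e3 : (T0 : ℝ) ≤ T := le_of_mul_le_mul_left e2 hK
      exact_mod_cast e3
    · have e1 : (T : ℝ) ≤ x1 / c * Real.log q := by
        rw [← hx1] at hT2
        have e2 : T * (c / Real.log q) ≤ x1 := (mul_le_mul_of_nonneg_left hVlow hTr).trans hT2
        rw [mul_div_assoc', div_le_iff₀ hlq] at e2
        rw [div_mul_eq_mul_div, le_div_iff₀ hc]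
        exact e2
      have e3 : ((T : ℝ)) ^ R0 ≤ Y := by
        calc ((T : ℝ)) ^ R0 ≤ (x1 / c * Real.log q) ^ R0 := pow_le_pow_left₀ hTr e1 _
          _ = (x1 / c) ^ R0 * Real.log q ^ R0 := mul_pow _ _ _
          _ ≤ _ := h6
          _ ≤ _ := hqY
      exact_mod_cast e3
    · intro t ht
      have e1 : (pz y).filter (fun p : ℕ => T < p ∧ ¬ p ∣ q ∧ CoG Ql p (q * t)) = ∅ := by
        rw [Finset.filter_eq_empty_iff]
        rintro p hp ⟨h1, h2, m, h3, h4⟩
        have hpp := (mem_pz.1 hp).2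
        have h5 : p ∣ q * t := (Nat.dvd_add_right h3).1 h4
        rcases (Nat.Prime.dvd_mul hpp).1 h5 with h | h
        · exact h2 h
        · rw [mem_Icc] at ht
          have := Nat.le_of_dvd (by omega) h
          omega
      rw [e1]
      simp
      positivity)

end Pool.Agent.Y879.AP
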