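import Pool.Agent.Y879.AP.Two

set_option autoImplicit false

/-!
# Pairs of linear forms `m`, `e m + f` with `e = 1` or `e = -1`
-/

namespace Pool.Agent.Y879.AP

open Finset Filter
open Pool.Agent.W123.RP Pool.Agent.H373R2.T7 Pool.Agent.W123.RU Pool.Agent.TH464.PO Pool.Agent.TH464.PW

/-- `p` divides `m (e m + f)` -/
def Q2 (e f : ℤ) (p m : ℕ) : Prop := (p : ℤ) ∣ (m : ℤ) * (e * m + f)

/-- the number of the classes -/
noncomputable def nu2 (f : ℤ) (p : ℕ) : ℕ := by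
  classical
  exact if (p : ℤ) ∣ f then 1 else 2

lemma Q2_per (e f : ℤ) (p n : ℕ) : Q2 e f p n ↔ Q2 e f p (n % p) := by
  unfold Q2
  have h1 : (p : ℤ) ∣ (n : ℤ) - ((n % p : ℕ) : ℤ) := by
    push_cast
    exact ⟨(n : ℤ) / p, by have := Int.emod_add_mul_ediv (n : ℤ) p; linarith⟩
  have h2 : (p : ℤ) ∣ (n : ℤ) * (e * n + f) - ((n % p : ℕ) : ℤ) * (e * ((n % p : ℕ) : ℤ) + f) := by
    have h3 : (n : ℤ) * (e * n + f) - ((n % p : ℕ) : ℤ) * (e * ((n % p : ℕ) : ℤ) + f) =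
      ((n : ℤ) - ((n % p : ℕ) : ℤ)) * (e * (n + ((n % p : ℕ) : ℤ)) + f) := by ring
    rw [h3]
    exact Dvd.dvd.mul_right h1 _
  constructor
  · intro h
    have := dvd_sub h h2
    simpa using this
  · intro h
    have := dvd_add h2 h
    simpa using this

lemma Q2_iff (e f : ℤ) (he : e * e = 1) (p : ℕ) (hp : p.Prime) (r : ℕ) (hr : r < p) :
    Q2 e f p r ↔ r = 0 ∨ r = ((-(e * f)) % p).toNat := by
  unfold Q2
  have hpi : Prime (p : ℤ) := Nat.prime_iff_prime_int.1 hp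
  have hp0 : (p : ℤ) ≠ 0 := by exact_mod_cast hp.ne_zero
  have hnn : 0 ≤ (-(e * f)) % (p : ℤ) := Int.emod_nonneg _ hp0
  rw [hpi.dvd_mul]
  apply or_congr
  · constructor
    · intro h
      by_contra hne
      have := Nat.le_of_dvd (by omega) (Int.natCast_dvd_natCast.1 h)
      omega
    · rintro rfl
      simp
  · have h1 : (p : ℤ) ∣ e * r + f ↔ (p : ℤ) ∣ (r : ℤ) - (-(e * f)) := by
      constructor
      · intro h
        have h2 : (r : ℤ) - (-(e * f)) = e * (e * r + f) := by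
          linear_combination (-(r : ℤ)) * he
        rw [h2]
        exact Dvd.dvd.mul_left h _
      · intro h
        have h2 : e * r + f = e * ((r : ℤ) - (-(e * f))) := by
          linear_combination (-f) * he
        rw [h2]
        exact Dvd.dvd.mul_left h _
    rw [h1]
    constructor
    · intro h
      have h3 : (r : ℤ) % p = (-(e * f)) % p :=
        Int.emod_eq_emod_iff_emod_sub_eq_zero.2 (Int.emod_eq_zero_of_dvd h)
      have h4 : (r : ℤ) % p = r := Int.emod_eq_of_lt (by omega) (by exact_mod_cast hr)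
      rw [← h3, h4, Int.toNat_natCast]
    · intro h
      have h5 : (r : ℤ) = (-(e * f)) % p := by
        rw [h, Int.toNat_of_nonneg hnn]
      rw [h5]
      exact ⟨-((-(e * f)) / p), by have := Int.emod_add_mul_ediv (-(e * f)) p; linarith⟩

lemma r1_zero (e f : ℤ) (he : e * e = 1) (p : ℕ) (hp : p.Prime) :
    ((-(e * f)) % (p : ℤ)).toNat = 0 ↔ (p : ℤ) ∣ f := by
  have hp0 : (p : ℤ) ≠ 0 := by exact_mod_cast hp.ne_zero
  have hnn : 0 ≤ (-(e * f)) % (p : ℤ) := Int.emod_nonneg _ hp0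
  have h1 : ((-(e * f)) % (p : ℤ)).toNat = 0 ↔ (-(e * f)) % (p : ℤ) = 0 := by omega
  rw [h1]
  constructor
  · intro h
    have h2 := Int.dvd_of_emod_eq_zero h
    have h3 : f = -e * (-(e * f)) := by linear_combination (-f) * he
    rw [h3]
    exact Dvd.dvd.mul_left h2 _
  · intro h
    apply Int.emod_eq_zero_of_dvd
    have : -(e * f) = (-e) * f := by ring
    rw [this]
    exact Dvd.dvd.mul_left h _

lemma nuB_Q2 (e f : ℤ) (he : e * e = 1) (p : ℕ) (hp : p.Prime) : nuB (Q2 e f) p = nu2 f p := by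
  classical
  have hp0 : (p : ℤ) ≠ 0 := by exact_mod_cast hp.ne_zero
  obtain ⟨r1, hr1⟩ : ∃ r1 : ℕ, r1 = ((-(e * f)) % (p : ℤ)).toNat := ⟨_, rfl⟩
  have hr1p : r1 < p := by
    have h1 := Int.emod_lt_of_pos (-(e * f)) (by exact_mod_cast hp.pos : (0 : ℤ) < p)
    have h2 : 0 ≤ (-(e * f)) % (p : ℤ) := Int.emod_nonneg _ hp0
    omega
  have hset : (range p).filter (fun r => Q2 e f p r) = {0, r1} := by
    ext r
    rw [mem_filter, mem_range, mem_insert, mem_singleton]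
    constructor
    · rintro ⟨h1, h2⟩
      rw [hr1]
      exact (Q2_iff e f he p hp r h1).1 h2
    · intro h
      have hrp : r < p := by
        rcases h with h | h
        · rw [h]; exact hp.pos
        · rw [h]; exact hr1p
      refine ⟨hrp, (Q2_iff e f he p hp r hrp).2 ?_⟩
      rw [← hr1]
      exact h
  have h1 : nuB (Q2 e f) p = ((range p).filter (fun r => Q2 e f p r)).card := by
    unfold nuB
    exact card_iff _ _ (fun r _ => Iff.rfl)
  rw [h1, hset]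
  unfold nu2
  by_cases h : (p : ℤ) ∣ f
  · have h2 : r1 = 0 := by rw [hr1]; exact (r1_zero e f he p hp).2 h
    rw [if_pos h, h2]
    simp
  · have h2 : r1 ≠ 0 := by
      rw [hr1]
      intro h3
      exact h ((r1_zero e f he p hp).1 h3)
    rw [if_neg h, card_insert_of_notMem (by simpa using h2.symm), card_singleton]

lemma nu2_le (f : ℤ) (p : ℕ) : nu2 f p ≤ 2 := by
  unfold nu2
  split_ifs <;> omega

lemma perB_Q2 (e f : ℤ) (he : e * e = 1) : PerB (Q2 e f) 2 :=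
  ⟨Q2_per e f, fun p hp => by rw [nuB_Q2 e f he p hp]; exact nu2_le f p⟩

lemma adm_Q2 (e f : ℤ) (he : e * e = 1) (hf : Even f) (p : ℕ) (hp : p.Prime) :
    nuB (Q2 e f) p < p := by
  rw [nuB_Q2 e f he p hp]
  by_cases h2 : p = 2
  · subst h2
    unfold nu2
    rw [if_pos (by exact_mod_cast hf.two_dvd)]
    norm_num
  · have := nu2_le f p
    have := hp.two_le
    omega

lemma coll_Q2 (e f : ℤ) (he : e * e = 1) (q t p : ℕ) (hp : p.Prime) (hpq : ¬ p ∣ q)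
    (h : CoG (Q2 e f) p (q * t)) : (p : ℤ) ∣ t * (f ^ 2 - (q * t) ^ 2) := by
  obtain ⟨m, h1, h2⟩ := h
  unfold Q2 at h1 h2
  push_cast at h2
  have hpi : Prime (p : ℤ) := Nat.prime_iff_prime_int.1 hp
  have hpq' : ¬ (p : ℤ) ∣ (q : ℤ) := fun h => hpq (Int.natCast_dvd_natCast.1 h)
  have key : ∀ a b : ℤ, (p : ℤ) ∣ a → (p : ℤ) ∣ b → b - a = q * t → (p : ℤ) ∣ (t : ℤ) := by
    intro a b ha hb hab
    have h3 : (p : ℤ) ∣ q * t := by rw [← hab]; exact dvd_sub hb ha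
    rcases hpi.dvd_or_dvd h3 with h4 | h4
    · exact absurd h4 hpq'
    · exact h4
  rcases hpi.dvd_or_dvd h1 with h3 | h3 <;> rcases hpi.dvd_or_dvd h2 with h4 | h4
  · exact Dvd.dvd.mul_right (key _ _ h3 h4 (by ring)) _
  · have h5 : (p : ℤ) ∣ e * (q * t) + f := by
      have h6 : e * (q * t) + f = (e * ((m : ℤ) + q * t) + f) - e * m := by ring
      rw [h6]
      exact dvd_sub h4 (Dvd.dvd.mul_left h3 _)
    apply Dvd.dvd.mul_left
    have h7 : f ^ 2 - ((q : ℤ) * t) ^ 2 = (e * (q * t) + f) * (f - e * (q * t)) := by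
      linear_combination (((q : ℤ) * t) ^ 2) * he
    rw [h7]
    exact Dvd.dvd.mul_right h5 _
  · have h5 : (p : ℤ) ∣ f - e * (q * t) := by
      have h6 : f - e * (q * t) = (e * (m : ℤ) + f) - e * (m + q * t) := by ring
      rw [h6]
      exact dvd_sub h3 (Dvd.dvd.mul_left h4 _)
    apply Dvd.dvd.mul_left
    have h7 : f ^ 2 - ((q : ℤ) * t) ^ 2 = (f - e * (q * t)) * (e * (q * t) + f) := by
      linear_combination (((q : ℤ) * t) ^ 2) * he
    rw [h7]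
    exact Dvd.dvd.mul_right h5 _
  · refine Dvd.dvd.mul_right (key (e * (e * m + f)) (e * (e * (m + q * t) + f))
      (Dvd.dvd.mul_left h3 _) (Dvd.dvd.mul_left h4 _) ?_) _
    linear_combination ((q : ℤ) * t) * he

open Classical in
/-- **The Poisson law over residue classes for pairs of linear forms**, for every modulus. -/
theorem pair_law (A δ θ x0 ε : ℝ) (hA : 0 < A) (hδ : 0 < δ) (hθ : 0 < θ) (hε : 0 < ε) :
    ∃ r0 : ℕ, 2 ≤ r0 ∧ ∀ r : ℕ, r0 ≤ r → ∀ᶠ X : ℕ in atTop, ∀ (e f : ℤ) (q : ℕ), e * e = 1 → Even f →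
      f ≠ 0 → |(f : ℝ)| ≤ (X : ℝ) ^ A → 1 ≤ q → (q : ℝ) ≤ (X : ℝ) ^ A →
      (∀ t : ℕ, 1 ≤ t → (t : ℝ) ≤ (X : ℝ) ^ δ → f ^ 2 ≠ ((q : ℤ) * t) ^ 2) →
      ∀ Z Y : ℕ, (X : ℝ) ^ θ ≤ Y →
      ∀ T : ℕ, T * Vq (Qn (Q2 e f) q) ⌊(X : ℝ) ^ (1 / (r : ℝ))⌋₊ ≤ x0 → ∀ S : Finset ℕ,
        |(((Ioc Z (Z + Y)).filter (fun n => Red (Q2 e f) q n ∧
          Ws (Q2 e f) q ⌊(X : ℝ) ^ (1 / (r : ℝ))⌋₊ T n ∈ S)).card : ℝ) -
          Y * RD (Q2 e f) q *
            ∑ j ∈ S, Real.exp (-(T * Vq (Qn (Q2 e f) q) ⌊(X : ℝ) ^ (1 / (r : ℝ))⌋₊)) *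
            (T * Vq (Qn (Q2 e f) q) ⌊(X : ℝ) ^ (1 / (r : ℝ))⌋₊) ^ j / j.factorial| ≤
          ε * (Y * RD (Q2 e f) q) := by
  obtain ⟨B, hB⟩ : ∃ B : ℝ, B = 2 * A + 3 * δ + 1 := ⟨_, rfl⟩
  have hB0 : 0 < B := by rw [hB]; positivity
  obtain ⟨r0, hr02, h⟩ := two_law 2 (by norm_num) B δ θ x0 ε hB0 hδ hθ hε
  refine ⟨r0, hr02, ?_⟩
  intro r hr
  filter_upwards [h r hr, eventually_ge_atTop 2] with X hX hX2
  intro e f q he hf hf0 hfX hq1 hqX hne Z Y hY T hT S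
  have hX2r : (2 : ℝ) ≤ X := by exact_mod_cast hX2
  have hX0 : (0 : ℝ) < X := by linarith
  have hX1 : (1 : ℝ) ≤ X := by linarith
  have hAB : (X : ℝ) ^ A ≤ (X : ℝ) ^ B := Real.rpow_le_rpow_of_exponent_le hX1 (by rw [hB]; linarith)
  have hfabs : ((f.natAbs : ℕ) : ℝ) = |(f : ℝ)| := by
    rw [Nat.cast_natAbs]
    push_cast
    rfl
  refine hX (Q2 e f) q (q * f.natAbs) (perB_Q2 e f he) (adm_Q2 e f he hf) ?_ ?_ hq1 (hqX.trans hAB)
    ?_ ?_ Z Y hY T hT S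
  · exact Nat.mul_pos hq1 (Int.natAbs_pos.2 hf0)
  · push_cast [hfabs]
    calc (q : ℝ) * |(f : ℝ)| ≤ (X : ℝ) ^ A * (X : ℝ) ^ A := by gcongr
      _ = (X : ℝ) ^ (A + A) := by rw [← Real.rpow_add hX0]
      _ ≤ (X : ℝ) ^ B := Real.rpow_le_rpow_of_exponent_le hX1 (by rw [hB]; linarith)
  · intro p hp hpD
    refine ⟨fun h1 => hpD (Dvd.dvd.mul_right h1 _), ?_⟩
    rw [nuB_Q2 e f he p hp]
    unfold nu2
    rw [if_neg]
    intro h2
    exact hpD (Dvd.dvd.mul_left (Int.natCast_dvd.1 h2) _)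
  · intro t ht htX
    refine ⟨((t : ℤ) * (f ^ 2 - ((q : ℤ) * t) ^ 2)).natAbs, ?_, ?_, ?_⟩
    · apply Int.natAbs_pos.2
      apply mul_ne_zero
      · exact_mod_cast (by omega : t ≠ 0)
      · exact sub_ne_zero.2 (hne t ht htX)
    · have h1 : ((((t : ℤ) * (f ^ 2 - ((q : ℤ) * t) ^ 2)).natAbs : ℕ) : ℝ) =
          |(t : ℝ) * ((f : ℝ) ^ 2 - ((q : ℝ) * t) ^ 2)| := by
        rw [Nat.cast_natAbs]
        push_cast
        rfl
      rw [h1, abs_mul]
      have ht0 : (0 : ℝ) ≤ t := Nat.cast_nonneg _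
      have hq0 : (0 : ℝ) ≤ q := Nat.cast_nonneg _
      have h2 : |(f : ℝ) ^ 2 - ((q : ℝ) * t) ^ 2| ≤ (X : ℝ) ^ (2 * A) + (X : ℝ) ^ (2 * A + 2 * δ) := by
        have h3 : |(f : ℝ) ^ 2 - ((q : ℝ) * t) ^ 2| ≤ |(f : ℝ)| ^ 2 + ((q : ℝ) * t) ^ 2 := by
          rw [abs_le, sq_abs]
          constructor <;> nlinarith [sq_nonneg (f : ℝ), sq_nonneg ((q : ℝ) * t)]
        refine h3.trans (add_le_add ?_ ?_)
        · calc |(f : ℝ)| ^ 2 ≤ ((X : ℝ) ^ A) ^ 2 := by gcongr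
            _ = (X : ℝ) ^ (2 * A) := by
              rw [← Real.rpow_natCast, ← Real.rpow_mul hX0.le]
              congr 1
              push_cast
              ring
        · calc ((q : ℝ) * t) ^ 2 ≤ ((X : ℝ) ^ A * (X : ℝ) ^ δ) ^ 2 := by gcongr
            _ = (X : ℝ) ^ (2 * A + 2 * δ) := by
              rw [← Real.rpow_add hX0, ← Real.rpow_natCast, ← Real.rpow_mul hX0.le]
              congr 1
              push_cast
              ring
      have h4 : (X : ℝ) ^ (2 * A) ≤ (X : ℝ) ^ (2 * A + 2 * δ) :=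
        Real.rpow_le_rpow_of_exponent_le hX1 (by linarith)
      calc |(t : ℝ)| * |(f : ℝ) ^ 2 - ((q : ℝ) * t) ^ 2| ≤
          (X : ℝ) ^ δ * ((X : ℝ) ^ (2 * A + 2 * δ) + (X : ℝ) ^ (2 * A + 2 * δ)) := by
            rw [abs_of_nonneg ht0]
            gcongr
            linarith
        _ = 2 * ((X : ℝ) ^ δ * (X : ℝ) ^ (2 * A + 2 * δ)) := by ring
        _ ≤ (X : ℝ) ^ (1 : ℝ) * ((X : ℝ) ^ δ * (X : ℝ) ^ (2 * A + 2 * δ)) := by
            rw [Real.rpow_one]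
            gcongr
        _ = (X : ℝ) ^ B := by
            rw [← Real.rpow_add hX0, ← Real.rpow_add hX0]
            congr 1
            rw [hB]
            ring
    · intro p hp hpq hco
      exact Int.natCast_dvd.1 (coll_Q2 e f he q t p hp hpq hco)

end Pool.Agent.Y879.AP
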