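import Pool.Agent.Y879.AP.Lin

set_option autoImplicit false

/-!
# Almost primes in the reduced residue classes modulo `q`
-/

namespace Pool.Agent.Y879.AP

open Finset Filter
open Pool.Agent.W123.RP Pool.Agent.H373R2.T7 Pool.Agent.W123.RU Pool.Agent.TH464.PO Pool.Agent.TH464.PW

/-- multiples of `p` in an interval -/
lemma card_mult (Z Y p : ℕ) (hp : 0 < p) :
    (((Ioc Z (Z + Y)).filter (fun b => p ∣ b)).card : ℝ) ≤ Y / p + 1 := by
  have h1 : ((Ioc Z (Z + Y)).filter (fun b => p ∣ b)).card ≤ (Ioc (Z / p) ((Z + Y) / p)).card := by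
    apply Finset.card_le_card_of_injOn (fun b => b / p)
    · intro b hb
      rw [Finset.mem_coe, mem_filter, mem_Ioc] at hb
      obtain ⟨⟨h1, h2⟩, k, rfl⟩ := hb
      rw [Finset.mem_coe]
      beta_reduce
      rw [Nat.mul_div_cancel_left k hp, mem_Ioc]
      constructor
      · rw [Nat.div_lt_iff_lt_mul hp]
        rwa [mul_comm]
      · rw [Nat.le_div_iff_mul_le hp]
        rwa [mul_comm]
    · intro a ha b hb hab
      rw [Finset.mem_coe, mem_filter] at ha hb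
      obtain ⟨_, k, rfl⟩ := ha
      obtain ⟨_, l, rfl⟩ := hb
      beta_reduce at hab
      rw [Nat.mul_div_cancel_left k hp, Nat.mul_div_cancel_left l hp] at hab
      rw [hab]
  rw [Nat.card_Ioc] at h1
  have h2 : (Z + Y) / p ≤ Z / p + Y / p + 1 := by
    rw [Nat.add_div hp]
    split_ifs <;> omega
  have h3 : ((Ioc Z (Z + Y)).filter (fun b => p ∣ b)).card ≤ Y / p + 1 := by
    generalize (Z + Y) / p = u at h1 h2
    generalize Z / p = v at h1 h2
    generalize Y / p = w at h2 ⊢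
    omega
  have h4 : ((Y / p : ℕ) : ℝ) ≤ Y / p := Nat.cast_div_le
  have h5 : (((Ioc Z (Z + Y)).filter (fun b => p ∣ b)).card : ℝ) ≤ ((Y / p + 1 : ℕ) : ℝ) := by
    exact_mod_cast h3
  push_cast at h5
  linarith

/-- the number of `1 ≤ h ≤ T` such that `b + q h` has no prime factor up to `y` -/
noncomputable def Wr (q y T b : ℕ) : ℕ := by
  classical
  exact ((Icc 1 T).filter (fun h => ∀ p ∈ pz y, ¬ p ∣ b + q * h)).card

lemma sf_of_coprime (q y b : ℕ) (hb : b.Coprime q) : Sf (Qd Ql q) y b := by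
  rintro p hp ⟨h1, h2⟩
  have h3 : p ∣ Nat.gcd b q := Nat.dvd_gcd h2 h1
  rw [Nat.Coprime.gcd_eq_one hb] at h3
  exact (mem_pz.1 hp).2.one_lt.ne' (Nat.dvd_one.1 h3)

lemma W_of_coprime (q y T b : ℕ) (hb : b.Coprime q) : W Ql q y T b = Wr q y T b := by
  classical
  unfold W Wr
  apply card_iff
  intro h _
  unfold Sf Qn Ql
  constructor
  · intro h1 p hp h2
    apply h1 p hp
    refine ⟨fun h3 => ?_, h2⟩
    have h4 : p ∣ b := (Nat.dvd_add_left (h3.mul_right h)).1 h2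
    exact sf_of_coprime q y b hb p hp ⟨h3, h4⟩
  · intro h1 p hp h2
    exact h1 p hp h2.2

/-- Euler's function -/
lemma phi_eq (q y : ℕ) (hq : q ≠ 0) : (q.totient : ℝ) / q =
    Vq (Qd Ql q) y * ∏ p ∈ q.primeFactors.filter (fun p => y < p), (1 - 1 / (p : ℝ)) := by
  have h1 : (q.totient : ℝ) = q * ∏ p ∈ q.primeFactors, (1 - 1 / (p : ℝ)) := by
    have h2 := congrArg (fun x : ℚ => (x : ℝ)) (Nat.totient_eq_mul_prod_factors q)
    push_cast at h2
    rw [h2]
    congr 1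
    apply Finset.prod_congr rfl
    intro p _
    rw [one_div]
  have hq0 : (q : ℝ) ≠ 0 := by exact_mod_cast hq
  rw [h1, mul_div_assoc, mul_comm (q : ℝ), div_mul_cancel₀ _ hq0, Vd_eq,
    ← Finset.prod_filter_mul_prod_filter_not q.primeFactors (fun p => y < p), mul_comm]
  congr 1
  apply Finset.prod_congr _ (fun _ _ => rfl)
  ext p
  rw [mem_filter, mem_filter, mem_pz, Nat.mem_primeFactors]
  constructor
  · rintro ⟨⟨h3, h4, _⟩, h5⟩
    exact ⟨⟨by omega, h3⟩, h4⟩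
  · rintro ⟨⟨h3, h4⟩, h5⟩
    exact ⟨⟨h4, h5, hq⟩, by omega⟩

/-- the large prime divisors do not matter -/
lemma large_part (r : ℕ) (hr : 2 ≤ r) (δ : ℝ) (hδ : 0 < δ) : ∀ᶠ q : ℕ in atTop,
    1 - δ ≤ ∏ p ∈ q.primeFactors.filter (fun p => ⌊(q : ℝ) ^ (1 / (r : ℝ))⌋₊ < p), (1 - 1 / (p : ℝ)) ∧
    ∏ p ∈ q.primeFactors.filter (fun p => ⌊(q : ℝ) ^ (1 / (r : ℝ))⌋₊ < p), (1 - 1 / (p : ℝ)) ≤ 1 := by
  have hrr : (2 : ℝ) ≤ r := by exact_mod_cast hr
  filter_upwards [Pool.Agent.Y879.GL.level_ok r hr, logpow_rpow 1 (2 / δ) (1 / (r : ℝ)) (by positivity)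
    (by positivity), eventually_ge_atTop 1] with q h1 h2 h3
  obtain ⟨g1, g2, g3, g4, g5⟩ := h1
  obtain ⟨y, hy⟩ : ∃ y, y = ⌊(q : ℝ) ^ (1 / (r : ℝ))⌋₊ := ⟨_, rfl⟩
  rw [← hy] at g1 g2 g3 g4 ⊢
  constructor
  · refine le_trans ?_ (prod_large q y h3 (by omega) _ (by
      intro p hp
      rw [mem_filter, Nat.mem_primeFactors] at hp
      exact ⟨hp.1.1, hp.2, hp.1.2.1⟩))
    have hy0 : (0 : ℝ) < y := by exact_mod_cast (by omega : 0 < y)
    have hyq : (q : ℝ) ^ (1 / (r : ℝ)) < y + 1 := by rw [hy]; exact Nat.lt_floor_add_one _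
    have hy1 : (1 : ℝ) ≤ y := by exact_mod_cast (by omega : 1 ≤ y)
    have h4 : 2 / δ * Real.log q ≤ 2 * y := by
      rw [pow_one] at h2
      linarith
    have h5 : Real.log q / (y * Real.log y) ≤ δ := by
      rw [div_le_iff₀ (by positivity)]
      have h6 : Real.log q ≤ δ * y := by
        rw [div_mul_eq_mul_div, div_le_iff₀ hδ] at h4
        linarith
      have h7 : δ * y * 1 ≤ δ * y * Real.log y := mul_le_mul_of_nonneg_left g4 (by positivity)
      linarith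
    linarith
  · apply Finset.prod_le_one
    · intro p hp
      rw [mem_filter, Nat.mem_primeFactors] at hp
      have : (1 : ℝ) ≤ p := by exact_mod_cast hp.1.1.one_lt.le
      rw [sub_nonneg, div_le_one (by linarith)]
      exact this
    · intro p hp
      have : 0 ≤ 1 / (p : ℝ) := by positivity
      linarith

/-- the mean value -/
theorem mean_asym (r : ℕ) (hr : 2 ≤ r) (ε : ℝ) (hε : 0 < ε) : ∀ᶠ q : ℕ in atTop,
    |Vq (Qn Ql q) ⌊(q : ℝ) ^ (1 / (r : ℝ))⌋₊ * ((q.totient : ℝ) / q) * Real.log q -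
      r * Real.exp (-Real.eulerMascheroniConstant)| ≤ ε := by
  have hrr : (2 : ℝ) ≤ r := by exact_mod_cast hr
  have hpowr : Tendsto (fun q : ℕ => (q : ℝ) ^ (1 / (r : ℝ))) atTop atTop :=
    (tendsto_rpow_atTop (by positivity)).comp tendsto_natCast_atTop_atTop
  have hfl : Tendsto (fun q : ℕ => ⌊(q : ℝ) ^ (1 / (r : ℝ))⌋₊) atTop atTop :=
    tendsto_nat_floor_atTop.comp hpowr
  have hm := Pool.Agent.H305R2.mertens_three.comp hfl
  -- the logarithms
  have hlogs : Tendsto (fun q : ℕ => Real.log q / Real.log ⌊(q : ℝ) ^ (1 / (r : ℝ))⌋₊) atTop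
      (nhds (r : ℝ)) := by
    have hlog : Tendsto (fun q : ℕ => Real.log (q : ℝ)) atTop atTop :=
      Real.tendsto_log_atTop.comp tendsto_natCast_atTop_atTop
    have h1 : Tendsto (fun q : ℕ => Real.log ⌊(q : ℝ) ^ (1 / (r : ℝ))⌋₊ / Real.log q) atTop
        (nhds (1 / (r : ℝ))) := by
      have hlow : Tendsto (fun q : ℕ => 1 / (r : ℝ) - Real.log 2 / Real.log q) atTop
          (nhds (1 / (r : ℝ))) := by
        have := (tendsto_const_nhds (x := Real.log 2)).div_atTop hlog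
        simpa using this.const_sub (1 / (r : ℝ))
      refine tendsto_of_tendsto_of_tendsto_of_le_of_le' hlow tendsto_const_nhds ?_ ?_
      · filter_upwards [Pool.Agent.Y879.GL.level_ok r hr, eventually_ge_atTop 1] with q h1 h3
        obtain ⟨g1, g2, g3, g4, g5⟩ := h1
        have hq0 : (0 : ℝ) < q := by exact_mod_cast (by omega : 0 < q)
        have hlq : 0 < Real.log q := by linarith
        rw [le_div_iff₀ hlq, sub_mul, div_mul_cancel₀ _ hlq.ne']
        have h4 : Real.log ((q : ℝ) ^ (1 / (r : ℝ)) / 2) ≤ Real.log ⌊(q : ℝ) ^ (1 / (r : ℝ))⌋₊ := by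
          apply Real.log_le_log (by positivity)
          have h5 := Nat.lt_floor_add_one ((q : ℝ) ^ (1 / (r : ℝ)))
          have h6 : (3 : ℝ) ≤ ⌊(q : ℝ) ^ (1 / (r : ℝ))⌋₊ := by exact_mod_cast g1
          linarith
        rw [Real.log_div (by positivity) (by norm_num), Real.log_rpow hq0] at h4
        exact h4
      · filter_upwards [Pool.Agent.Y879.GL.level_ok r hr, eventually_ge_atTop 1] with q h1 h3
        obtain ⟨g1, g2, g3, g4, g5⟩ := h1
        have hq0 : (0 : ℝ) < q := by exact_mod_cast (by omega : 0 < q)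
        have hlq : 0 < Real.log q := by linarith
        rw [div_le_iff₀ hlq, ← Real.log_rpow hq0]
        apply Real.log_le_log (by exact_mod_cast (by omega : 0 < ⌊(q : ℝ) ^ (1 / (r : ℝ))⌋₊))
        exact Nat.floor_le (by positivity)
    have h2 := h1.inv₀ (by positivity)
    simp only [inv_div, one_div, inv_inv] at h2
    simpa using h2
  have h3 := (hm.inv₀ (Real.exp_ne_zero _)).mul hlogs
  have h4 : Tendsto (fun q : ℕ => Vz ⌊(q : ℝ) ^ (1 / (r : ℝ))⌋₊ * Real.log q) atTop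
      (nhds (r * Real.exp (-Real.eulerMascheroniConstant))) := by
    rw [Real.exp_neg, mul_comm (r : ℝ)]
    refine h3.congr' ?_
    filter_upwards [Pool.Agent.Y879.GL.level_ok r hr] with q h1
    obtain ⟨g1, g2, g3, g4, g5⟩ := h1
    simp only [Function.comp]
    have e1 : ∏ p ∈ (Finset.Icc 1 ⌊(q : ℝ) ^ (1 / (r : ℝ))⌋₊).filter Nat.Prime, (1 - (p : ℝ)⁻¹)⁻¹ =
        (Vz ⌊(q : ℝ) ^ (1 / (r : ℝ))⌋₊)⁻¹ := by
      unfold Vz pz
      rw [Finset.prod_inv_distrib]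
      congr 1
      apply Finset.prod_congr rfl
      intro p _
      rw [one_div]
    rw [e1, inv_div, div_inv_eq_mul]
    have : Real.log ⌊(q : ℝ) ^ (1 / (r : ℝ))⌋₊ ≠ 0 := by linarith
    field_simp
  have hr0 : 0 < r * Real.exp (-Real.eulerMascheroniConstant) := by
    have := Real.exp_pos (-Real.eulerMascheroniConstant)
    positivity
  obtain ⟨M, hM⟩ : ∃ M, M = r * Real.exp (-Real.eulerMascheroniConstant) := ⟨_, rfl⟩
  rw [← hM] at h4 hr0 ⊢
  have h5 := (Metric.tendsto_nhds.1 h4) (min (ε / 2) 1) (by positivity)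
  filter_upwards [h5, large_part r hr (ε / (2 * (M + 1))) (by positivity),
    Pool.Agent.Y879.GL.level_ok r hr, eventually_ge_atTop 1] with q a1 a2 a3 a4
  rw [Real.dist_eq] at a1
  obtain ⟨y, hy⟩ : ∃ y, y = ⌊(q : ℝ) ^ (1 / (r : ℝ))⌋₊ := ⟨_, rfl⟩
  rw [← hy] at a1 a2 ⊢
  rw [phi_eq q y (by omega)]
  obtain ⟨E, hE⟩ : ∃ E, E = ∏ p ∈ q.primeFactors.filter (fun p => y < p), (1 - 1 / (p : ℝ)) := ⟨_, rfl⟩
  rw [← hE] at a2 ⊢
  have e2 : Vq (Qn Ql q) y * (Vq (Qd Ql q) y * E) * Real.log q = (Vz y * Real.log q) * E := by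
    rw [← Vq_Ql, ← Vd_mul_Vn Ql q y]
    ring
  rw [e2]
  obtain ⟨v, hv⟩ : ∃ v, v = Vz y * Real.log q := ⟨_, rfl⟩
  rw [← hv] at a1 ⊢
  have b1 := (abs_lt.1 a1).1
  have b2 := (abs_lt.1 a1).2
  have b3 : min (ε / 2) 1 ≤ ε / 2 := min_le_left _ _
  have b4 : min (ε / 2) 1 ≤ 1 := min_le_right _ _
  have b5 : |v * E - v| ≤ ε / 2 := by
    have c1 : 0 ≤ 1 - E := by linarith [a2.2]
    have c2 : 1 - E ≤ ε / (2 * (M + 1)) := by linarith [a2.1]
    have c3 : |v| ≤ M + 1 := by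
      rw [abs_le]
      constructor <;> linarith
    rw [show v * E - v = -(v * (1 - E)) by ring, abs_neg, abs_mul, abs_of_nonneg c1]
    calc |v| * (1 - E) ≤ (M + 1) * (ε / (2 * (M + 1))) := mul_le_mul c3 c2 c1 (by linarith)
      _ = ε / 2 := by field_simp
  have b6 := abs_sub_le (v * E) v M
  have b7 : |v - M| ≤ ε / 2 := (a1.le).trans b3
  linarith

open Classical in
/-- **The Poisson law for almost primes over the reduced residue classes modulo `q`.** -/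
theorem phi_law (θ x0 ε : ℝ) (hθ : 0 < θ) (hε : 0 < ε) :
    ∃ r0 : ℕ, 2 ≤ r0 ∧ ∀ r : ℕ, r0 ≤ r → ∀ᶠ q : ℕ in atTop, ∀ Z Y : ℕ, (q : ℝ) ^ θ ≤ Y →
      ∀ T : ℕ, T * Vq (Qn Ql q) ⌊(q : ℝ) ^ (1 / (r : ℝ))⌋₊ ≤ x0 → ∀ A : Finset ℕ,
        |(((Ioc Z (Z + Y)).filter (fun n => n.Coprime q ∧
          Wr q ⌊(q : ℝ) ^ (1 / (r : ℝ))⌋₊ T n ∈ A)).card : ℝ) -
          Y * ((q.totient : ℝ) / q) *
            ∑ j ∈ A, Real.exp (-(T * Vq (Qn Ql q) ⌊(q : ℝ) ^ (1 / (r : ℝ))⌋₊)) *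
            (T * Vq (Qn Ql q) ⌊(q : ℝ) ^ (1 / (r : ℝ))⌋₊) ^ j / j.factorial| ≤
          ε * (Y * ((q.totient : ℝ) / q)) := by
  obtain ⟨ε1, hε1⟩ : ∃ ε1 : ℝ, ε1 = min ε 1 / 8 := ⟨_, rfl⟩
  have hε10 : 0 < ε1 := by rw [hε1]; positivity
  have hε11 : 8 * ε1 ≤ 1 := by rw [hε1]; have := min_le_right ε 1; linarith
  have hε12 : 8 * ε1 ≤ ε := by rw [hε1]; have := min_le_left ε 1; linarith
  obtain ⟨r0, hr02, hlaw⟩ := lin_law θ x0 ε1 hθ hε10
  obtain ⟨c, C, hc, hC, hV⟩ := Vz_bounds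
  obtain ⟨r1, hr1⟩ : ∃ r1 : ℕ, 1 / θ ≤ r1 := exists_nat_ge _
  refine ⟨max r0 r1, hr02.trans (le_max_left _ _), ?_⟩
  intro r hr
  have hr2 : 2 ≤ r := hr02.trans ((le_max_left _ _).trans hr)
  have hrr : (2 : ℝ) ≤ r := by exact_mod_cast hr2
  have hrθ : 1 / (r : ℝ) ≤ θ := by
    have h1 : (r1 : ℝ) ≤ r := by exact_mod_cast (le_max_right _ _).trans hr
    rw [div_le_iff₀ (by linarith)]
    rw [div_le_iff₀ hθ] at hr1
    nlinarith
  filter_upwards [hlaw r ((le_max_left _ _).trans hr), large_part r hr2 ε1 hε10,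
    Pool.Agent.Y879.GL.level_ok r hr2, eventually_ge_atTop 1,
    logpow_rpow 1 (16 * r / (c * ε1)) (1 / (r : ℝ)) (by positivity) (by positivity)] with q h1 h2 h3 h4 h5
  obtain ⟨g1, g2, g3, g4, g5⟩ := h3
  obtain ⟨y, hy⟩ : ∃ y, y = ⌊(q : ℝ) ^ (1 / (r : ℝ))⌋₊ := ⟨_, rfl⟩
  rw [← hy] at h1 h2 g1 g2 g3 g4 ⊢
  intro Z Y hqY T hT A
  have hq1 : (1 : ℝ) ≤ q := by exact_mod_cast h4
  have hq0 : (0 : ℝ) < q := by linarith
  have hy0 : (0 : ℝ) < y := by exact_mod_cast (by omega : 0 < y)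
  have hyq : (y : ℝ) ≤ (q : ℝ) ^ (1 / (r : ℝ)) := by rw [hy]; exact Nat.floor_le (by positivity)
  have hyq2 : (q : ℝ) ^ (1 / (r : ℝ)) ≤ 2 * y := by
    have h6 : (q : ℝ) ^ (1 / (r : ℝ)) < y + 1 := by rw [hy]; exact Nat.lt_floor_add_one _
    have h7 : (1 : ℝ) ≤ y := by exact_mod_cast (by omega : 1 ≤ y)
    linarith
  have hyY : (y : ℝ) ≤ Y := by
    refine hyq.trans (le_trans ?_ hqY)
    exact Real.rpow_le_rpow_of_exponent_le hq1 hrθ
  have hY0 : (0 : ℝ) < Y := by linarith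
  rw [phi_eq q y (by omega)]
  obtain ⟨E, hE⟩ : ∃ E, E = ∏ p ∈ q.primeFactors.filter (fun p => y < p), (1 - 1 / (p : ℝ)) := ⟨_, rfl⟩
  rw [← hE] at h2 ⊢
  obtain ⟨V1, hV1⟩ : ∃ V1, V1 = Vq (Qd Ql q) y := ⟨_, rfl⟩
  have hV1low : c / Real.log q ≤ V1 := by
    rw [hV1]
    have e1 : c / Real.log q ≤ Vz y := by
      refine le_trans ?_ (hV y (by omega)).1
      exact div_le_div_of_nonneg_left hc.le (by linarith) g3
    have e2 := Vd_mul_Vn Ql q y
    rw [Vq_Ql] at e2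
    have e3 := Vq_le_one (Qn Ql q) y
    have e4 : Vq (Qd Ql q) y * Vq (Qn Ql q) y ≤ Vq (Qd Ql q) y * 1 :=
      mul_le_mul_of_nonneg_left e3 (Vq_nonneg _ _)
    linarith
  have hlq : 0 < Real.log q := by linarith
  have hV10 : 0 < V1 := lt_of_lt_of_le (by positivity) hV1low
  obtain ⟨hL1, hL2⟩ := h1 Z Y hqY
  have hL3 := hL2 T hT A
  rw [← hV1] at hL3 ⊢
  have hx00 : 0 ≤ T * Vq (Qn Ql q) y := mul_nonneg (Nat.cast_nonneg _) (Vq_nonneg _ _)
  have hP0 := pois_nonneg _ hx00 A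
  have hP1 := pois_le_one _ hx00 A
  obtain ⟨P, hP⟩ : ∃ P : ℝ, P = ∑ j ∈ A, Real.exp (-(T * Vq (Qn Ql q) y)) *
      (T * Vq (Qn Ql q) y) ^ j / j.factorial := ⟨_, rfl⟩
  rw [← hP] at hL3 hP0 hP1 ⊢
  -- the classes with a large common prime factor
  obtain ⟨S1, hS1⟩ : ∃ S1, S1 = (Ioc Z (Z + Y)).filter (fun n => n.Coprime q ∧ Wr q y T n ∈ A) := ⟨_, rfl⟩
  obtain ⟨S2, hS2⟩ : ∃ S2, S2 = (Ioc Z (Z + Y)).filter
    (fun n => Sf (Qd Ql q) y n ∧ W Ql q y T n ∈ A) := ⟨_, rfl⟩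
  obtain ⟨Bd, hBd⟩ : ∃ Bd, Bd = (q.primeFactors.filter (fun p => y < p)).biUnion
    (fun p => (Ioc Z (Z + Y)).filter (fun b => p ∣ b)) := ⟨_, rfl⟩
  rw [← hS1]
  rw [← hS2] at hL3
  have hsub : S1 ⊆ S2 := by
    intro n hn
    rw [hS1, mem_filter] at hn
    rw [hS2, mem_filter]
    refine ⟨hn.1, sf_of_coprime q y n hn.2.1, ?_⟩
    rw [W_of_coprime q y T n hn.2.1]
    exact hn.2.2
  have hsub2 : S2 ⊆ S1 ∪ Bd := by
    intro n hn
    rw [hS2, mem_filter] at hn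
    obtain ⟨n1, n2, n3⟩ := hn
    by_cases hcop : n.Coprime q
    · rw [mem_union]
      left
      rw [hS1, mem_filter]
      refine ⟨n1, hcop, ?_⟩
      rw [← W_of_coprime q y T n hcop]
      exact n3
    · rw [mem_union]
      right
      obtain ⟨p, hp, hpn, hpq⟩ := Nat.Prime.not_coprime_iff_dvd.1 hcop
      rw [hBd, mem_biUnion]
      refine ⟨p, ?_, mem_filter.2 ⟨n1, hpn⟩⟩
      rw [mem_filter, Nat.mem_primeFactors]
      refine ⟨⟨hp, hpq, by omega⟩, ?_⟩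
      by_contra hpy
      exact n2 p (mem_pz.2 ⟨by omega, hp⟩) ⟨hpq, hpn⟩
  have hBdc : (Bd.card : ℝ) ≤ ε1 * (Y * V1) := by
    have b1 : (Bd.card : ℝ) ≤ ∑ p ∈ q.primeFactors.filter (fun p => y < p), ((Y : ℝ) / p + 1) := by
      rw [hBd]
      have b2 : ((((q.primeFactors.filter (fun p => y < p)).biUnion
          (fun p => (Ioc Z (Z + Y)).filter (fun b => p ∣ b))).card : ℕ) : ℝ) ≤
          ((∑ p ∈ q.primeFactors.filter (fun p => y < p),
            ((Ioc Z (Z + Y)).filter (fun b => p ∣ b)).card : ℕ) : ℝ) := by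
        exact_mod_cast Finset.card_biUnion_le
      refine b2.trans ?_
      push_cast
      apply Finset.sum_le_sum
      intro p hp
      rw [mem_filter, Nat.mem_primeFactors] at hp
      exact card_mult Z Y p hp.1.1.pos
    have b3 : ∑ p ∈ q.primeFactors.filter (fun p => y < p), ((Y : ℝ) / p + 1) ≤
        (q.primeFactors.filter (fun p => y < p)).card * (2 * (Y / y)) := by
      rw [← nsmul_eq_mul]
      apply Finset.sum_le_card_nsmul
      intro p hp
      rw [mem_filter, Nat.mem_primeFactors] at hp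
      have b4 : (Y : ℝ) / p ≤ Y / y := by
        apply div_le_div_of_nonneg_left hY0.le hy0
        exact_mod_cast hp.2.le
      have b5 : 1 ≤ (Y : ℝ) / y := by
        rw [le_div_iff₀ hy0, one_mul]
        exact hyY
      linarith
    have b6 : ((q.primeFactors.filter (fun p => y < p)).card : ℝ) ≤ 2 * r := by
      have b7 := Pool.Agent.Y879.GL.card_primes_le (q.primeFactors.filter (fun p => y < p)) y q
        (by omega) (by omega) q le_rfl (by
          intro p hp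
          rw [mem_filter, Nat.mem_primeFactors] at hp
          exact ⟨hp.1.1, hp.2, hp.1.2.1⟩)
      have b8 : ((q.primeFactors.filter (fun p => y < p)).card : ℝ) * (Real.log q / (2 * r)) ≤
          Real.log q := le_trans (mul_le_mul_of_nonneg_left g2 (Nat.cast_nonneg _)) b7
      rw [mul_div_assoc', div_le_iff₀ (by positivity)] at b8
      have b9 : ((q.primeFactors.filter (fun p => y < p)).card : ℝ) * Real.log q ≤
          2 * r * Real.log q := by linarith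
      exact le_of_mul_le_mul_right b9 hlq
    have b10 : (Bd.card : ℝ) ≤ 2 * r * (2 * (Y / y)) :=
      b1.trans (b3.trans (mul_le_mul_of_nonneg_right b6 (by positivity)))
    refine b10.trans ?_
    have b11 : 4 * r / y ≤ ε1 * V1 := by
      have b12 : 4 * r / y ≤ ε1 * (c / Real.log q) := by
        rw [mul_div_assoc', div_le_div_iff₀ hy0 hlq]
        rw [pow_one, div_mul_eq_mul_div, div_le_iff₀ (by positivity)] at h5
        have b13 : (q : ℝ) ^ (1 / (r : ℝ)) * (c * ε1) ≤ 2 * y * (c * ε1) :=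
          mul_le_mul_of_nonneg_right hyq2 (by positivity)
        have b14 : 0 ≤ r * Real.log q := by positivity
        nlinarith
      exact b12.trans (mul_le_mul_of_nonneg_left hV1low hε10.le)
    calc (2 : ℝ) * r * (2 * ((Y : ℝ) / y)) = Y * (4 * r / y) := by ring
      _ ≤ Y * (ε1 * V1) := mul_le_mul_of_nonneg_left b11 hY0.le
      _ = _ := by ring
  have hS1S2 : |(S1.card : ℝ) - S2.card| ≤ ε1 * (Y * V1) := by
    have b1 : (S1.card : ℝ) ≤ S2.card := by exact_mod_cast card_le_card hsub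
    have b2 : (S2.card : ℝ) ≤ S1.card + Bd.card := by
      have : S2.card ≤ S1.card + Bd.card := (card_le_card hsub2).trans (card_union_le _ _)
      exact_mod_cast this
    rw [abs_le]
    constructor <;> linarith
  have hYV : 0 < Y * V1 := by positivity
  have hEE : |(Y * V1) * P - Y * (V1 * E) * P| ≤ ε1 * (Y * V1) := by
    have b1 : (Y * V1) * P - Y * (V1 * E) * P = (Y * V1) * ((1 - E) * P) := by ring
    have b2 : 0 ≤ 1 - E := by linarith [h2.2]
    rw [b1, abs_of_nonneg (by positivity)]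
    calc (Y * V1) * ((1 - E) * P) ≤ (Y * V1) * (ε1 * 1) := by
          apply mul_le_mul_of_nonneg_left _ hYV.le
          apply mul_le_mul _ hP1 hP0 hε10.le
          linarith [h2.1]
      _ = _ := by ring
  have t1 := abs_sub_le (S1.card : ℝ) S2.card (Y * V1 * P)
  have t2 := abs_sub_le (S1.card : ℝ) (Y * V1 * P) (Y * (V1 * E) * P)
  have t3 : Y * V1 ≤ 2 * (Y * (V1 * E)) := by
    have : 1 / 2 ≤ E := by linarith [h2.1]
    have := mul_le_mul_of_nonneg_left this hYV.le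
    linarith
  have t4 : 3 * ε1 * (Y * V1) ≤ 3 * ε1 * (2 * (Y * (V1 * E))) :=
    mul_le_mul_of_nonneg_left t3 (by positivity)
  have t5 : 0 < Y * (V1 * E) := by linarith
  have t6 : 8 * ε1 * (Y * (V1 * E)) ≤ ε * (Y * (V1 * E)) := mul_le_mul_of_nonneg_right hε12 t5.le
  have t7 : 0 < ε1 * (Y * (V1 * E)) := by positivity
  linarith

end Pool.Agent.Y879.AP
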