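import Pool.Agent.Y879.AP.Mean2

set_option autoImplicit false

/-!
# Tuples `m + h`, `h ∈ H`
-/

namespace Pool.Agent.Y879.AP

open Finset Filter
open Pool.Agent.W123.RP Pool.Agent.H373R2.T7 Pool.Agent.W123.RU Pool.Agent.TH464.PO Pool.Agent.TH464.PW

/-- `p` divides some `m + h` -/
def QT (H : Finset ℕ) (p m : ℕ) : Prop := ∃ h ∈ H, p ∣ m + h

/-- the number of the residue classes modulo `p` which contain an element of `H` -/
def nuH (H : Finset ℕ) (p : ℕ) : ℕ := (H.image (fun h => h % p)).card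

lemma QT_per (H : Finset ℕ) (p n : ℕ) : QT H p n ↔ QT H p (n % p) := by
  unfold QT
  refine exists_congr fun h => and_congr Iff.rfl ?_
  rw [Nat.dvd_iff_mod_eq_zero, Nat.dvd_iff_mod_eq_zero, Nat.mod_add_mod]

lemma nuB_QT (H : Finset ℕ) (p : ℕ) (hp : p.Prime) : nuB (QT H) p = nuH H p := by
  classical
  have h1 : nuB (QT H) p = ((range p).filter (fun r => QT H p r)).card := by
    unfold nuB
    exact card_iff _ _ (fun r _ => Iff.rfl)
  have hp0 := hp.pos
  rw [h1]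
  unfold nuH
  have hset : (range p).filter (fun r => QT H p r) = (H.image (fun h => h % p)).image
      (fun c => (p - c) % p) := by
    ext r
    rw [mem_filter, mem_range, mem_image]
    constructor
    · rintro ⟨hr, h, hh, hd⟩
      refine ⟨h % p, mem_image.2 ⟨h, hh, rfl⟩, ?_⟩
      have h2 : (r + h % p) % p = 0 := by
        rw [Nat.add_mod_mod]
        exact Nat.mod_eq_zero_of_dvd hd
      have h3 : h % p < p := Nat.mod_lt _ hp0
      by_cases h4 : h % p = 0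
      · rw [h4] at h2 ⊢
        rw [Nat.add_zero, Nat.mod_eq_of_lt hr] at h2
        rw [h2]
        simp
      · have h5 : r + h % p = p := by
          have h6 := Nat.dvd_of_mod_eq_zero h2
          obtain ⟨k, hk⟩ := h6
          have h7 : k = 1 := by
            have h8 : p * k < p * 2 := by omega
            have h9 : k < 2 := Nat.lt_of_mul_lt_mul_left h8
            have h10 : 0 < k := by
              by_contra hcon
              have : k = 0 := by omega
              rw [this] at hk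
              omega
            omega
          rw [h7] at hk
          omega
        rw [Nat.mod_eq_of_lt (by omega)]
        omega
    · rintro ⟨c, hc, hcr⟩
      obtain ⟨h, hh, hhc⟩ := mem_image.1 hc
      have hcp : c < p := by rw [← hhc]; exact Nat.mod_lt _ hp0
      refine ⟨by rw [← hcr]; exact Nat.mod_lt _ hp0, h, hh, ?_⟩
      rw [Nat.dvd_iff_mod_eq_zero, ← hcr, Nat.mod_add_mod, ← Nat.add_mod_mod, hhc]
      rw [Nat.sub_add_cancel hcp.le, Nat.mod_self]
  rw [hset, card_image_of_injOn]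
  intro c hc c' hc' hcc
  obtain ⟨h, _, hhc⟩ := mem_image.1 (mem_coe.1 hc)
  obtain ⟨h', _, hhc'⟩ := mem_image.1 (mem_coe.1 hc')
  have hcp : c < p := by rw [← hhc]; exact Nat.mod_lt _ hp0
  have hcp' : c' < p := by rw [← hhc']; exact Nat.mod_lt _ hp0
  simp only at hcc
  by_cases h1 : c = 0
  · by_cases h2 : c' = 0
    · rw [h1, h2]
    · rw [h1, Nat.sub_zero, Nat.mod_self, Nat.mod_eq_of_lt (by omega)] at hcc
      omega
  · by_cases h2 : c' = 0
    · rw [h2, Nat.sub_zero, Nat.mod_self, Nat.mod_eq_of_lt (by omega)] at hcc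
      omega
    · rw [Nat.mod_eq_of_lt (by omega), Nat.mod_eq_of_lt (by omega)] at hcc
      omega

lemma nuH_le (H : Finset ℕ) (p : ℕ) : nuH H p ≤ H.card := card_image_le

lemma perB_QT (H : Finset ℕ) (k : ℕ) (hk : H.card ≤ k) : PerB (QT H) k :=
  ⟨QT_per H, fun p hp => by rw [nuB_QT H p hp]; exact (nuH_le H p).trans hk⟩

lemma two_le_nuH (H : Finset ℕ) (a b p : ℕ) (ha : a ∈ H) (hb : b ∈ H) (hab : a < b) (hp : ¬ p ∣ b - a) :
    2 ≤ nuH H p := by
  unfold nuH
  have h1 : a % p ≠ b % p := by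
    intro h
    exact hp ((Nat.modEq_iff_dvd' hab.le).1 h)
  rw [← card_pair h1]
  apply card_le_card
  intro x hx
  rw [mem_insert, mem_singleton] at hx
  rcases hx with rfl | rfl
  · exact mem_image.2 ⟨a, ha, rfl⟩
  · exact mem_image.2 ⟨b, hb, rfl⟩

lemma coll_QT (H : Finset ℕ) (q t p : ℕ) (h : CoG (QT H) p (q * t)) :
    (p : ℤ) ∣ ∏ a ∈ H, ∏ b ∈ H, ((q : ℤ) * t + b - a) := by
  obtain ⟨m, ⟨a, ha, h1⟩, ⟨b, hb, h2⟩⟩ := h
  have h3 : (p : ℤ) ∣ (q : ℤ) * t + b - a := by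
    have h4 : (q : ℤ) * t + b - a = ((m + q * t + b : ℕ) : ℤ) - ((m + a : ℕ) : ℤ) := by
      push_cast
      ring
    rw [h4]
    exact dvd_sub (Int.natCast_dvd_natCast.2 h2) (Int.natCast_dvd_natCast.2 h1)
  exact (h3.trans (Finset.dvd_prod_of_mem (fun b : ℕ => (q : ℤ) * t + b - a) hb)).trans
    (Finset.dvd_prod_of_mem (fun a : ℕ => ∏ b ∈ H, ((q : ℤ) * t + b - a)) ha)

open Classical in
/-- **The Poisson law over residue classes for tuples**, uniformly in the tuple and the modulus. -/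
theorem tuple_law (k : ℕ) (hk : 1 ≤ k) (A θ x0 ε : ℝ) (hA : 0 < A) (hθ : 0 < θ) (hε : 0 < ε) :
    ∃ r0 : ℕ, 2 ≤ r0 ∧ ∀ r : ℕ, r0 ≤ r → ∀ᶠ X : ℕ in atTop, ∀ (H : Finset ℕ) (q : ℕ), H.card ≤ k →
      1 < H.card → (∀ p : ℕ, p.Prime → nuH H p < p) → (∀ h ∈ H, h < q) → (q : ℝ) ≤ (X : ℝ) ^ A →
      ∀ Z Y : ℕ, (X : ℝ) ^ θ ≤ Y →
      ∀ T : ℕ, T * Vq (Qn (QT H) q) ⌊(X : ℝ) ^ (1 / (r : ℝ))⌋₊ ≤ x0 → ∀ S : Finset ℕ,
        |(((Ioc Z (Z + Y)).filter (fun n => Red (QT H) q n ∧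
          Ws (QT H) q ⌊(X : ℝ) ^ (1 / (r : ℝ))⌋₊ T n ∈ S)).card : ℝ) -
          Y * RD (QT H) q *
            ∑ j ∈ S, Real.exp (-(T * Vq (Qn (QT H) q) ⌊(X : ℝ) ^ (1 / (r : ℝ))⌋₊)) *
            (T * Vq (Qn (QT H) q) ⌊(X : ℝ) ^ (1 / (r : ℝ))⌋₊) ^ j / j.factorial| ≤
          ε * (Y * RD (QT H) q) := by
  obtain ⟨B, hB⟩ : ∃ B : ℝ, B = 2 * A + (A + 2) * (k * k : ℕ) := ⟨_, rfl⟩
  have hkk : (0 : ℝ) ≤ ((k * k : ℕ) : ℝ) := Nat.cast_nonneg _
  have hB0 : 0 < B := by rw [hB]; positivity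
  obtain ⟨r0, hr02, h⟩ := two_law k hk B 1 θ x0 ε hB0 one_pos hθ hε
  refine ⟨r0, hr02, ?_⟩
  intro r hr
  filter_upwards [h r hr, eventually_ge_atTop 2] with X hX hX2
  intro H q hHk hH1 hadm hHq hqX Z Y hY T hT S
  have hX2r : (2 : ℝ) ≤ X := by exact_mod_cast hX2
  have hX0 : (0 : ℝ) < X := by linarith
  have hX1 : (1 : ℝ) ≤ X := by linarith
  have hAB : (X : ℝ) ^ A ≤ (X : ℝ) ^ B := Real.rpow_le_rpow_of_exponent_le hX1
    (by rw [hB]; nlinarith)
  obtain ⟨a, b, ha, hb, hab⟩ : ∃ a b : ℕ, a ∈ H ∧ b ∈ H ∧ a < b := by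
    obtain ⟨a, ha, b, hb, hne⟩ := one_lt_card.1 hH1
    rcases lt_or_gt_of_ne hne with h | h
    · exact ⟨a, b, ha, hb, h⟩
    · exact ⟨b, a, hb, ha, h⟩
  have hq1 : 1 ≤ q := by have := hHq a ha; omega
  refine hX (QT H) q (q * (b - a)) (perB_QT H k hHk) (fun p hp => by
    rw [nuB_QT H p hp]; exact hadm p hp) ?_ ?_ hq1 (hqX.trans hAB) ?_ ?_ Z Y hY T hT S
  · exact Nat.mul_pos hq1 (by omega)
  · have h1 : (((b - a : ℕ) : ℕ) : ℝ) ≤ (X : ℝ) ^ A := by
      refine le_trans ?_ hqX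
      have := hHq b hb
      exact_mod_cast (by omega : b - a ≤ q)
    push_cast [Nat.cast_sub hab.le] at h1 ⊢
    calc (q : ℝ) * ((b : ℝ) - a) ≤ (X : ℝ) ^ A * (X : ℝ) ^ A := by
          apply mul_le_mul hqX h1 _ (by positivity)
          have : (a : ℝ) ≤ b := by exact_mod_cast hab.le
          linarith
      _ = (X : ℝ) ^ (A + A) := by rw [← Real.rpow_add hX0]
      _ ≤ (X : ℝ) ^ B := Real.rpow_le_rpow_of_exponent_le hX1 (by rw [hB]; nlinarith)
  · intro p hp hpD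
    refine ⟨fun h1 => hpD (Dvd.dvd.mul_right h1 _), ?_⟩
    rw [nuB_QT H p hp]
    exact two_le_nuH H a b p ha hb hab (fun h1 => hpD (Dvd.dvd.mul_left h1 _))
  · intro t ht htX
    have hne : ∏ a ∈ H, ∏ b ∈ H, ((q : ℤ) * t + b - a) ≠ 0 := by
      rw [Finset.prod_ne_zero_iff]
      intro a ha
      rw [Finset.prod_ne_zero_iff]
      intro b hb
      have h1 : a < q * t := lt_of_lt_of_le (hHq a ha) (Nat.le_mul_of_pos_right q ht)
      have h2 : (a : ℤ) < q * t := by exact_mod_cast h1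
      have h3 : (0 : ℤ) ≤ b := by positivity
      omega
    refine ⟨(∏ a ∈ H, ∏ b ∈ H, ((q : ℤ) * t + b - a)).natAbs, Int.natAbs_pos.2 hne, ?_, ?_⟩
    · have hone : ∀ a ∈ H, ∀ b ∈ H, |((q : ℝ) * t + b - a)| ≤ (X : ℝ) ^ (A + 2) := by
        intro a ha b hb
        have ha' : (a : ℝ) ≤ (X : ℝ) ^ A := le_trans (by exact_mod_cast (hHq a ha).le) hqX
        have hb' : (b : ℝ) ≤ (X : ℝ) ^ A := le_trans (by exact_mod_cast (hHq b hb).le) hqX
        have ha0 : (0 : ℝ) ≤ a := Nat.cast_nonneg _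
        have hb0 : (0 : ℝ) ≤ b := Nat.cast_nonneg _
        have ht0 : (0 : ℝ) ≤ t := Nat.cast_nonneg _
        rw [Real.rpow_one] at htX
        have hqt : (q : ℝ) * t ≤ (X : ℝ) ^ A * X := by gcongr
        have hqt0 : (0 : ℝ) ≤ (q : ℝ) * t := by positivity
        have hXA : 0 < (X : ℝ) ^ A := Real.rpow_pos_of_pos hX0 _
        have h2 : (X : ℝ) ^ (A + 2) = (X : ℝ) ^ A * (X * X) := by
          rw [Real.rpow_add hX0, show (2 : ℝ) = ((2 : ℕ) : ℝ) by norm_num, Real.rpow_natCast, sq]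
        rw [h2, abs_le]
        have h3 : (X : ℝ) ^ A * X + (X : ℝ) ^ A ≤ (X : ℝ) ^ A * (X * X) := by
          have h4 : (X : ℝ) + 1 ≤ X * X := by nlinarith
          nlinarith
        have h5 : (X : ℝ) ^ A ≤ (X : ℝ) ^ A * X := by nlinarith
        constructor <;> linarith
      have h1 : (((∏ a ∈ H, ∏ b ∈ H, ((q : ℤ) * t + b - a)).natAbs : ℕ) : ℝ) =
          ∏ a ∈ H, ∏ b ∈ H, |((q : ℝ) * t + b - a)| := by
        rw [Nat.cast_natAbs]
        push_cast
        rw [Finset.abs_prod]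
        apply Finset.prod_congr rfl
        intro a _
        rw [Finset.abs_prod]
      rw [h1]
      have hM1 : (1 : ℝ) ≤ (X : ℝ) ^ (A + 2) := Real.one_le_rpow hX1 (by linarith)
      calc ∏ a ∈ H, ∏ b ∈ H, |((q : ℝ) * t + b - a)| ≤ ∏ _a ∈ H, ∏ _b ∈ H, (X : ℝ) ^ (A + 2) := by
            apply Finset.prod_le_prod
            · intro a _
              exact Finset.prod_nonneg fun b _ => abs_nonneg _
            · intro a ha
              apply Finset.prod_le_prod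
              · intro b _
                exact abs_nonneg _
              · intro b hb
                exact hone a ha b hb
        _ = ((X : ℝ) ^ (A + 2)) ^ (H.card * H.card) := by
            rw [Finset.prod_const, Finset.prod_const, ← pow_mul]
        _ ≤ ((X : ℝ) ^ (A + 2)) ^ (k * k) := pow_le_pow_right₀ hM1 (Nat.mul_le_mul hHk hHk)
        _ = (X : ℝ) ^ ((A + 2) * (k * k : ℕ)) := by
            rw [← Real.rpow_natCast, ← Real.rpow_mul hX0.le]
        _ ≤ (X : ℝ) ^ B := Real.rpow_le_rpow_of_exponent_le hX1 (by rw [hB]; linarith)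
    · intro p hp _ hco
      exact Int.natCast_dvd.1 (coll_QT H q t p hco)

end Pool.Agent.Y879.AP
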