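import Pool.Agent.Y879.AP.Phi

set_option autoImplicit false

/-!
# Systems with at least two classes: the Poisson law over residue classes, uniform version
-/

namespace Pool.Agent.Y879.AP

open Finset Filter
open Pool.Agent.W123.RP Pool.Agent.H373R2.T7 Pool.Agent.W123.RU Pool.Agent.TH464.PO Pool.Agent.TH464.PW

/-- no prime divisor of the modulus sifts `b` -/
def Red (Q : ℕ → ℕ → Prop) (q b : ℕ) : Prop := ∀ p : ℕ, p.Prime → p ∣ q → ¬ Q p b

/-- the density of the classes which are not sifted by the prime divisors of the modulus -/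
noncomputable def RD (Q : ℕ → ℕ → Prop) (q : ℕ) : ℝ := ∏ p ∈ q.primeFactors, (1 - (nuB Q p : ℝ) / p)

open Classical in
/-- the number of `1 ≤ h ≤ T` such that `b + q h` is sifted by all primes up to `y` -/
noncomputable def Ws (Q : ℕ → ℕ → Prop) (q y T b : ℕ) : ℕ :=
  ((Icc 1 T).filter (fun h => Sf Q y (b + q * h))).card

lemma sf_of_red (Q : ℕ → ℕ → Prop) (q y b : ℕ) (hb : Red Q q b) : Sf (Qd Q q) y b :=
  fun p hp h => hb p (mem_pz.1 hp).2 h.1 h.2

lemma W_of_red (Q : ℕ → ℕ → Prop) (hQ : ∀ p n, Q p n ↔ Q p (n % p)) (q y T b : ℕ) (hb : Red Q q b) :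
    W Q q y T b = Ws Q q y T b := by
  classical
  unfold W Ws
  apply card_iff
  intro h _
  unfold Sf Qn
  constructor
  · intro h1 p hp h2
    apply h1 p hp
    refine ⟨fun h3 => ?_, h2⟩
    apply hb p (mem_pz.1 hp).2 h3
    rw [hQ, ← Nat.add_mul_mod_self_left b p (q / p * h), ← hQ]
    rwa [← mul_assoc, Nat.mul_div_cancel' h3]
  · intro h1 p hp h2
    exact h1 p hp h2.2

open Classical in
/-- the integers of an interval in the classes of a condition -/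
lemma card_Q (Q : ℕ → ℕ → Prop) (c : ℕ) (hQ : PerB Q c) (Z Y p : ℕ) (hp : p.Prime) :
    (((Ioc Z (Z + Y)).filter (fun b => Q p b)).card : ℝ) ≤ c * (Y / p + 2) := by
  have h1 : (Ioc Z (Z + Y)).filter (fun b => Q p b) ⊆ ((range p).filter (fun r => Q p r)).biUnion
      (fun r => (Ioc Z (Z + Y)).filter (fun b => b % p = r)) := by
    intro b hb
    rw [mem_filter] at hb
    rw [mem_biUnion]
    refine ⟨b % p, ?_, mem_filter.2 ⟨hb.1, rfl⟩⟩
    rw [mem_filter]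
    exact ⟨mem_range.2 (Nat.mod_lt _ hp.pos), (hQ.per p b).1 hb.2⟩
  have h2 : ∀ r ∈ (range p).filter (fun r => Q p r),
      ((Ioc Z (Z + Y)).filter (fun b => b % p = r)).card ≤ Y / p + 2 := by
    intro r _
    have h3 : ((Ioc Z (Z + Y)).filter (fun b => b % p = r)).card ≤ (Icc (Z / p) ((Z + Y) / p)).card := by
      apply Finset.card_le_card_of_injOn (fun b => b / p)
      · intro b hb
        rw [Finset.mem_coe, mem_filter, mem_Ioc] at hb
        rw [Finset.mem_coe, mem_Icc]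
        exact ⟨Nat.div_le_div_right (by omega), Nat.div_le_div_right (by omega)⟩
      · intro a ha b hb hab
        rw [Finset.mem_coe, mem_filter] at ha hb
        beta_reduce at hab
        rw [← Nat.mod_add_div a p, ← Nat.mod_add_div b p, ha.2, hb.2, hab]
    rw [Nat.card_Icc] at h3
    have h4 : (Z + Y) / p ≤ Z / p + Y / p + 1 := by
      rw [Nat.add_div hp.pos]
      split_ifs <;> omega
    generalize (Z + Y) / p = u at h3 h4
    generalize Z / p = v at h3 h4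
    generalize Y / p = w at h4 ⊢
    omega
  have h3 := card_le_card h1
  have h4 := Finset.card_biUnion_le_card_mul _ _ _ h2
  have h5 : ((range p).filter (fun r => Q p r)).card ≤ c := by
    refine le_trans (le_of_eq ?_) (hQ.few p hp)
    unfold nuB
    rfl
  have h6 : ((Ioc Z (Z + Y)).filter (fun b => Q p b)).card ≤ c * (Y / p + 2) :=
    h3.trans (h4.trans (Nat.mul_le_mul_right _ h5))
  have h7 : ((Y / p : ℕ) : ℝ) ≤ Y / p := Nat.cast_div_le
  calc (((Ioc Z (Z + Y)).filter (fun b => Q p b)).card : ℝ) ≤ ((c * (Y / p + 2) : ℕ) : ℝ) := by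
        exact_mod_cast h6
    _ = c * (((Y / p : ℕ) : ℝ) + 2) := by push_cast; ring
    _ ≤ c * (Y / p + 2) := by gcongr

lemma RD_eq (Q : ℕ → ℕ → Prop) (q y : ℕ) (hq : q ≠ 0) : RD Q q =
    Vq (Qd Q q) y * ∏ p ∈ q.primeFactors.filter (fun p => y < p), (1 - (nuB Q p : ℝ) / p) := by
  have h1 : Vq (Qd Q q) y = ∏ p ∈ (pz y).filter (fun p => p ∣ q), (1 - (nuB Q p : ℝ) / p) := by
    unfold Vq
    rw [Finset.prod_filter]
    apply Finset.prod_congr rfl
    intro p hp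
    split_ifs with h
    · rw [nuB_Qd_dvd Q q p h]
    · rw [nuB_Qd_not Q q p h]
      simp
  rw [h1]
  unfold RD
  rw [← Finset.prod_filter_mul_prod_filter_not q.primeFactors (fun p => y < p), mul_comm]
  congr 1
  apply Finset.prod_congr _ (fun _ _ => rfl)
  ext p
  rw [mem_filter, mem_filter, mem_pz, Nat.mem_primeFactors]
  constructor
  · rintro ⟨⟨h3, h4, _⟩, h5⟩
    exact ⟨⟨by omega, h3⟩, h4⟩
  · rintro ⟨⟨h3, h4⟩, h5⟩
    exact ⟨⟨h4, h5, hq⟩, by omega⟩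

/-- the large prime divisors do not matter -/
lemma large_Q (c : ℕ) (A : ℝ) (hA : 0 < A) (r : ℕ) (hr : 2 ≤ r) (δ : ℝ) (hδ : 0 < δ) :
    ∀ᶠ X : ℕ in atTop, ∀ (Q : ℕ → ℕ → Prop) (q : ℕ), PerB Q c → (∀ p : ℕ, p.Prime → nuB Q p < p) →
      1 ≤ q → (q : ℝ) ≤ (X : ℝ) ^ A →
    1 - δ ≤ ∏ p ∈ q.primeFactors.filter (fun p => ⌊(X : ℝ) ^ (1 / (r : ℝ))⌋₊ < p), (1 - (nuB Q p : ℝ) / p) ∧
    ∏ p ∈ q.primeFactors.filter (fun p => ⌊(X : ℝ) ^ (1 / (r : ℝ))⌋₊ < p), (1 - (nuB Q p : ℝ) / p) ≤ 1 := by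
  have hrr : (2 : ℝ) ≤ r := by exact_mod_cast hr
  filter_upwards [Pool.Agent.Y879.GL.level_ok r hr, logpow_rpow 1 (2 * (c + 1) * A / δ) (1 / (r : ℝ))
    (by positivity) (by positivity), eventually_ge_atTop 1] with X h1 h2 h3
  obtain ⟨g1, g2, g3, g4, g5⟩ := h1
  intro Q q hQ hadm hq hqX
  obtain ⟨y, hy⟩ : ∃ y, y = ⌊(X : ℝ) ^ (1 / (r : ℝ))⌋₊ := ⟨_, rfl⟩
  rw [← hy] at g1 g2 g3 g4 ⊢
  have hX0 : (0 : ℝ) < X := by exact_mod_cast h3
  have hy0 : (0 : ℝ) < y := by exact_mod_cast (by omega : 0 < y)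
  have hly : 0 < Real.log y := by linarith
  constructor
  · have hyq : (X : ℝ) ^ (1 / (r : ℝ)) < y + 1 := by rw [hy]; exact Nat.lt_floor_add_one _
    have hy1 : (1 : ℝ) ≤ y := by exact_mod_cast (by omega : 1 ≤ y)
    obtain ⟨S, hS⟩ : ∃ S, S = q.primeFactors.filter (fun p => y < p) := ⟨_, rfl⟩
    rw [← hS]
    have hSp : ∀ p ∈ S, p.Prime ∧ y < p ∧ p ∣ q := by
      intro p hp
      rw [hS, mem_filter, Nat.mem_primeFactors] at hp
      exact ⟨hp.1.1, hp.2, hp.1.2.1⟩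
    have e1 : 1 - ∑ p ∈ S, (nuB Q p : ℝ) / p ≤ ∏ p ∈ S, (1 - (nuB Q p : ℝ) / p) := by
      apply prod_one_sub_ge
      · intro p _
        positivity
      · intro p hp
        have h4 := hadm p (hSp p hp).1
        have h5 : (0 : ℝ) < p := by exact_mod_cast (hSp p hp).1.pos
        rw [div_le_one h5]
        exact_mod_cast h4.le
    have e2 : ∑ p ∈ S, (nuB Q p : ℝ) / p ≤ S.card * (c / y) := by
      rw [← nsmul_eq_mul]
      apply Finset.sum_le_card_nsmul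
      intro p hp
      apply div_le_div₀ (Nat.cast_nonneg _) _ hy0 _
      · exact_mod_cast hQ.few p (hSp p hp).1
      · exact_mod_cast (hSp p hp).2.1.le
    have e3 := Pool.Agent.Y879.GL.card_primes_le S y q (by omega) (by omega) ((X : ℝ) ^ A) hqX hSp
    rw [Real.log_rpow hX0] at e3
    have e4 : (S.card : ℝ) * (c / y) ≤ δ := by
      rw [mul_div_assoc', div_le_iff₀ hy0]
      rw [pow_one, div_mul_eq_mul_div, div_le_iff₀ hδ] at h2
      have e5 : (S.card : ℝ) ≤ A * Real.log X := by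
        have : (S.card : ℝ) * 1 ≤ S.card * Real.log y := mul_le_mul_of_nonneg_left g4 (Nat.cast_nonneg _)
        linarith
      have e6 : (S.card : ℝ) * c ≤ A * Real.log X * (c + 1) := by
        apply mul_le_mul e5 (by linarith) (Nat.cast_nonneg _) (by positivity)
      have e7 : (X : ℝ) ^ (1 / (r : ℝ)) * δ ≤ 2 * y * δ := mul_le_mul_of_nonneg_right (by linarith) hδ.le
      linarith
    linarith
  · apply Finset.prod_le_one
    · intro p hp
      rw [mem_filter, Nat.mem_primeFactors] at hp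
      have h4 := hadm p hp.1.1
      have h5 : (0 : ℝ) < p := by exact_mod_cast hp.1.1.pos
      rw [sub_nonneg, div_le_one h5]
      exact_mod_cast h4.le
    · intro p hp
      have : 0 ≤ (nuB Q p : ℝ) / (p : ℝ) := by positivity
      linarith

open Classical in
/-- **The Poisson law over the residue classes modulo `q`**, uniformly in the systems with at least
two classes. -/
theorem two_law (c : ℕ) (hc : 1 ≤ c) (A δ θ x0 ε : ℝ) (hA : 0 < A) (hδ : 0 < δ) (hθ : 0 < θ) (hε : 0 < ε) :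
    ∃ r0 : ℕ, 2 ≤ r0 ∧ ∀ r : ℕ, r0 ≤ r → ∀ᶠ X : ℕ in atTop, ∀ (Q : ℕ → ℕ → Prop) (q D : ℕ),
      PerB Q c → (∀ p : ℕ, p.Prime → nuB Q p < p) → 1 ≤ D → (D : ℝ) ≤ (X : ℝ) ^ A → 1 ≤ q →
      (q : ℝ) ≤ (X : ℝ) ^ A → (∀ p : ℕ, p.Prime → ¬ p ∣ D → ¬ p ∣ q ∧ 2 ≤ nuB Q p) →
      (∀ t : ℕ, 1 ≤ t → (t : ℝ) ≤ (X : ℝ) ^ δ → ∃ R : ℕ, 1 ≤ R ∧ (R : ℝ) ≤ (X : ℝ) ^ A ∧
        ∀ p : ℕ, p.Prime → ¬ p ∣ q → CoG Q p (q * t) → p ∣ R) →
      ∀ Z Y : ℕ, (X : ℝ) ^ θ ≤ Y →
      ∀ T : ℕ, T * Vq (Qn Q q) ⌊(X : ℝ) ^ (1 / (r : ℝ))⌋₊ ≤ x0 → ∀ A : Finset ℕ,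
        |(((Ioc Z (Z + Y)).filter (fun n => Red Q q n ∧
          Ws Q q ⌊(X : ℝ) ^ (1 / (r : ℝ))⌋₊ T n ∈ A)).card : ℝ) -
          Y * RD Q q *
            ∑ j ∈ A, Real.exp (-(T * Vq (Qn Q q) ⌊(X : ℝ) ^ (1 / (r : ℝ))⌋₊)) *
            (T * Vq (Qn Q q) ⌊(X : ℝ) ^ (1 / (r : ℝ))⌋₊) ^ j / j.factorial| ≤
          ε * (Y * RD Q q) := by
  obtain ⟨ε1, hε1⟩ : ∃ ε1 : ℝ, ε1 = min ε 1 / 8 := ⟨_, rfl⟩
  have hε10 : 0 < ε1 := by rw [hε1]; positivity
  have hε11 : 8 * ε1 ≤ 1 := by rw [hε1]; have := min_le_right ε 1; linarith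
  have hε12 : 8 * ε1 ≤ ε := by rw [hε1]; have := min_le_left ε 1; linarith
  obtain ⟨K0, y0, T0, R0, η', κ, hη', hκ, hκ2, hlaw⟩ := ap_law c hc x0 ε1 hε10
  obtain ⟨r1, hr1⟩ : ∃ r1 : ℕ, ((K0 : ℝ) + 1) / θ ≤ r1 := exists_nat_ge _
  refine ⟨max r1 2, le_max_right _ _, ?_⟩
  intro r hr
  have hr2 : 2 ≤ r := (le_max_right _ _).trans hr
  have hrr : (2 : ℝ) ≤ r := by exact_mod_cast hr2
  have hrK1 : ((K0 : ℝ) + 1) / r ≤ θ := by
    have h1 : (r1 : ℝ) ≤ r := by exact_mod_cast (le_max_left _ _).trans hr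
    rw [div_le_iff₀ (by linarith)]
    rw [div_le_iff₀ hθ] at hr1
    nlinarith
  have hrK : (K0 : ℝ) / r ≤ θ := le_trans (by gcongr; linarith) hrK1
  have hrθ : 1 / (r : ℝ) ≤ θ := by
    refine le_trans ?_ hrK1
    apply div_le_div_of_nonneg_right _ (by linarith)
    have : (0 : ℝ) ≤ K0 := Nat.cast_nonneg _
    linarith
  obtain ⟨Cu, hCu, hVup⟩ := V_upper_unif
  obtain ⟨v, hv, hVlow⟩ := V_lower_unif c
  obtain ⟨x1, hx1⟩ : ∃ x1 : ℝ, x1 = max x0 1 := ⟨_, rfl⟩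
  have hx11 : 1 ≤ x1 := by rw [hx1]; exact le_max_right _ _
  have hlog : Tendsto (fun X : ℕ => Real.log (X : ℝ)) atTop atTop :=
    Real.tendsto_log_atTop.comp tendsto_natCast_atTop_atTop
  have hpowr : Tendsto (fun X : ℕ => (X : ℝ) ^ (1 / (r : ℝ))) atTop atTop :=
    (tendsto_rpow_atTop (by positivity)).comp tendsto_natCast_atTop_atTop
  -- the constants
  obtain ⟨M, hM⟩ : ∃ M : ℝ, M = Cu * (2 * r) ^ 2 * (64 * (A + 3)) := ⟨_, rfl⟩
  have hM0 : 0 < M := by rw [hM]; positivity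
  have hlog34 : Tendsto (fun X : ℕ => Real.log (X : ℝ) ^ (3 / 4 : ℝ)) atTop atTop :=
    (tendsto_rpow_atTop (by norm_num)).comp hlog
  filter_upwards [Pool.Agent.Y879.GL.level_ok r hr2, hpowr.eventually_ge_atTop (y0 : ℝ),
    logpow_rpow R0 ((x1 / v) ^ R0) θ (by positivity) hθ |>.and
      (logpow_rpow (c * R0) ((x1 / v) ^ R0) θ (by positivity) hθ),
    logpow_rpow c (x1 / v) δ (by positivity) hδ,
    large_Q c A hA r hr2 ε1 hε10,
    logpow_rpow 1 (2 * (A + 3)) (1 / (r : ℝ)) (by positivity) (by positivity),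
    logpow_rpow (c + 1) (16 * (c + 1) * (A + 1) / (v * ε1)) (1 / (r : ℝ)) (by positivity) (by positivity),
    hlog34.eventually_ge_atTop (M / κ), hlog34.eventually_ge_atTop (M * T0 / κ),
    hlog34.eventually_ge_atTop (M * A / (κ * η')), hlog34.eventually_ge_atTop (3 * M / κ),
    eventually_ge_atTop 3] with X g h3 h6 h7 h8 h9 h10 h11 h12 h13 h14 h15
  obtain ⟨g1, g2, g3, g4, g5⟩ := g
  intro Q q D hQ hadm hD hDX hq1 hqX hnu hcoll Z Y hXY T hT A'
  obtain ⟨y, hy⟩ : ∃ y, y = ⌊(X : ℝ) ^ (1 / (r : ℝ))⌋₊ := ⟨_, rfl⟩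
  rw [← hy] at g1 g2 g3 g4 hT ⊢
  have hX1 : (1 : ℝ) ≤ X := by exact_mod_cast (by omega : 1 ≤ X)
  have hX0 : (0 : ℝ) < X := by linarith
  have hlX : 0 < Real.log X := by linarith
  have hy0' : (0 : ℝ) < y := by exact_mod_cast (by omega : 0 < y)
  have hyX : (y : ℝ) ≤ (X : ℝ) ^ (1 / (r : ℝ)) := by rw [hy]; exact Nat.floor_le (by positivity)
  have hyX2 : (X : ℝ) ^ (1 / (r : ℝ)) ≤ 2 * y := by
    have h6 : (X : ℝ) ^ (1 / (r : ℝ)) < y + 1 := by rw [hy]; exact Nat.lt_floor_add_one _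
    have h7 : (1 : ℝ) ≤ y := by exact_mod_cast (by omega : 1 ≤ y)
    linarith
  have hyY : (y : ℝ) ≤ Y := by
    refine hyX.trans (le_trans ?_ hXY)
    exact Real.rpow_le_rpow_of_exponent_le hX1 hrθ
  have hY0 : (0 : ℝ) < Y := by linarith
  have hyK : y ^ K0 ≤ Y := by
    have e1 : ((y : ℝ)) ^ K0 ≤ (X : ℝ) ^ θ := by
      calc ((y : ℝ)) ^ K0 ≤ ((X : ℝ) ^ (1 / (r : ℝ))) ^ K0 :=
            pow_le_pow_left₀ (Nat.cast_nonneg _) hyX _
        _ = (X : ℝ) ^ ((K0 : ℝ) / r) := by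
            rw [← Real.rpow_natCast, ← Real.rpow_mul hX0.le]
            congr 1
            ring
        _ ≤ _ := Real.rpow_le_rpow_of_exponent_le hX1 hrK
    exact_mod_cast e1.trans hXY
  -- the upper bound for the density
  obtain ⟨z, hz⟩ : ∃ z : ℕ, z = ⌈A * Real.log X⌉₊ + 2 := ⟨_, rfl⟩
  have hz1 : A * Real.log X ≤ z := by
    rw [hz]
    push_cast
    have := Nat.le_ceil (A * Real.log X)
    linarith
  have hz2 : (z : ℝ) ≤ (A + 3) * Real.log X := by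
    rw [hz]
    push_cast
    have := (Nat.ceil_lt_add_one (by positivity : 0 ≤ A * Real.log X)).le
    linarith
  have hzy : z ≤ y := by
    rw [pow_one] at h9
    have : (z : ℝ) ≤ y := by linarith
    exact_mod_cast this
  have hz0 : (0 : ℝ) < z := by
    have : 2 ≤ z := by omega
    exact_mod_cast (by omega : 0 < z)
  have hlogD : Real.log D ≤ z := by
    refine le_trans ?_ hz1
    rw [← Real.log_rpow hX0]
    exact Real.log_le_log (by exact_mod_cast hD) hDX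
  have hV1 := hVup (Qn Q q) D (by omega) (adm_Qn Q hadm q) (fun p hp hpD => by
    rw [nuB_Qn_not Q q p (hnu p hp hpD).1]
    exact (hnu p hp hpD).2) z y (by omega) hzy hlogD
  have hly0 : 0 < Real.log y := by linarith
  have hlz0 : 0 ≤ Real.log z := Real.log_nonneg (by exact_mod_cast (by omega : 1 ≤ z))
  have hlz : Real.log z ^ 2 ≤ 64 * (A + 3) * Real.log X ^ (1 / 4 : ℝ) := by
    have e1 : Real.log z ≤ 8 * (z : ℝ) ^ (1 / 8 : ℝ) := by
      have e2 := Real.log_le_sub_one_of_pos (Real.rpow_pos_of_pos hz0 (1 / 8 : ℝ))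
      rw [Real.log_rpow hz0] at e2
      linarith
    have e3 : Real.log z ^ 2 ≤ (8 * (z : ℝ) ^ (1 / 8 : ℝ)) ^ 2 := pow_le_pow_left₀ hlz0 e1 2
    refine e3.trans ?_
    rw [mul_pow, ← Real.rpow_natCast ((z : ℝ) ^ (1 / 8 : ℝ)), ← Real.rpow_mul hz0.le]
    have e4 : (z : ℝ) ^ ((1 / 8 : ℝ) * ((2 : ℕ) : ℝ)) ≤ (A + 3) * Real.log X ^ (1 / 4 : ℝ) := by
      rw [show (1 / 8 : ℝ) * ((2 : ℕ) : ℝ) = 1 / 4 by norm_num]
      calc (z : ℝ) ^ (1 / 4 : ℝ) ≤ ((A + 3) * Real.log X) ^ (1 / 4 : ℝ) :=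
            Real.rpow_le_rpow hz0.le hz2 (by norm_num)
        _ = (A + 3) ^ (1 / 4 : ℝ) * Real.log X ^ (1 / 4 : ℝ) :=
            Real.mul_rpow (by linarith) hlX.le
        _ ≤ (A + 3) * Real.log X ^ (1 / 4 : ℝ) := by
            apply mul_le_mul_of_nonneg_right _ (by positivity)
            calc (A + 3) ^ (1 / 4 : ℝ) ≤ (A + 3) ^ (1 : ℝ) :=
                  Real.rpow_le_rpow_of_exponent_le (by linarith) (by norm_num)
              _ = A + 3 := Real.rpow_one _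
    calc (8 : ℝ) ^ 2 * (z : ℝ) ^ ((1 / 8 : ℝ) * ((2 : ℕ) : ℝ)) ≤
        (8 : ℝ) ^ 2 * ((A + 3) * Real.log X ^ (1 / 4 : ℝ)) := mul_le_mul_of_nonneg_left e4 (by norm_num)
      _ = _ := by ring
  have hl74 : Real.log X ^ (1 / 4 : ℝ) * Real.log X ^ (3 / 4 : ℝ) = Real.log X := by
    rw [← Real.rpow_add hlX]
    norm_num
  have hl34 : 0 < Real.log X ^ (3 / 4 : ℝ) := by positivity
  -- V ≤ M / (log X * (log X)^(3/4))
  have hV2 : Vq (Qn Q q) y ≤ M / (Real.log X * Real.log X ^ (3 / 4 : ℝ)) := by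
    refine hV1.trans ?_
    rw [div_pow, mul_div_assoc', div_le_div_iff₀ (by positivity) (by positivity)]
    have e1 : Real.log X ^ 2 ≤ (2 * r) ^ 2 * Real.log y ^ 2 := by
      rw [← mul_pow]
      apply pow_le_pow_left₀ hlX.le
      rw [div_le_iff₀ (by positivity)] at g2
      linarith
    calc Cu * Real.log z ^ 2 * (Real.log X * Real.log X ^ (3 / 4 : ℝ)) ≤
        Cu * (64 * (A + 3) * Real.log X ^ (1 / 4 : ℝ)) * (Real.log X * Real.log X ^ (3 / 4 : ℝ)) := by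
          gcongr
      _ = Cu * (64 * (A + 3)) * ((Real.log X ^ (1 / 4 : ℝ) * Real.log X ^ (3 / 4 : ℝ)) * Real.log X) := by
          ring
      _ = Cu * (64 * (A + 3)) * Real.log X ^ 2 := by rw [hl74]; ring
      _ ≤ Cu * (64 * (A + 3)) * ((2 * r) ^ 2 * Real.log y ^ 2) := by gcongr
      _ = M * Real.log y ^ 2 := by rw [hM]; ring
  have hV0 : 0 < Vq (Qn Q q) y := Vq_pos (Qn Q q) (adm_Qn Q hadm q) y
  have hV3 : Vq (Qn Q q) y ≤ M / Real.log X ^ (3 / 4 : ℝ) := by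
    refine hV2.trans ?_
    apply div_le_div_of_nonneg_left hM0.le hl34
    calc Real.log X ^ (3 / 4 : ℝ) = 1 * Real.log X ^ (3 / 4 : ℝ) := (one_mul _).symm
      _ ≤ _ := mul_le_mul_of_nonneg_right g5 hl34.le
  have hVκ : Vq (Qn Q q) y ≤ κ := by
    refine hV3.trans ?_
    rw [div_le_iff₀ hl34]
    rw [div_le_iff₀ hκ] at h11
    linarith
  have hVlo : v / Real.log X ^ c ≤ Vq (Qn Q q) y := by
    refine le_trans ?_ (hVlow (Qn Q q) (perB_Qn Q c hQ q) (adm_Qn Q hadm q) y (by omega))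
    apply div_le_div_of_nonneg_left hv.le (by positivity)
    exact pow_le_pow_left₀ hly0.le g3 c
  obtain ⟨hL1, hL2⟩ := hlaw Q q Z Y y hQ hadm (by rw [hy]; exact Nat.le_floor h3) hyK hVκ (by
    intro T hT1 hT2
    have hTr : (0 : ℝ) ≤ T := Nat.cast_nonneg _
    have hTlow : κ / M * (Real.log X * Real.log X ^ (3 / 4 : ℝ)) ≤ T := by
      have e1 : κ ≤ T * (M / (Real.log X * Real.log X ^ (3 / 4 : ℝ))) :=
        hT1.trans (mul_le_mul_of_nonneg_left hV2 hTr)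
      rw [mul_div_assoc', le_div_iff₀ (by positivity)] at e1
      rw [div_mul_eq_mul_div, div_le_iff₀ hM0]
      exact e1
    have hTlow2 : κ / M * Real.log X ^ (3 / 4 : ℝ) ≤ T := by
      refine le_trans ?_ hTlow
      apply mul_le_mul_of_nonneg_left _ (by positivity)
      calc Real.log X ^ (3 / 4 : ℝ) = 1 * Real.log X ^ (3 / 4 : ℝ) := (one_mul _).symm
        _ ≤ _ := mul_le_mul_of_nonneg_right g5 hl34.le
    have hTup : (T : ℝ) ≤ x1 / v * Real.log X ^ c := by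
      rw [← hx1] at hT2
      have e2 : T * (v / Real.log X ^ c) ≤ x1 := (mul_le_mul_of_nonneg_left hVlo hTr).trans hT2
      rw [mul_div_assoc', div_le_iff₀ (by positivity)] at e2
      rw [div_mul_eq_mul_div, le_div_iff₀ hv]
      exact e2
    have hT3 : (3 : ℝ) ≤ T := by
      refine le_trans ?_ hTlow2
      rw [div_le_iff₀ hκ] at h14
      rw [div_mul_eq_mul_div, le_div_iff₀ hM0]
      linarith
    have hT3' : 3 ≤ T := by exact_mod_cast hT3
    refine ⟨?_, ?_, ?_⟩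
    · have e1 : (T0 : ℝ) ≤ T := by
        refine le_trans ?_ hTlow2
        rw [div_le_iff₀ hκ] at h12
        rw [div_mul_eq_mul_div, le_div_iff₀ hM0]
        linarith
      exact_mod_cast e1
    · have e3 : ((T : ℝ)) ^ R0 ≤ Y := by
        calc ((T : ℝ)) ^ R0 ≤ (x1 / v * Real.log X ^ c) ^ R0 := pow_le_pow_left₀ hTr hTup _
          _ = (x1 / v) ^ R0 * Real.log X ^ (c * R0) := by rw [mul_pow, ← pow_mul]
          _ ≤ _ := h6.2
          _ ≤ _ := hXY
      exact_mod_cast e3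
    · intro t ht
      rw [mem_Icc] at ht
      obtain ⟨R, hR1, hR2, hR3⟩ := hcoll t ht.1 (by
        calc (t : ℝ) ≤ T := by exact_mod_cast ht.2
          _ ≤ x1 / v * Real.log X ^ c := hTup
          _ ≤ _ := h7)
      have e1 := Pool.Agent.Y879.GL.card_primes_le
        ((pz y).filter (fun p : ℕ => T < p ∧ ¬ p ∣ q ∧ CoG Q p (q * t))) T R (by omega) (by omega)
        ((X : ℝ) ^ A) hR2 (by
          intro p hp
          rw [mem_filter] at hp
          exact ⟨(mem_pz.1 hp.1).2, hp.2.1, hR3 p (mem_pz.1 hp.1).2 hp.2.2.1 hp.2.2.2⟩)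
      rw [Real.log_rpow hX0] at e1
      have e2 : 1 ≤ Real.log T := by
        have := Real.log_le_log (Real.exp_pos 1) (le_trans (by
          have := Real.exp_one_lt_d9
          linarith) hT3)
        rwa [Real.log_exp] at this
      have e3 : ((((pz y).filter (fun p : ℕ => T < p ∧ ¬ p ∣ q ∧ CoG Q p (q * t))).card : ℕ) : ℝ) ≤
          A * Real.log X := by
        refine le_trans ?_ e1
        calc _ = ((((pz y).filter (fun p : ℕ => T < p ∧ ¬ p ∣ q ∧ CoG Q p (q * t))).card : ℕ) : ℝ) * 1 :=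
              (mul_one _).symm
          _ ≤ _ := mul_le_mul_of_nonneg_left e2 (Nat.cast_nonneg _)
      refine e3.trans ?_
      refine le_trans ?_ (mul_le_mul_of_nonneg_left hTlow hη'.le)
      rw [div_le_iff₀ (by positivity)] at h13
      calc A * Real.log X = (M * A) / M * Real.log X := by field_simp
        _ ≤ (Real.log X ^ (3 / 4 : ℝ) * (κ * η')) / M * Real.log X := by gcongr
        _ = η' * (κ / M * (Real.log X * Real.log X ^ (3 / 4 : ℝ))) := by ring)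
  have hL3 := hL2 T hT A'
  obtain ⟨hE1, hE2⟩ := h8 Q q hQ hadm hq1 hqX
  rw [← hy] at hE1 hE2
  rw [RD_eq Q q y (by omega)]
  obtain ⟨E, hE⟩ : ∃ E, E = ∏ p ∈ q.primeFactors.filter (fun p => y < p), (1 - (nuB Q p : ℝ) / p) :=
    ⟨_, rfl⟩
  rw [← hE] at hE1 hE2 ⊢
  obtain ⟨V1, hV1d⟩ : ∃ V1, V1 = Vq (Qd Q q) y := ⟨_, rfl⟩
  have hV1low : v / Real.log X ^ c ≤ V1 := by
    rw [hV1d]
    refine le_trans ?_ (hVlow (Qd Q q) (perB_Qd Q c hQ q) (adm_Qd Q hadm q) y (by omega))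
    apply div_le_div_of_nonneg_left hv.le (by positivity)
    exact pow_le_pow_left₀ hly0.le g3 c
  have hV10 : 0 < V1 := lt_of_lt_of_le (by positivity) hV1low
  rw [← hV1d] at hL3 ⊢
  have hx00 : 0 ≤ T * Vq (Qn Q q) y := mul_nonneg (Nat.cast_nonneg _) (Vq_nonneg _ _)
  have hP0 := pois_nonneg _ hx00 A'
  have hP1 := pois_le_one _ hx00 A'
  obtain ⟨P, hP⟩ : ∃ P : ℝ, P = ∑ j ∈ A', Real.exp (-(T * Vq (Qn Q q) y)) *
      (T * Vq (Qn Q q) y) ^ j / j.factorial := ⟨_, rfl⟩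
  rw [← hP] at hL3 hP0 hP1 ⊢
  obtain ⟨S1, hS1⟩ : ∃ S1, S1 = (Ioc Z (Z + Y)).filter (fun n => Red Q q n ∧ Ws Q q y T n ∈ A') :=
    ⟨_, rfl⟩
  obtain ⟨S2, hS2⟩ : ∃ S2, S2 = (Ioc Z (Z + Y)).filter
    (fun n => Sf (Qd Q q) y n ∧ W Q q y T n ∈ A') := ⟨_, rfl⟩
  obtain ⟨PL, hPL⟩ : ∃ PL, PL = q.primeFactors.filter (fun p => y < p) := ⟨_, rfl⟩
  obtain ⟨Bd, hBd⟩ : ∃ Bd, Bd = PL.biUnion (fun p => (Ioc Z (Z + Y)).filter (fun b => Q p b)) :=
    ⟨_, rfl⟩
  have hPLp : ∀ p ∈ PL, p.Prime ∧ y < p ∧ p ∣ q := by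
    intro p hp
    rw [hPL, mem_filter, Nat.mem_primeFactors] at hp
    exact ⟨hp.1.1, hp.2, hp.1.2.1⟩
  rw [← hS1]
  rw [← hS2] at hL3
  have hsub : S1 ⊆ S2 := by
    intro n hn
    rw [hS1, mem_filter] at hn
    rw [hS2, mem_filter]
    refine ⟨hn.1, sf_of_red Q q y n hn.2.1, ?_⟩
    rw [W_of_red Q hQ.per q y T n hn.2.1]
    exact hn.2.2
  have hsub2 : S2 ⊆ S1 ∪ Bd := by
    intro n hn
    rw [hS2, mem_filter] at hn
    obtain ⟨n1, n2, n3⟩ := hn
    by_cases hred : Red Q q n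
    · rw [mem_union]
      left
      rw [hS1, mem_filter]
      refine ⟨n1, hred, ?_⟩
      rw [← W_of_red Q hQ.per q y T n hred]
      exact n3
    · rw [mem_union]
      right
      unfold Red at hred
      push Not at hred
      obtain ⟨p, hp, hpq, hpn⟩ := hred
      rw [hBd, mem_biUnion]
      refine ⟨p, ?_, mem_filter.2 ⟨n1, hpn⟩⟩
      rw [hPL, mem_filter, Nat.mem_primeFactors]
      refine ⟨⟨hp, hpq, by omega⟩, ?_⟩
      by_contra hpy
      exact n2 p (mem_pz.2 ⟨by omega, hp⟩) ⟨hpq, hpn⟩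
  have hBdc : (Bd.card : ℝ) ≤ ε1 * (Y * V1) := by
    have b1 : (Bd.card : ℝ) ≤ ∑ p ∈ PL, (c : ℝ) * ((Y : ℝ) / p + 2) := by
      rw [hBd]
      have b2 : (((PL.biUnion (fun p => (Ioc Z (Z + Y)).filter (fun b => Q p b))).card : ℕ) : ℝ) ≤
          ((∑ p ∈ PL, ((Ioc Z (Z + Y)).filter (fun b => Q p b)).card : ℕ) : ℝ) := by
        exact_mod_cast Finset.card_biUnion_le
      refine b2.trans ?_
      push_cast
      apply Finset.sum_le_sum
      intro p hp
      exact card_Q Q c hQ Z Y p (hPLp p hp).1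
    have b3 : ∑ p ∈ PL, (c : ℝ) * ((Y : ℝ) / p + 2) ≤ PL.card * (c * (3 * (Y / y))) := by
      rw [← nsmul_eq_mul]
      apply Finset.sum_le_card_nsmul
      intro p hp
      apply mul_le_mul_of_nonneg_left _ (Nat.cast_nonneg _)
      have b4 : (Y : ℝ) / p ≤ Y / y := by
        apply div_le_div_of_nonneg_left hY0.le hy0'
        exact_mod_cast (hPLp p hp).2.1.le
      have b5 : 1 ≤ (Y : ℝ) / y := by
        rw [le_div_iff₀ hy0', one_mul]
        exact hyY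
      linarith
    have b6 : (PL.card : ℝ) ≤ A * Real.log X := by
      have b7 := Pool.Agent.Y879.GL.card_primes_le PL y q (by omega) (by omega) ((X : ℝ) ^ A) hqX hPLp
      rw [Real.log_rpow hX0] at b7
      have : (PL.card : ℝ) * 1 ≤ PL.card * Real.log y := mul_le_mul_of_nonneg_left g4 (Nat.cast_nonneg _)
      linarith
    have b10 : (Bd.card : ℝ) ≤ A * Real.log X * (c * (3 * (Y / y))) :=
      b1.trans (b3.trans (mul_le_mul_of_nonneg_right b6 (by positivity)))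
    refine b10.trans ?_
    have b11 : 3 * c * A * Real.log X / y ≤ ε1 * V1 := by
      refine le_trans ?_ (mul_le_mul_of_nonneg_left hV1low hε10.le)
      rw [mul_div_assoc', div_le_div_iff₀ hy0' (by positivity)]
      rw [div_mul_eq_mul_div, div_le_iff₀ (by positivity)] at h10
      have b13 : (X : ℝ) ^ (1 / (r : ℝ)) * (v * ε1) ≤ 2 * y * (v * ε1) :=
        mul_le_mul_of_nonneg_right hyX2 (by positivity)
      have b14 : 3 * c * A * Real.log X * Real.log X ^ c ≤ 8 * (c + 1) * (A + 1) * Real.log X ^ (c + 1) := by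
        rw [mul_assoc (3 * (c : ℝ) * A), ← pow_succ']
        apply mul_le_mul_of_nonneg_right _ (by positivity)
        have : (0 : ℝ) ≤ c := Nat.cast_nonneg _
        nlinarith [mul_nonneg this hA.le]
      linarith
    calc A * Real.log X * (c * (3 * ((Y : ℝ) / y))) = Y * (3 * c * A * Real.log X / y) := by ring
      _ ≤ Y * (ε1 * V1) := mul_le_mul_of_nonneg_left b11 hY0.le
      _ = _ := by ring
  have hS1S2 : |(S1.card : ℝ) - S2.card| ≤ ε1 * (Y * V1) := by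
    have b1 : (S1.card : ℝ) ≤ S2.card := by exact_mod_cast card_le_card hsub
    have b2 : (S2.card : ℝ) ≤ S1.card + Bd.card := by
      have : S2.card ≤ S1.card + Bd.card := (card_le_card hsub2).trans (card_union_le _ _)
      exact_mod_cast this
    rw [abs_le]
    constructor <;> linarith
  have hYV : 0 < Y * V1 := by positivity
  have hEE : |(Y * V1) * P - Y * (V1 * E) * P| ≤ ε1 * (Y * V1) := by
    have b1 : (Y * V1) * P - Y * (V1 * E) * P = (Y * V1) * ((1 - E) * P) := by ring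
    have b2 : 0 ≤ 1 - E := by linarith
    rw [b1, abs_of_nonneg (by positivity)]
    calc (Y * V1) * ((1 - E) * P) ≤ (Y * V1) * (ε1 * 1) := by
          apply mul_le_mul_of_nonneg_left _ hYV.le
          apply mul_le_mul _ hP1 hP0 hε10.le
          linarith
      _ = _ := by ring
  have t1 := abs_sub_le (S1.card : ℝ) S2.card (Y * V1 * P)
  have t2 := abs_sub_le (S1.card : ℝ) (Y * V1 * P) (Y * (V1 * E) * P)
  have t3 : Y * V1 ≤ 2 * (Y * (V1 * E)) := by
    have : 1 / 2 ≤ E := by linarith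
    have := mul_le_mul_of_nonneg_left this hYV.le
    linarith
  have t4 : 3 * ε1 * (Y * V1) ≤ 3 * ε1 * (2 * (Y * (V1 * E))) :=
    mul_le_mul_of_nonneg_left t3 (by positivity)
  have t5 : 0 < Y * (V1 * E) := by linarith
  have t6 : 8 * ε1 * (Y * (V1 * E)) ≤ ε * (Y * (V1 * E)) := mul_le_mul_of_nonneg_right hε12 t5.le
  have t7 : 0 < ε1 * (Y * (V1 * E)) := by positivity
  linarith

end Pool.Agent.Y879.AP
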