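import Pool.Agent.Y879.AP.Phi
import Pool.Agent.Y879.AP.Law

set_option autoImplicit false

/-!
# Moments of the number of almost primes in the reduced residue classes modulo `q`
-/

namespace Pool.Agent.Y879.AP

open Finset Filter
open Pool.Agent.W123.RP Pool.Agent.H373R2.T7 Pool.Agent.W123.RU Pool.Agent.TH464.PO Pool.Agent.TH464.PW

/-- there are no collisions modulo large primes -/
lemma no_coll (Z q T y : ℕ) (t : ℕ) (ht : t ∈ Icc 1 T) : by
    classical exact (pz y).filter (fun p : ℕ => T < p ∧ ¬ p ∣ q ∧ CoG (Qt Ql Z) p (q * t)) = ∅ := by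
  classical
  rw [Finset.filter_eq_empty_iff]
  rintro p hp ⟨h1, h2, m, h3, h4⟩
  have hpp := (mem_pz.1 hp).2
  rw [mem_Icc] at ht
  unfold Qt Ql at h3 h4
  have h5 : m + q * t + Z = (m + Z) + q * t := by ring
  rw [h5] at h4
  have h6 := (Nat.dvd_add_right h3).1 h4
  rcases hpp.dvd_mul.1 h6 with h7 | h7
  · exact h2 h7
  · have := Nat.le_of_dvd (by omega) h7
    omega

/-- the sums over the shifted interval -/
lemma sum_shift (Z Y : ℕ) (P P' : ℕ → Prop) (i1 : DecidablePred P) (i2 : DecidablePred P') (f g : ℕ → ℝ)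
    (h : ∀ n, P' n ↔ P (n + Z)) (hfg : ∀ n, g n = f (n + Z)) :
    ∑ n ∈ @Finset.filter _ P i1 (Ioc Z (Z + Y)), f n = ∑ n ∈ @Finset.filter _ P' i2 (Icc 1 Y), g n := by
  symm
  apply Finset.sum_bij (fun n _ => n + Z)
  · intro n hn
    rw [mem_filter, mem_Icc] at hn
    rw [mem_filter, mem_Ioc]
    exact ⟨by omega, (h n).1 hn.2⟩
  · intro a _ b _ hab
    omega
  · intro n hn
    rw [mem_filter, mem_Ioc] at hn
    refine ⟨n - Z, ?_, by omega⟩
    rw [mem_filter, mem_Icc, h, show n - Z + Z = n by omega]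
    exact ⟨by omega, hn.2⟩
  · intro n _
    exact hfg n

lemma Vn_ge (q y : ℕ) : Vz y ≤ Vq (Qn Ql q) y := by
  have h1 := Vd_mul_Vn Ql q y
  rw [Vq_Ql] at h1
  have h2 : Vq (Qd Ql q) y * Vq (Qn Ql q) y ≤ 1 * Vq (Qn Ql q) y :=
    mul_le_mul_of_nonneg_right (Vq_le_one (Qd Ql q) y) (Vq_nonneg _ _)
  linarith

lemma Vd_ge' (q y : ℕ) : Vz y ≤ Vq (Qd Ql q) y := by
  have h1 := Vd_mul_Vn Ql q y
  rw [Vq_Ql] at h1
  have h2 : Vq (Qd Ql q) y * Vq (Qn Ql q) y ≤ Vq (Qd Ql q) y * 1 :=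
    mul_le_mul_of_nonneg_left (Vq_le_one (Qn Ql q) y) (Vq_nonneg _ _)
  linarith

open Classical in
/-- **Binomial moments over the reduced classes of every modulus.** -/
theorem bin_mom (k : ℕ) (θ ε : ℝ) (hθ : 0 < θ) (hε : 0 < ε) :
    ∃ r0 T0 : ℕ, 2 ≤ r0 ∧ ∀ r : ℕ, r0 ≤ r → ∀ᶠ q : ℕ in atTop, ∀ Z Y : ℕ, (q : ℝ) ^ θ ≤ Y →
      ∀ T : ℕ, T0 ≤ T →
        |∑ n ∈ (Ioc Z (Z + Y)).filter (fun n => n.Coprime q),
            ((Wr q ⌊(q : ℝ) ^ (1 / (r : ℝ))⌋₊ T n).choose (k + 1) : ℝ) -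
          Y * ((q.totient : ℝ) / q) *
            ((T * Vq (Qn Ql q) ⌊(q : ℝ) ^ (1 / (r : ℝ))⌋₊) ^ (k + 1) / (k + 1).factorial)| ≤
          ε * (Y * ((q.totient : ℝ) / q) *
            ((T * Vq (Qn Ql q) ⌊(q : ℝ) ^ (1 / (r : ℝ))⌋₊) ^ (k + 1) / (k + 1).factorial)) := by
  obtain ⟨ε1, hε1⟩ : ∃ ε1 : ℝ, ε1 = min ε 1 / 16 := ⟨_, rfl⟩
  have hε10 : 0 < ε1 := by rw [hε1]; positivity
  have hε11 : 16 * ε1 ≤ 1 := by rw [hε1]; have := min_le_right ε 1; linarith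
  have hε12 : 16 * ε1 ≤ ε := by rw [hε1]; have := min_le_left ε 1; linarith
  obtain ⟨K0, y0, T0, η', hη', hmom⟩ := moment 1 k le_rfl ε1 hε10 (by linarith)
  obtain ⟨c, C, hc, hC, hV⟩ := Vz_bounds
  obtain ⟨r1, hr1⟩ : ∃ r1 : ℕ, (K0 + 1 : ℝ) / θ ≤ r1 := exists_nat_ge _
  refine ⟨max r1 2, max T0 1, le_max_right _ _, ?_⟩
  intro r hr
  have hr2 : 2 ≤ r := (le_max_right _ _).trans hr
  have hrr : (2 : ℝ) ≤ r := by exact_mod_cast hr2
  have hr0 : (0 : ℝ) < r := by linarith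
  have hrK1 : (K0 + 1 : ℝ) ≤ θ * r := by
    have h1 : (r1 : ℝ) ≤ r := by exact_mod_cast (le_max_left _ _).trans hr
    rw [div_le_iff₀ hθ] at hr1
    calc (K0 + 1 : ℝ) ≤ r1 * θ := hr1
      _ ≤ r * θ := mul_le_mul_of_nonneg_right h1 hθ.le
      _ = _ := mul_comm _ _
  have hK00 : (0 : ℝ) ≤ K0 := Nat.cast_nonneg _
  have hrK : (K0 : ℝ) / r ≤ θ := by
    rw [div_le_iff₀ hr0]
    linarith
  have hrθ : 1 / (r : ℝ) ≤ θ := by
    rw [div_le_iff₀ hr0]
    linarith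
  have hf0 : (0 : ℝ) < ((k + 1).factorial : ℝ) := by exact_mod_cast Nat.factorial_pos _
  have hpowr : Tendsto (fun q : ℕ => (q : ℝ) ^ (1 / (r : ℝ))) atTop atTop :=
    (tendsto_rpow_atTop (by positivity)).comp tendsto_natCast_atTop_atTop
  filter_upwards [large_part r hr2 ε1 hε10, Pool.Agent.Y879.GL.level_ok r hr2,
    hpowr.eventually_ge_atTop ((y0 : ℝ) + 1),
    logpow_rpow (k + 2) (8 * r * (k + 1).factorial / (ε1 * c ^ (k + 2))) (1 / (r : ℝ)) (by positivity)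
      (by positivity),
    logpow_rpow (k + 2) ((k + 1).factorial / (ε1 * c ^ (k + 2))) (θ / 2) (by positivity)
      (by positivity), eventually_ge_atTop 1] with q h2 h3 h4 h5 h6 h7
  obtain ⟨g1, g2, g3, g4, g5⟩ := h3
  obtain ⟨y, hy⟩ : ∃ y, y = ⌊(q : ℝ) ^ (1 / (r : ℝ))⌋₊ := ⟨_, rfl⟩
  rw [← hy] at h2 g1 g2 g3 g4 ⊢
  intro Z Y hqY T hT
  have hT0 : T0 ≤ T := (le_max_left _ _).trans hT
  have hT1 : 1 ≤ T := (le_max_right _ _).trans hT
  have hq1 : (1 : ℝ) ≤ q := by exact_mod_cast h7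
  have hq0 : (0 : ℝ) < q := by linarith
  have hlq : 0 < Real.log q := by linarith
  have hy0 : (0 : ℝ) < y := by exact_mod_cast (by omega : 0 < y)
  have hyq : (y : ℝ) ≤ (q : ℝ) ^ (1 / (r : ℝ)) := by rw [hy]; exact Nat.floor_le (by positivity)
  have hyq2 : (q : ℝ) ^ (1 / (r : ℝ)) ≤ 2 * y := by
    have h6 : (q : ℝ) ^ (1 / (r : ℝ)) < y + 1 := by rw [hy]; exact Nat.lt_floor_add_one _
    have h7 : (1 : ℝ) ≤ y := by exact_mod_cast (by omega : 1 ≤ y)
    linarith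
  have hyY : (y : ℝ) ≤ Y := by
    refine hyq.trans (le_trans ?_ hqY)
    exact Real.rpow_le_rpow_of_exponent_le hq1 hrθ
  have hY0 : (0 : ℝ) < Y := by linarith
  have hyy0 : y0 ≤ y := by
    rw [hy]
    apply Nat.le_floor
    linarith
  have hyK : y ^ K0 ≤ Y := by
    have e1 : ((y : ℝ)) ^ K0 ≤ (q : ℝ) ^ θ := by
      calc ((y : ℝ)) ^ K0 ≤ ((q : ℝ) ^ (1 / (r : ℝ))) ^ K0 :=
            pow_le_pow_left₀ (Nat.cast_nonneg _) hyq _
        _ = (q : ℝ) ^ ((K0 : ℝ) / r) := by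
            rw [← Real.rpow_natCast, ← Real.rpow_mul hq0.le]
            congr 1
            ring
        _ ≤ _ := Real.rpow_le_rpow_of_exponent_le hq1 hrK
    exact_mod_cast e1.trans hqY
  -- the densities
  obtain ⟨V, hVdef⟩ : ∃ V, V = Vq (Qn Ql q) y := ⟨_, rfl⟩
  obtain ⟨V1, hV1⟩ : ∃ V1, V1 = Vq (Qd Ql q) y := ⟨_, rfl⟩
  have hVz : c / Real.log q ≤ Vz y := by
    refine le_trans ?_ (hV y (by omega)).1
    exact div_le_div_of_nonneg_left hc.le (by linarith) g3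
  have hVlow : c / Real.log q ≤ V := by rw [hVdef]; exact hVz.trans (Vn_ge q y)
  have hV1low : c / Real.log q ≤ V1 := by rw [hV1]; exact hVz.trans (Vd_ge' q y)
  have hcl : 0 < c / Real.log q := by positivity
  have hV0 : 0 < V := lt_of_lt_of_le hcl hVlow
  have hV10 : 0 < V1 := lt_of_lt_of_le hcl hV1low
  -- the main term
  obtain ⟨M, hM⟩ : ∃ M : ℝ, M = (T * V) ^ (k + 1) / (k + 1).factorial := ⟨_, rfl⟩
  have hTr : (1 : ℝ) ≤ T := by exact_mod_cast hT1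
  have hTk : (0 : ℝ) < (T : ℝ) ^ (k + 1) := by positivity
  have hM0 : 0 < M := by rw [hM]; positivity
  -- `c ^ (k + 2) / log ^ (k + 2) T ^ (k + 1) ≤ V1 M (k + 1)!`
  have hkey : (c / Real.log q) ^ (k + 2) * (T : ℝ) ^ (k + 1) ≤ V1 * M * (k + 1).factorial := by
    have e1 : V1 * M * (k + 1).factorial = V1 * V ^ (k + 1) * (T : ℝ) ^ (k + 1) := by
      rw [hM, mul_pow]
      field_simp
    rw [e1]
    apply mul_le_mul_of_nonneg_right _ hTk.le
    rw [pow_succ, mul_comm]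
    exact mul_le_mul hV1low (pow_le_pow_left₀ hcl.le hVlow _) (by positivity) hV10.le
  rw [← hVdef]
  rw [← hM]
  have h8 := hmom Y y T hyy0 hyK hT0 (Qt Ql Z) q (perB_Qt Ql 1 perB_Ql Z) (fun p hp => by
      rw [nuB_Qt Ql 1 perB_Ql]
      exact adm_Ql p hp) (fun t ht => by
        have e := no_coll Z q T y t ht
        have e2 : ((pz y).filter (fun p : ℕ => T < p ∧ ¬ p ∣ q ∧ CoG (Qt Ql Z) p (q * t))) = ∅ := by
          convert e
        rw [e2, Finset.card_empty, Nat.cast_zero]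
        positivity)
  rw [Vq_Qn_shift Ql 1 perB_Ql, Vq_Qd_shift Ql 1 perB_Ql, ← hVdef, ← hV1, ← hM] at h8
  -- the error term
  have herr : (T : ℝ) ^ (k + 1) * √(Y : ℝ) ≤ ε1 * (Y * V1 * M) := by
    have hs0 : 0 < √(Y : ℝ) := Real.sqrt_pos.2 hY0
    have hsq : √(Y : ℝ) * √(Y : ℝ) = Y := Real.mul_self_sqrt hY0.le
    have hsY : (q : ℝ) ^ (θ / 2) ≤ √(Y : ℝ) := by
      apply Real.le_sqrt_of_sq_le
      refine le_trans (le_of_eq ?_) hqY
      rw [← Real.rpow_natCast, ← Real.rpow_mul hq0.le]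
      congr 1
      push_cast
      ring
    have h9 := h6.trans hsY
    rw [div_mul_eq_mul_div, div_le_iff₀ (by positivity)] at h9
    have h10 : ((k + 1).factorial : ℝ) ≤ √(Y : ℝ) * (ε1 * (c / Real.log q) ^ (k + 2)) := by
      rw [div_pow, mul_div_assoc', mul_div_assoc', le_div_iff₀ (by positivity)]
      exact h9
    have h11 : ((k + 1).factorial : ℝ) * (T : ℝ) ^ (k + 1) ≤
        √(Y : ℝ) * ε1 * (V1 * M * (k + 1).factorial) := by
      calc ((k + 1).factorial : ℝ) * (T : ℝ) ^ (k + 1) ≤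
            (√(Y : ℝ) * (ε1 * (c / Real.log q) ^ (k + 2))) * (T : ℝ) ^ (k + 1) :=
            mul_le_mul_of_nonneg_right h10 hTk.le
        _ = √(Y : ℝ) * ε1 * ((c / Real.log q) ^ (k + 2) * (T : ℝ) ^ (k + 1)) := by ring
        _ ≤ _ := mul_le_mul_of_nonneg_left hkey (by positivity)
    have h12 : (T : ℝ) ^ (k + 1) ≤ √(Y : ℝ) * ε1 * (V1 * M) := by
      have e1 : √(Y : ℝ) * ε1 * (V1 * M * (k + 1).factorial) =
        (k + 1).factorial * (√(Y : ℝ) * ε1 * (V1 * M)) := by ring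
      rw [e1] at h11
      exact le_of_mul_le_mul_left h11 hf0
    calc (T : ℝ) ^ (k + 1) * √(Y : ℝ) ≤ (√(Y : ℝ) * ε1 * (V1 * M)) * √(Y : ℝ) :=
          mul_le_mul_of_nonneg_right h12 hs0.le
      _ = ε1 * ((√(Y : ℝ) * √(Y : ℝ)) * V1 * M) := by ring
      _ = _ := by rw [hsq]
  -- the sums
  obtain ⟨F, hF⟩ : ∃ F : ℕ → ℝ, F = fun n => ((W Ql q y T n).choose (k + 1) : ℝ) := ⟨_, rfl⟩
  have hF0 : ∀ n, 0 ≤ F n := fun n => by rw [hF]; exact Nat.cast_nonneg _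
  have hFT : ∀ n, F n ≤ (T : ℝ) ^ (k + 1) := by
    intro n
    rw [hF]
    have e1 : W Ql q y T n ≤ T := by
      unfold W
      refine (card_filter_le _ _).trans ?_
      rw [Nat.card_Icc]
      omega
    have e2 : (W Ql q y T n).choose (k + 1) ≤ T ^ (k + 1) :=
      (Nat.choose_le_pow _ _).trans (Nat.pow_le_pow_left e1 _)
    change ((W Ql q y T n).choose (k + 1) : ℝ) ≤ (T : ℝ) ^ (k + 1)
    exact_mod_cast e2
  have hS2 : ∑ n ∈ (Icc 1 Y).filter (fun n => Sf (Qd (Qt Ql Z) q) y n),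
      ((W (Qt Ql Z) q y T n).choose (k + 1) : ℝ) =
      ∑ n ∈ (Ioc Z (Z + Y)).filter (fun n => Sf (Qd Ql q) y n), F n := by
    symm
    apply sum_shift
    · intro n
      exact Iff.rfl
    · intro n
      rw [hF, W_shift]
  rw [hS2] at h8
  have hS1 : ∑ n ∈ (Ioc Z (Z + Y)).filter (fun n => n.Coprime q), ((Wr q y T n).choose (k + 1) : ℝ) =
      ∑ n ∈ (Ioc Z (Z + Y)).filter (fun n => n.Coprime q), F n := by
    apply Finset.sum_congr rfl
    intro n hn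
    rw [hF, ← W_of_coprime q y T n (mem_filter.1 hn).2]
  rw [hS1]
  -- the classes with a large common prime factor
  obtain ⟨S1, hS1d⟩ : ∃ S1, S1 = (Ioc Z (Z + Y)).filter (fun n => n.Coprime q) := ⟨_, rfl⟩
  obtain ⟨S2, hS2d⟩ : ∃ S2, S2 = (Ioc Z (Z + Y)).filter (fun n => Sf (Qd Ql q) y n) := ⟨_, rfl⟩
  obtain ⟨Bd, hBd⟩ : ∃ Bd, Bd = (q.primeFactors.filter (fun p => y < p)).biUnion
    (fun p => (Ioc Z (Z + Y)).filter (fun b => p ∣ b)) := ⟨_, rfl⟩
  rw [← hS1d]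
  rw [← hS2d] at h8
  have hsub : S1 ⊆ S2 := by
    intro n hn
    rw [hS1d, mem_filter] at hn
    rw [hS2d, mem_filter]
    exact ⟨hn.1, sf_of_coprime q y n hn.2⟩
  have hsub2 : S2 ⊆ S1 ∪ Bd := by
    intro n hn
    rw [hS2d, mem_filter] at hn
    obtain ⟨n1, n2⟩ := hn
    by_cases hcop : n.Coprime q
    · rw [mem_union]
      left
      rw [hS1d, mem_filter]
      exact ⟨n1, hcop⟩
    · rw [mem_union]
      right
      obtain ⟨p, hp, hpn, hpq⟩ := Nat.Prime.not_coprime_iff_dvd.1 hcop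
      rw [hBd, mem_biUnion]
      refine ⟨p, ?_, mem_filter.2 ⟨n1, hpn⟩⟩
      rw [mem_filter, Nat.mem_primeFactors]
      refine ⟨⟨hp, hpq, by omega⟩, ?_⟩
      by_contra hpy
      exact n2 p (mem_pz.2 ⟨by omega, hp⟩) ⟨hpq, hpn⟩
  have hBdc : (Bd.card : ℝ) * (T : ℝ) ^ (k + 1) ≤ ε1 * (Y * V1 * M) := by
    have b1 : (Bd.card : ℝ) ≤ ∑ p ∈ q.primeFactors.filter (fun p => y < p), ((Y : ℝ) / p + 1) := by
      rw [hBd]
      have b2 : ((((q.primeFactors.filter (fun p => y < p)).biUnion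
          (fun p => (Ioc Z (Z + Y)).filter (fun b => p ∣ b))).card : ℕ) : ℝ) ≤
          ((∑ p ∈ q.primeFactors.filter (fun p => y < p),
            ((Ioc Z (Z + Y)).filter (fun b => p ∣ b)).card : ℕ) : ℝ) := by
        exact_mod_cast Finset.card_biUnion_le
      refine b2.trans ?_
      push_cast
      apply Finset.sum_le_sum
      intro p hp
      rw [mem_filter, Nat.mem_primeFactors] at hp
      exact card_mult Z Y p hp.1.1.pos
    have b3 : ∑ p ∈ q.primeFactors.filter (fun p => y < p), ((Y : ℝ) / p + 1) ≤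
        (q.primeFactors.filter (fun p => y < p)).card * (2 * (Y / y)) := by
      rw [← nsmul_eq_mul]
      apply Finset.sum_le_card_nsmul
      intro p hp
      rw [mem_filter, Nat.mem_primeFactors] at hp
      have b4 : (Y : ℝ) / p ≤ Y / y := by
        apply div_le_div_of_nonneg_left hY0.le hy0
        exact_mod_cast hp.2.le
      have b5 : 1 ≤ (Y : ℝ) / y := by
        rw [le_div_iff₀ hy0, one_mul]
        exact hyY
      linarith
    have b6 : ((q.primeFactors.filter (fun p => y < p)).card : ℝ) ≤ 2 * r := by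
      have b7 := Pool.Agent.Y879.GL.card_primes_le (q.primeFactors.filter (fun p => y < p)) y q
        (by omega) (by omega) q le_rfl (by
          intro p hp
          rw [mem_filter, Nat.mem_primeFactors] at hp
          exact ⟨hp.1.1, hp.2, hp.1.2.1⟩)
      have b8 : ((q.primeFactors.filter (fun p => y < p)).card : ℝ) * (Real.log q / (2 * r)) ≤
          Real.log q := le_trans (mul_le_mul_of_nonneg_left g2 (Nat.cast_nonneg _)) b7
      rw [mul_div_assoc', div_le_iff₀ (by positivity)] at b8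
      have b9 : ((q.primeFactors.filter (fun p => y < p)).card : ℝ) * Real.log q ≤
          2 * r * Real.log q := by linarith
      exact le_of_mul_le_mul_right b9 hlq
    have b10 : (Bd.card : ℝ) ≤ 2 * r * (2 * (Y / y)) :=
      b1.trans (b3.trans (mul_le_mul_of_nonneg_right b6 (by positivity)))
    rw [div_mul_eq_mul_div, div_le_iff₀ (by positivity)] at h5
    have b11 : 8 * r * ((k + 1).factorial : ℝ) ≤ 2 * y * (ε1 * (c / Real.log q) ^ (k + 2)) := by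
      rw [div_pow, mul_div_assoc', mul_div_assoc', le_div_iff₀ (by positivity)]
      refine h5.trans ?_
      exact mul_le_mul_of_nonneg_right hyq2 (by positivity)
    have b12 : 4 * r * ((k + 1).factorial : ℝ) * (T : ℝ) ^ (k + 1) ≤
        y * ε1 * (V1 * M * (k + 1).factorial) := by
      calc 4 * r * ((k + 1).factorial : ℝ) * (T : ℝ) ^ (k + 1) ≤
            (y * (ε1 * (c / Real.log q) ^ (k + 2))) * (T : ℝ) ^ (k + 1) :=
            mul_le_mul_of_nonneg_right (by linarith) hTk.le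
        _ = y * ε1 * ((c / Real.log q) ^ (k + 2) * (T : ℝ) ^ (k + 1)) := by ring
        _ ≤ _ := mul_le_mul_of_nonneg_left hkey (by positivity)
    have b13 : 4 * r * (T : ℝ) ^ (k + 1) ≤ y * ε1 * (V1 * M) := by
      have e1 : y * ε1 * (V1 * M * (k + 1).factorial) = (k + 1).factorial * (y * ε1 * (V1 * M)) := by ring
      have e2 : 4 * r * ((k + 1).factorial : ℝ) * (T : ℝ) ^ (k + 1) =
        (k + 1).factorial * (4 * r * (T : ℝ) ^ (k + 1)) := by ring
      rw [e1, e2] at b12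
      exact le_of_mul_le_mul_left b12 hf0
    calc (Bd.card : ℝ) * (T : ℝ) ^ (k + 1) ≤ (2 * r * (2 * (Y / y))) * (T : ℝ) ^ (k + 1) :=
          mul_le_mul_of_nonneg_right b10 hTk.le
      _ = (Y / y) * (4 * r * (T : ℝ) ^ (k + 1)) := by ring
      _ ≤ (Y / y) * (y * ε1 * (V1 * M)) := mul_le_mul_of_nonneg_left b13 (by positivity)
      _ = ε1 * (Y * V1 * M) := by field_simp
  have hdiff : |∑ n ∈ S1, F n - ∑ n ∈ S2, F n| ≤ ε1 * (Y * V1 * M) := by
    have d1 : ∑ n ∈ S1, F n ≤ ∑ n ∈ S2, F n :=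
      Finset.sum_le_sum_of_subset_of_nonneg hsub (fun n _ _ => hF0 n)
    have d2 : ∑ n ∈ S2, F n ≤ ∑ n ∈ S1, F n + ∑ n ∈ Bd, F n := by
      calc ∑ n ∈ S2, F n ≤ ∑ n ∈ S1 ∪ Bd, F n :=
            Finset.sum_le_sum_of_subset_of_nonneg hsub2 (fun n _ _ => hF0 n)
        _ ≤ ∑ n ∈ S1, F n + ∑ n ∈ Bd, F n := by
          have := Finset.sum_union_inter (s₁ := S1) (s₂ := Bd) (f := F)
          have h0 : 0 ≤ ∑ n ∈ S1 ∩ Bd, F n := Finset.sum_nonneg fun n _ => hF0 n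
          linarith
    have d3 : ∑ n ∈ Bd, F n ≤ (Bd.card : ℝ) * (T : ℝ) ^ (k + 1) := by
      rw [← nsmul_eq_mul]
      exact Finset.sum_le_card_nsmul _ _ _ (fun n _ => hFT n)
    rw [abs_le]
    have d4 : 0 ≤ ε1 * (Y * V1 * M) := by positivity
    constructor <;> linarith
  rw [phi_eq q y (by omega), ← hV1]
  obtain ⟨E, hE⟩ : ∃ E, E = ∏ p ∈ q.primeFactors.filter (fun p => y < p), (1 - 1 / (p : ℝ)) := ⟨_, rfl⟩
  rw [← hE] at h2 ⊢
  obtain ⟨N, hN⟩ : ∃ N, N = Y * V1 * M := ⟨_, rfl⟩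
  have hN0 : 0 < N := by rw [hN]; positivity
  have e1 : Y * (V1 * E) * M = N * E := by rw [hN]; ring
  rw [e1]
  rw [← hN] at hdiff herr
  have e2 : ε1 * (Y * V1) * M = ε1 * N := by rw [hN]; ring
  rw [e2, ← hN] at h8
  have h9 : |∑ n ∈ S2, F n - N| ≤ 2 * (ε1 * N) := h8.trans (by linarith)
  have t1 := abs_sub_le (∑ n ∈ S1, F n) (∑ n ∈ S2, F n) N
  have t2 : |∑ n ∈ S1, F n - N| ≤ 3 * (ε1 * N) := by linarith
  have t3 : |N - N * E| ≤ ε1 * N := by
    have : N - N * E = N * (1 - E) := by ring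
    rw [this, abs_of_nonneg (mul_nonneg hN0.le (by linarith [h2.2]))]
    calc N * (1 - E) ≤ N * ε1 := mul_le_mul_of_nonneg_left (by linarith [h2.1]) hN0.le
      _ = _ := mul_comm _ _
  have t4 := abs_sub_le (∑ n ∈ S1, F n) N (N * E)
  have t5 : 4 * (ε1 * N) ≤ ε * (N * E) := by
    have : 8 * ε1 ≤ ε * E := by
      have hE2 : 1 / 2 ≤ E := by linarith [h2.1]
      calc 8 * ε1 ≤ ε * (1 / 2) := by linarith
        _ ≤ _ := mul_le_mul_of_nonneg_left hE2 hε.le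
    have h0 : 0 ≤ ε1 * N := by positivity
    calc 4 * (ε1 * N) ≤ (8 * ε1) * N := by linarith
      _ ≤ (ε * E) * N := mul_le_mul_of_nonneg_right this hN0.le
      _ = _ := by ring
  linarith

end Pool.Agent.Y879.AP
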