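import Pool.Agent.Y879.AP.Var
import Pool.Agent.Y879.AP.Mean2

set_option autoImplicit false

/-!
# The variance of the number of almost primes in the reduced residue classes modulo `q`
-/

namespace Pool.Agent.Y879.AP

open Finset Filter
open Pool.Agent.W123.RP Pool.Agent.H373R2.T7 Pool.Agent.W123.RU Pool.Agent.TH464.PO Pool.Agent.TH464.PW

lemma choose_sq (n : ℕ) (x : ℝ) :
    ((n : ℝ) - x) ^ 2 = 2 * (n.choose (1 + 1) : ℝ) + (1 - 2 * x) * (n.choose (0 + 1) : ℝ) + x ^ 2 := by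
  have h1 : (2 : ℝ) * (n.choose 2 : ℝ) = n * (n - 1) := by
    have := Nat.cast_choose_two ℝ n
    rw [this]
    ring
  rw [show 1 + 1 = 2 by norm_num, h1, zero_add, Nat.choose_one_right]
  ring

lemma var_num (A B N P x ε : ℝ) (x0 : ℝ) (hP : 0 ≤ P) (hx : 0 ≤ x) (hxx : x ≤ x0) (hε : 0 < ε)
    (hA : |A - P * (x ^ 2 / 2)| ≤ ε / (1 + 4 * x0) * (P * (x ^ 2 / 2)))
    (hB : |B - P * x| ≤ ε / (1 + 4 * x0) * (P * x))
    (hN : |N - P| * x ≤ ε / (1 + 4 * x0) * (P * x)) :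
    |2 * A + (1 - 2 * x) * B + N * x ^ 2 - P * x| ≤ ε * (P * x) := by
  obtain ⟨e, he⟩ : ∃ e, e = ε / (1 + 4 * x0) := ⟨_, rfl⟩
  have hx0 : 0 ≤ x0 := hx.trans hxx
  have he0 : 0 < e := by rw [he]; positivity
  have he1 : e * (1 + 4 * x0) = ε := by rw [he]; field_simp
  rw [← he] at hA hB hN
  have hN' : |N - P| * x * x ≤ e * (P * x) * x := mul_le_mul_of_nonneg_right hN hx
  have e1 : 2 * A + (1 - 2 * x) * B + N * x ^ 2 - P * x =
      2 * (A - P * (x ^ 2 / 2)) + (B - P * x) - 2 * x * (B - P * x) + (N - P) * x * x := by ring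
  have t1 : |2 * (A - P * (x ^ 2 / 2))| ≤ 2 * (e * (P * (x ^ 2 / 2))) := by
    rw [abs_mul, abs_of_pos (by norm_num : (0 : ℝ) < 2)]
    linarith
  have t2 : |2 * x * (B - P * x)| ≤ 2 * x * (e * (P * x)) := by
    rw [abs_mul, abs_of_nonneg (by positivity : 0 ≤ 2 * x)]
    exact mul_le_mul_of_nonneg_left hB (by positivity)
  have t3 : |(N - P) * x * x| ≤ e * (P * x) * x := by
    rw [abs_mul, abs_mul, abs_of_nonneg hx]
    exact hN'
  rw [e1]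
  have s1 := abs_add_le (2 * (A - P * (x ^ 2 / 2)) + (B - P * x) - 2 * x * (B - P * x)) ((N - P) * x * x)
  have s2 := abs_sub (2 * (A - P * (x ^ 2 / 2)) + (B - P * x)) (2 * x * (B - P * x))
  have s3 := abs_add_le (2 * (A - P * (x ^ 2 / 2))) (B - P * x)
  have hPx : 0 ≤ P * x := mul_nonneg hP hx
  have s4 : 2 * (e * (P * (x ^ 2 / 2))) + e * (P * x) + 2 * x * (e * (P * x)) + e * (P * x) * x ≤
      ε * (P * x) := by
    have : 2 * (e * (P * (x ^ 2 / 2))) + e * (P * x) + 2 * x * (e * (P * x)) + e * (P * x) * x =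
        e * (1 + 4 * x) * (P * x) := by ring
    rw [this, ← he1]
    apply mul_le_mul_of_nonneg_right _ hPx
    exact mul_le_mul_of_nonneg_left (by linarith) he0.le
  linarith

open Classical in
/-- **The variance over the reduced classes of every modulus.** -/
theorem var_law (θ x0 ε : ℝ) (hθ : 0 < θ) (hx0 : 0 ≤ x0) (hε : 0 < ε) :
    ∃ r0 T0 : ℕ, 2 ≤ r0 ∧ ∀ r : ℕ, r0 ≤ r → ∀ᶠ q : ℕ in atTop, ∀ Z Y : ℕ, (q : ℝ) ^ θ ≤ Y →
      ∀ T : ℕ, T0 ≤ T → T * Vq (Qn Ql q) ⌊(q : ℝ) ^ (1 / (r : ℝ))⌋₊ ≤ x0 →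
        |∑ n ∈ (Ioc Z (Z + Y)).filter (fun n => n.Coprime q),
            ((Wr q ⌊(q : ℝ) ^ (1 / (r : ℝ))⌋₊ T n : ℝ) -
              T * Vq (Qn Ql q) ⌊(q : ℝ) ^ (1 / (r : ℝ))⌋₊) ^ 2 -
          Y * ((q.totient : ℝ) / q) * (T * Vq (Qn Ql q) ⌊(q : ℝ) ^ (1 / (r : ℝ))⌋₊)| ≤
          ε * (Y * ((q.totient : ℝ) / q) * (T * Vq (Qn Ql q) ⌊(q : ℝ) ^ (1 / (r : ℝ))⌋₊)) := by
  obtain ⟨η, hη⟩ : ∃ η, η = ε / (1 + 4 * x0) := ⟨_, rfl⟩
  have hη0 : 0 < η := by rw [hη]; positivity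
  obtain ⟨r1, T1, hr1, h1⟩ := bin_mom 0 θ η hθ hη0
  obtain ⟨r2, T2, hr2, h2⟩ := bin_mom 1 θ η hθ hη0
  obtain ⟨r3, hr3, h3⟩ := phi_law θ 1 η hθ hη0
  refine ⟨max r1 (max r2 r3), max T1 T2, hr1.trans (le_max_left _ _), ?_⟩
  intro r hr
  filter_upwards [h1 r ((le_max_left _ _).trans hr),
    h2 r (((le_max_left _ _).trans (le_max_right _ _)).trans hr),
    h3 r (((le_max_right _ _).trans (le_max_right _ _)).trans hr)] with q g1 g2 g3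
  intro Z Y hY T hT hTV
  obtain ⟨y, hy⟩ : ∃ y, y = ⌊(q : ℝ) ^ (1 / (r : ℝ))⌋₊ := ⟨_, rfl⟩
  rw [← hy] at g1 g2 g3 hTV ⊢
  obtain ⟨V, hV⟩ : ∃ V, V = Vq (Qn Ql q) y := ⟨_, rfl⟩
  have a1 := g1 Z Y hY T ((le_max_left _ _).trans hT)
  have a2 := g2 Z Y hY T ((le_max_right _ _).trans hT)
  have a3 := g3 Z Y hY 0 (by simp) {0}
  have hV0 : 0 ≤ V := by rw [hV]; exact Vq_nonneg _ _
  rw [← hV] at a1 a2 hTV ⊢
  obtain ⟨x, hx⟩ : ∃ x, x = T * V := ⟨_, rfl⟩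
  have hx00 : 0 ≤ x := by rw [hx]; positivity
  rw [← hx] at a1 a2 hTV ⊢
  obtain ⟨P, hP⟩ : ∃ P : ℝ, P = Y * ((q.totient : ℝ) / q) := ⟨_, rfl⟩
  have hP0 : 0 ≤ P := by rw [hP]; positivity
  rw [← hP] at a1 a2 a3 ⊢
  obtain ⟨S, hS⟩ : ∃ S, S = (Ioc Z (Z + Y)).filter (fun n => n.Coprime q) := ⟨_, rfl⟩
  rw [← hS] at a1 a2 ⊢
  have e1 : ∑ n ∈ S, ((Wr q y T n : ℝ) - x) ^ 2 =
      2 * ∑ n ∈ S, ((Wr q y T n).choose (1 + 1) : ℝ) +
        (1 - 2 * x) * ∑ n ∈ S, ((Wr q y T n).choose (0 + 1) : ℝ) + S.card * x ^ 2 := by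
    rw [Finset.sum_congr rfl (fun n _ => choose_sq (Wr q y T n) x), Finset.sum_add_distrib,
      Finset.sum_add_distrib, ← Finset.mul_sum, ← Finset.mul_sum, Finset.sum_const, nsmul_eq_mul]
  rw [e1]
  have hcount : ((Ioc Z (Z + Y)).filter (fun n => n.Coprime q ∧ Wr q y 0 n ∈ ({0} : Finset ℕ))) = S := by
    rw [hS]
    apply Finset.filter_congr
    intro n _
    constructor
    · exact fun h => h.1
    · intro h
      refine ⟨h, ?_⟩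
      rw [mem_singleton]
      unfold Wr
      simp
  have a4 : |(S.card : ℝ) - P| ≤ η * P := by
    have : ((Ioc Z (Z + Y)).filter (fun n => n.Coprime q ∧ Wr q y 0 n ∈ ({0} : Finset ℕ))).card = S.card := by
      rw [hcount]
    rw [← this]
    simpa using a3
  apply var_num _ _ _ P x ε x0 hP0 hx00 hTV hε
  · rw [← hη]
    have e2 : x ^ (1 + 1) / (((1 + 1).factorial : ℕ) : ℝ) = x ^ 2 / 2 := by norm_num [Nat.factorial]
    rw [e2] at a2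
    exact a2
  · rw [← hη]
    have e2 : x ^ (0 + 1) / (((0 + 1).factorial : ℕ) : ℝ) = x := by norm_num [Nat.factorial]
    rw [e2] at a1
    exact a1
  · rw [← hη]
    calc |(S.card : ℝ) - P| * x ≤ η * P * x := mul_le_mul_of_nonneg_right a4 hx00
      _ = _ := by ring

end Pool.Agent.Y879.AP
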